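import Mathlib
import Pool.Graph.R_pool_sql_team_seeded_843ab51a.V11100.VB.Base

set_option autoImplicit false

/-!
# Veblen configurations of a Steiner system `S(n, q + 1, 2)`: first counts
-/

namespace Pool.Agent.Helper19.VS

open Finset Pool.Agent.V11100.VB

/-! ### two counting tools -/

theorem card_le_mul {β γ δ : Type} (t : Finset β) (u : Finset γ) (w : γ → Finset δ) (k : ℕ)
    (f : β → γ) (g : β → δ) (hf : ∀ b ∈ t, f b ∈ u) (hg : ∀ b ∈ t, g b ∈ w (f b))
    (hw : ∀ c ∈ u, (w c).card ≤ k)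
    (hinj : ∀ b ∈ t, ∀ b' ∈ t, f b = f b' → g b = g b' → b = b') :
    t.card ≤ k * u.card := by
  classical
  have h1 : (u.sigma w).card ≤ k * u.card := by
    rw [card_sigma, mul_comm, ← smul_eq_mul]
    exact sum_le_card_nsmul _ _ _ hw
  refine le_trans ?_ h1
  refine card_le_card_of_injOn (fun b => (⟨f b, g b⟩ : (_ : γ) × δ)) ?_ ?_
  · intro b hb
    rw [mem_coe, mem_sigma]
    exact ⟨hf b hb, hg b hb⟩
  · intro b hb b' hb' e
    have e' : (⟨f b, g b⟩ : (_ : γ) × δ) = ⟨f b', g b'⟩ := e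
    rw [Sigma.mk.injEq] at e'
    exact hinj b hb b' hb' e'.1 (eq_of_heq e'.2)

theorem sum_card_le {α β γ δ : Type} (s : Finset α) (t : α → Finset β) (u : Finset γ)
    (w : γ → Finset δ) (k : ℕ) (f : α → β → γ) (g : α → β → δ)
    (hf : ∀ a ∈ s, ∀ b ∈ t a, f a b ∈ u) (hg : ∀ a ∈ s, ∀ b ∈ t a, g a b ∈ w (f a b))
    (hw : ∀ c ∈ u, (w c).card ≤ k)
    (hinj : ∀ a ∈ s, ∀ b ∈ t a, ∀ a' ∈ s, ∀ b' ∈ t a', f a b = f a' b' → g a b = g a' b' →
      a = a' ∧ b = b') :
    ∑ a ∈ s, (t a).card ≤ k * u.card := by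
  classical
  rw [← card_sigma]
  refine card_le_mul (s.sigma t) u w k (fun x => f x.1 x.2) (fun x => g x.1 x.2) ?_ ?_ hw ?_
  · rintro ⟨a, b⟩ h
    rw [mem_sigma] at h
    exact hf a h.1 b h.2
  · rintro ⟨a, b⟩ h
    rw [mem_sigma] at h
    exact hg a h.1 b h.2
  · rintro ⟨a, b⟩ h ⟨a', b'⟩ h' e1 e2
    rw [mem_sigma] at h h'
    obtain ⟨h3, h4⟩ := hinj a h.1 b h.2 a' h'.1 b' h'.2 e1 e2
    subst h3
    subst h4
    rfl

theorem card_od {α : Type} [DecidableEq α] (s : Finset α) :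
    s.offDiag.card = s.card * (s.card - 1) := by
  rw [offDiag_card, Nat.mul_sub, mul_one]

variable {V : Type} [DecidableEq V]

/-- `p` is on two different blocks, `a` and `b` are on the first one, `c` and `d` on the other -/
def Cf (B : Finset (Finset V)) (p a b c d : V) : Prop :=
  a ≠ p ∧ b ≠ p ∧ c ≠ p ∧ d ≠ p ∧ a ≠ b ∧ c ≠ d ∧ b ∈ bl B p a ∧ d ∈ bl B p c ∧ c ∉ bl B p a

/-- and the blocks `ac`, `bd` do not meet -/
def Bd (B : Finset (Finset V)) (p a b c d : V) : Prop :=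
  Cf B p a b c d ∧ ∀ w, w ∈ bl B a c → w ∉ bl B b d

open scoped Classical in
/-- the set of configurations -/
noncomputable def cfs [Fintype V] (B : Finset (Finset V)) : Finset (V × V × V × V × V) :=
  univ.filter fun t => Cf B t.1 t.2.1 t.2.2.1 t.2.2.2.1 t.2.2.2.2

open scoped Classical in
/-- the set of failing configurations -/
noncomputable def fls [Fintype V] (B : Finset (Finset V)) : Finset (V × V × V × V × V) :=
  univ.filter fun t => Bd B t.1 t.2.1 t.2.2.1 t.2.2.2.1 t.2.2.2.2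

theorem mem_fls [Fintype V] {B : Finset (Finset V)} {p a b c d : V} :
    (p, a, b, c, d) ∈ fls B ↔ Bd B p a b c d := by
  classical
  unfold fls
  rw [mem_filter]
  simp

theorem mem_cfs [Fintype V] {B : Finset (Finset V)} {p a b c d : V} :
    (p, a, b, c, d) ∈ cfs B ↔ Cf B p a b c d := by
  classical
  unfold cfs
  rw [mem_filter]
  simp

/-- the blocks through `p` -/
def thr (B : Finset (Finset V)) (p : V) : Finset (Finset V) := B.filter fun b => p ∈ b

theorem mem_thr {B : Finset (Finset V)} {p : V} {b : Finset V} :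
    b ∈ thr B p ↔ b ∈ B ∧ p ∈ b := by
  unfold thr
  rw [mem_filter]

open scoped Classical in
/-- a common point of two sets, if there is one -/
noncomputable def mt (L M : Finset V) (d : V) : V :=
  if h : ∃ w ∈ L, w ∈ M then h.choose else d

theorem mt_spec {L M : Finset V} (h : ∃ w ∈ L, w ∈ M) (d : V) :
    mt L M d ∈ L ∧ mt L M d ∈ M := by
  unfold mt
  rw [dif_pos h]
  exact h.choose_spec

section

variable {B : Finset (Finset V)} {q : ℕ} (H : LS B q)
include H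

/-- exchange: two different points of the block `ab` span it -/
theorem bl_of {a b c d : V} (hab : a ≠ b) (hc : c ∈ bl B a b) (hd : d ∈ bl B a b)
    (hcd : c ≠ d) : bl B c d = bl B a b :=
  H.bl_eq hcd (H.bB hab) hc hd

theorem bl_comm {a b : V} (hab : a ≠ b) : bl B a b = bl B b a :=
  bl_of H hab.symm (H.b2 hab.symm) (H.b1 hab.symm) hab

theorem card_thr [Fintype V] (p : V) : (thr B p).card * q + 1 = Fintype.card V := by
  classical
  have h : (univ : Finset V) = insert p ((thr B p).biUnion fun b => b.erase p) := by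
    ext x
    simp only [mem_univ, true_iff]
    by_cases hx : x = p
    · rw [hx]; exact mem_insert_self _ _
    · rw [mem_insert, mem_biUnion]
      right
      exact ⟨bl B p x, mem_thr.2 ⟨H.bB (Ne.symm hx), H.b1 (Ne.symm hx)⟩,
        mem_erase.2 ⟨hx, H.b2 (Ne.symm hx)⟩⟩
  rw [← card_univ, h, card_insert_of_notMem (by simp), card_biUnion]
  · rw [sum_congr rfl (fun b hb => by
      rw [card_erase_of_mem (mem_thr.1 hb).2, H.size b (mem_thr.1 hb).1, Nat.add_sub_cancel]),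
      sum_const, smul_eq_mul]
  · intro b hb b' hb' hne
    rw [Function.onFun, disjoint_left]
    intro x hx hx'
    rw [mem_erase] at hx hx'
    rw [mem_coe, mem_thr] at hb hb'
    exact hne (H.un hx.1 hb.1 hb'.1 hx.2 hb.2 hx'.2 hb'.2)

theorem card_cfs [Fintype V] {r : ℕ} (hr : ∀ p, (thr B p).card = r) :
    (cfs B).card ≤ (q * (q - 1)) ^ 2 * (Fintype.card V * (r * (r - 1))) := by
  classical
  have hu : (univ.sigma fun p : V => (thr B p).offDiag).card =
      Fintype.card V * (r * (r - 1)) := by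
    rw [card_sigma, sum_congr rfl (fun p _ => by rw [card_od, hr p]), sum_const, card_univ,
      smul_eq_mul]
  rw [← hu]
  refine card_le_mul (cfs B) (univ.sigma fun p : V => (thr B p).offDiag)
    (fun c => (c.2.1.erase c.1).offDiag ×ˢ (c.2.2.erase c.1).offDiag) _
    (fun t => ⟨t.1, bl B t.1 t.2.1, bl B t.1 t.2.2.2.1⟩)
    (fun t => ((t.2.1, t.2.2.1), (t.2.2.2.1, t.2.2.2.2))) ?_ ?_ ?_ ?_
  · rintro ⟨p, a, b, c, d⟩ h
    rw [mem_cfs] at h
    obtain ⟨h1, h2, h3, h4, h5, h6, h7, h8, h9⟩ := h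
    rw [mem_sigma]
    refine ⟨mem_univ _, mem_offDiag.2 ⟨mem_thr.2 ⟨H.bB h1.symm, H.b1 h1.symm⟩,
      mem_thr.2 ⟨H.bB h3.symm, H.b1 h3.symm⟩, fun e => h9 ?_⟩⟩
    have e' : bl B p a = bl B p c := e
    rw [e']
    exact H.b2 h3.symm
  · rintro ⟨p, a, b, c, d⟩ h
    rw [mem_cfs] at h
    obtain ⟨h1, h2, h3, h4, h5, h6, h7, h8, h9⟩ := h
    simp only [mem_product, mem_offDiag, mem_erase]
    exact ⟨⟨⟨h1, H.b2 h1.symm⟩, ⟨h2, h7⟩, h5⟩, ⟨⟨h3, H.b2 h3.symm⟩, ⟨h4, h8⟩, h6⟩⟩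
  · rintro ⟨p, l, l'⟩ h
    rw [mem_sigma] at h
    obtain ⟨_, h⟩ := h
    have h' := mem_offDiag.1 h
    simp only [mem_thr] at h'
    obtain ⟨⟨h1, h2⟩, ⟨h3, h4⟩, _⟩ := h'
    have e1 : (l.erase p).card = q := by rw [card_erase_of_mem h2, H.size l h1]; rfl
    have e2 : (l'.erase p).card = q := by rw [card_erase_of_mem h4, H.size l' h3]; rfl
    simp only [card_product, card_od]
    rw [e1, e2, sq]
  · rintro ⟨p, a, b, c, d⟩ _ ⟨p', a', b', c', d'⟩ _ e1 e2
    simp only [Sigma.mk.injEq, Prod.mk.injEq] at e1 e2 ⊢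
    exact ⟨e1.1, e2.1.1, e2.1.2, e2.2.1, e2.2.2⟩

end

end Pool.Agent.Helper19.VS
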