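import Mathlib
import Pool.Agent.Helper19.VS.Basic

set_option autoImplicit false

/-!
# The lines of an affine space
-/

namespace Pool.Agent.Helper19.VS

open Finset Pool.Agent.V11100.VB

variable (K : Type) [Field K] [Fintype K] {W : Type} [AddCommGroup W] [Module K W] [Fintype W]
  [DecidableEq W]

/-- the line through `x` in the direction `v` -/
def line (x v : W) : Finset W := univ.image fun t : K => x + t • v

/-- all lines -/
def lines (W : Type) [AddCommGroup W] [Module K W] [Fintype W] [DecidableEq W] :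
    Finset (Finset W) :=
  ((univ : Finset (W × W)).filter fun t => t.2 ≠ 0).image fun t => line K t.1 t.2

variable {K}

theorem mem_line {x v y : W} : y ∈ line K x v ↔ ∃ t : K, x + t • v = y := by
  unfold line
  rw [mem_image]
  simp

theorem mem_lines {b : Finset W} : b ∈ lines K W ↔ ∃ x v : W, v ≠ 0 ∧ line K x v = b := by
  unfold lines
  rw [mem_image]
  constructor
  · rintro ⟨⟨x, v⟩, h, e⟩
    rw [mem_filter] at h
    exact ⟨x, v, h.2, e⟩
  · rintro ⟨x, v, h, e⟩
    exact ⟨(x, v), mem_filter.2 ⟨mem_univ _, h⟩, e⟩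

theorem line_card {x v : W} (hv : v ≠ 0) : (line K x v).card = Fintype.card K := by
  unfold line
  rw [card_image_of_injective, card_univ]
  intro s t e
  have e' : x + s • v = x + t • v := e
  rw [add_right_inj] at e'
  exact smul_left_injective K hv e'

theorem line_eq {x v y z : W} (hy : y ∈ line K x v) (hz : z ∈ line K x v) (hyz : y ≠ z) :
    line K x v = line K y (z - y) := by
  rw [mem_line] at hy hz
  obtain ⟨s, rfl⟩ := hy
  obtain ⟨t, rfl⟩ := hz
  have hst : t - s ≠ 0 := by
    intro h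
    rw [sub_eq_zero] at h
    rw [h] at hyz
    exact hyz rfl
  have e : x + t • v - (x + s • v) = (t - s) • v := by
    rw [sub_smul]; abel
  rw [e]
  ext w
  rw [mem_line, mem_line]
  constructor
  · rintro ⟨k, rfl⟩
    refine ⟨(k - s) / (t - s), ?_⟩
    rw [smul_smul, div_mul_cancel₀ _ hst, sub_smul]
    abel
  · rintro ⟨k, rfl⟩
    refine ⟨s + k * (t - s), ?_⟩
    rw [add_smul, smul_smul]
    abel

theorem lines_LS {q : ℕ} (hq : 2 ≤ q) (hK : Fintype.card K = q + 1) : LS (lines K W) q := by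
  refine ⟨?_, ?_, hq⟩
  · intro b hb
    rw [mem_lines] at hb
    obtain ⟨x, v, hv, rfl⟩ := hb
    rw [line_card hv, hK]
  · intro R hR
    rw [card_eq_two] at hR
    obtain ⟨y, z, hyz, rfl⟩ := hR
    refine ⟨line K y (z - y), ⟨mem_lines.2 ⟨y, z - y, sub_ne_zero.2 hyz.symm, rfl⟩, ?_⟩, ?_⟩
    · intro w hw
      rw [mem_insert, mem_singleton] at hw
      rw [mem_line]
      rcases hw with rfl | rfl
      · exact ⟨0, by simp⟩
      · exact ⟨1, by simp⟩
    · rintro b ⟨hb, hs⟩
      rw [mem_lines] at hb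
      obtain ⟨x, v, hv, rfl⟩ := hb
      exact line_eq (hs (by simp)) (hs (by simp)) hyz

theorem bl_line {q : ℕ} (H : LS (lines K W) q) {y z : W} (h : y ≠ z) :
    bl (lines K W) y z = line K y (z - y) := by
  refine H.bl_eq h (mem_lines.2 ⟨y, z - y, sub_ne_zero.2 h.symm, rfl⟩) ?_ ?_
  · rw [mem_line]; exact ⟨0, by simp⟩
  · rw [mem_line]; exact ⟨1, by simp⟩

/-- when does a configuration fail -/
theorem fail_iff {q : ℕ} (H : LS (lines K W) q) {p u w : W} {l m : K} (hu : u ≠ 0) (hw : w ≠ 0)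
    (huw : ∀ k : K, k • u ≠ w) (hl0 : l ≠ 0) (hl1 : l ≠ 1) (hm0 : m ≠ 0) (hm1 : m ≠ 1) :
    Bd (lines K W) p (p + u) (p + l • u) (p + w) (p + m • w) ↔ l = m := by
  have hpa : p ≠ p + u := fun e => hu (by simpa using e.symm)
  have hpc : p ≠ p + w := fun e => hw (by simpa using e.symm)
  have hac : p + u ≠ p + w := fun e => huw 1 (by simpa using e)
  have hlin : ∀ a b : K, a • u + b • w = 0 → a = 0 ∧ b = 0 := by
    intro a b hab
    have hb : b = 0 := by
      by_contra hb
      apply huw (-(b⁻¹ * a))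
      have : b⁻¹ • (a • u + b • w) = 0 := by rw [hab, smul_zero]
      rw [smul_add, smul_smul, smul_smul, inv_mul_cancel₀ hb, one_smul] at this
      rw [neg_smul]
      exact (eq_neg_of_add_eq_zero_right this).symm
    rw [hb, zero_smul, add_zero, smul_eq_zero] at hab
    exact ⟨hab.resolve_right hu, hb⟩
  have hbd : p + l • u ≠ p + m • w := by
    intro e
    have : l • u + (-m) • w = 0 := by
      rw [neg_smul, ← sub_eq_add_neg, sub_eq_zero]
      simpa using e
    exact hl0 (hlin _ _ this).1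
  have hcf : Cf (lines K W) p (p + u) (p + l • u) (p + w) (p + m • w) := by
    refine ⟨hpa.symm, ?_, hpc.symm, ?_, ?_, ?_, ?_, ?_, ?_⟩
    · intro e
      have : l • u = 0 := by simpa using e
      rw [smul_eq_zero] at this
      exact this.elim hl0 hu
    · intro e
      have : m • w = 0 := by simpa using e
      rw [smul_eq_zero] at this
      exact this.elim hm0 hw
    · intro e
      have : (1 : K) • u = l • u := by simpa using e
      exact hl1 (smul_left_injective K hu this).symm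
    · intro e
      have : (1 : K) • w = m • w := by simpa using e
      exact hm1 (smul_left_injective K hw this).symm
    · rw [bl_line H hpa, mem_line]
      exact ⟨l, by simp⟩
    · rw [bl_line H hpc, mem_line]
      exact ⟨m, by simp⟩
    · rw [bl_line H hpa, mem_line]
      rintro ⟨t, ht⟩
      apply huw t
      simpa using ht
  constructor
  · rintro ⟨_, h⟩
    by_contra hlm
    have hml : m - l ≠ 0 := sub_ne_zero.2 (Ne.symm hlm)
    set t := (1 - l) / (m - l) with ht
    have ht' : t * (m - l) = 1 - l := by rw [ht, div_mul_cancel₀ _ hml]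
    refine h (p + ((1 - t) * l) • u + (t * m) • w) ?_ ?_
    · rw [bl_line H hac, mem_line]
      refine ⟨t * m, ?_⟩
      have : (1 - t) * l = 1 - t * m := by linear_combination ht'
      rw [this]
      module
    · rw [bl_line H hbd, mem_line]
      refine ⟨t, ?_⟩
      module
  · rintro rfl
    refine ⟨hcf, ?_⟩
    intro y hy hy'
    rw [bl_line H hac, mem_line] at hy
    rw [bl_line H hbd, mem_line] at hy'
    obtain ⟨s, rfl⟩ := hy
    obtain ⟨t, ht⟩ := hy'
    have h2 : (1 - s - (1 - t) * l) • u + (s - t * l) • w = 0 := by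
      have : p + u + s • (p + w - (p + u)) - (p + l • u + t • (p + l • w - (p + l • u))) = 0 := by
        rw [ht, sub_self]
      rw [← this]
      module
    obtain ⟨h3, h4⟩ := hlin _ _ h2
    apply hl1
    linear_combination (-1 : K) * h3 - h4

theorem affine_count {q : ℕ} (hK : Fintype.card K = q + 1) (H : LS (lines K W) q) :
    (cfs (lines K W)).card = (q - 1) * (fls (lines K W)).card := by
  classical
  -- coordinates
  have coord : ∀ {p a b c d : W}, Cf (lines K W) p a b c d → ∃ (u w : W) (l m : K), u ≠ 0 ∧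
      w ≠ 0 ∧ (∀ k : K, k • u ≠ w) ∧ l ≠ 0 ∧ l ≠ 1 ∧ m ≠ 0 ∧ m ≠ 1 ∧ a = p + u ∧ b = p + l • u ∧
      c = p + w ∧ d = p + m • w := by
    intro p a b c d h
    obtain ⟨h1, h2, h3, h4, h5, h6, h7, h8, h9⟩ := h
    rw [bl_line H h1.symm, mem_line] at h7 h9
    rw [bl_line H h3.symm, mem_line] at h8
    obtain ⟨l, rfl⟩ := h7
    obtain ⟨m, rfl⟩ := h8
    refine ⟨a - p, c - p, l, m, sub_ne_zero.2 h1, sub_ne_zero.2 h3, ?_, ?_, ?_, ?_, ?_, by abel,
      rfl, by abel, rfl⟩
    · intro k hk
      exact h9 ⟨k, by rw [hk]; abel⟩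
    · rintro rfl
      exact h2 (by simp)
    · rintro rfl
      exact h5 (by simp)
    · rintro rfl
      exact h4 (by simp)
    · rintro rfl
      exact h6 (by simp)
  apply le_antisymm
  · -- map to the failing one
    have key : ∀ t ∈ cfs (lines K W), ∃ d', (t.1, t.2.1, t.2.2.1, t.2.2.2.1, d') ∈
        fls (lines K W) := by
      rintro ⟨p, a, b, c, d⟩ ht
      rw [mem_cfs] at ht
      obtain ⟨u, w, l, m, h1, h2, h3, h4, h5, h6, h7, rfl, rfl, rfl, rfl⟩ := coord ht
      exact ⟨p + l • w, mem_fls.2 ((fail_iff H h1 h2 h3 h4 h5 h4 h5).2 rfl)⟩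
    have : Nonempty W := ⟨0⟩
    choose! f hf using key
    refine card_le_mul (cfs (lines K W)) (fls (lines K W))
      (fun c => ((bl (lines K W) c.1 c.2.2.2.1).erase c.1).erase c.2.2.2.1) (q - 1)
      (fun t => (t.1, t.2.1, t.2.2.1, t.2.2.2.1, f t)) (fun t => t.2.2.2.2) hf ?_ ?_ ?_
    · rintro ⟨p, a, b, c, d⟩ ht
      rw [mem_cfs] at ht
      obtain ⟨h1, h2, h3, h4, h5, h6, h7, h8, h9⟩ := ht
      rw [mem_erase, mem_erase]
      exact ⟨h6.symm, h4, h8⟩
    · rintro ⟨p, a, b, c, d⟩ ht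
      rw [mem_fls] at ht
      obtain ⟨⟨h1, h2, h3, h4, h5, h6, h7, h8, h9⟩, _⟩ := ht
      show (((bl (lines K W) p c).erase p).erase c).card ≤ q - 1
      rw [card_erase_of_mem (mem_erase.2 ⟨h3, H.b2 h3.symm⟩), card_erase_of_mem (H.b1 h3.symm),
        H.size _ (H.bB h3.symm)]
      omega
    · rintro ⟨p, a, b, c, d⟩ _ ⟨p', a', b', c', d'⟩ _ e e'
      simp only [Prod.mk.injEq] at e e' ⊢
      exact ⟨e.1, e.2.1, e.2.2.1, e.2.2.2.1, e'⟩
  · have h1 : ((fls (lines K W)).sigma fun c =>
        ((bl (lines K W) c.1 c.2.2.2.1).erase c.1).erase c.2.2.2.1).card =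
        (q - 1) * (fls (lines K W)).card := by
      rw [card_sigma, sum_congr rfl (g := fun _ => q - 1) ?_, sum_const, smul_eq_mul, mul_comm]
      rintro ⟨p, a, b, c, d⟩ ht
      rw [mem_fls] at ht
      obtain ⟨⟨h1, h2, h3, h4, h5, h6, h7, h8, h9⟩, _⟩ := ht
      show (((bl (lines K W) p c).erase p).erase c).card = q - 1
      rw [card_erase_of_mem (mem_erase.2 ⟨h3, H.b2 h3.symm⟩), card_erase_of_mem (H.b1 h3.symm),
        H.size _ (H.bB h3.symm)]
      omega
    rw [← h1]
    refine card_le_card_of_injOn (fun t => (t.1.1, t.1.2.1, t.1.2.2.1, t.1.2.2.2.1, t.2)) ?_ ?_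
    · rintro ⟨⟨p, a, b, c, d⟩, d'⟩ ht
      rw [mem_coe, mem_sigma, mem_fls, mem_erase, mem_erase] at ht
      obtain ⟨⟨⟨h1, h2, h3, h4, h5, h6, h7, h8, h9⟩, _⟩, h10, h11, h12⟩ := ht
      exact mem_cfs.2 ⟨h1, h2, h3, h11, h5, Ne.symm h10, h7, h12, h9⟩
    · rintro ⟨⟨p, a, b, c, d⟩, e⟩ ht ⟨⟨p', a', b', c', d'⟩, e'⟩ ht' h
      rw [mem_coe, mem_sigma, mem_fls] at ht ht'
      simp only [Prod.mk.injEq] at h
      obtain ⟨rfl, rfl, rfl, rfl, rfl⟩ := h
      have b1 := ht.1
      have b2 := ht'.1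
      obtain ⟨u, w, l, m, h1, h2, h3, h4, h5, h6, h7, rfl, rfl, rfl, rfl⟩ := coord b1.1
      have g1 := (fail_iff H h1 h2 h3 h4 h5 h6 h7).1 b1
      obtain ⟨u', w', l', m', k1, k2, k3, k4, k5, k6, k7, e1, e2, e3, rfl⟩ := coord b2.1
      have e1' : u = u' := by simpa using e1
      have e3' : w = w' := by simpa using e3
      subst e1' e3'
      have e2' : l • u = l' • u := by simpa using e2
      have e4 : l = l' := smul_left_injective K h1 e2'
      subst e4
      have g2 := (fail_iff H h1 h2 h3 h4 h5 k6 k7).1 b2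
      subst g1
      subst g2
      rfl

end Pool.Agent.Helper19.VS
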