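import Mathlib
import Pool.Agent.Helper19.VS.Basic

set_option autoImplicit false

/-!
# With few failing configurations every point is on at least `q ^ 2` blocks
-/

namespace Pool.Agent.Helper19.VS

open Finset Pool.Agent.V11100.VB

variable {V : Type} [DecidableEq V] [Fintype V] {B : Finset (Finset V)} {q : ℕ}

/-- block, point, two points of their plane, a point outside collinear with the two -/
noncomputable def TT (B : Finset (Finset V)) : Finset (Finset V × V × V × V × V) :=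
  univ.filter fun t => t.1 ∈ B ∧ t.2.1 ∉ t.1 ∧ t.2.2.1 ∈ pl B t.2.1 t.1 ∧
    t.2.2.2.1 ∈ pl B t.2.1 t.1 ∧ t.2.2.1 ≠ t.2.2.2.1 ∧ t.2.2.2.2 ∉ pl B t.2.1 t.1 ∧
    t.2.2.2.2 ∈ bl B t.2.2.1 t.2.2.2.1

theorem mem_TT {M : Finset V} {b m m' x : V} : (M, b, m, m', x) ∈ TT B ↔
    M ∈ B ∧ b ∉ M ∧ m ∈ pl B b M ∧ m' ∈ pl B b M ∧ m ≠ m' ∧ x ∉ pl B b M ∧ x ∈ bl B m m' := by
  unfold TT
  rw [mem_filter]
  simp

section
variable (H : LS B q)
include H

theorem TT_b {M : Finset V} {b m m' x : V} (hM : M ∈ B) (hb : b ∉ M) (hm : m ∈ pl B b M)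
    (hm' : m' ∈ pl B b M) (hne : m ≠ m') (hx : x ∉ pl B b M) (hxl : x ∈ bl B m m') :
    b ∉ bl B m m' ∧ m ≠ b ∧ m' ≠ b ∧ x ≠ b ∧ x ∉ M ∧ x ≠ m ∧ x ≠ m' ∧ bl B m m' ≠ M := by
  have hb' : b ∉ bl B m m' := by
    intro h
    by_cases hmb : m = b
    · have hmb' : m' ≠ b := fun e => hne (hmb.trans e.symm)
      have := H.ray_sub hb hm' hmb'
      rw [← hmb] at this hx
      exact hx (this hxl)
    · have := H.ray_sub hb hm hmb
      rw [bl_of H hne h (H.b1 hne) (Ne.symm hmb)] at this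
      exact hx (this hxl)
  have hxM : x ∉ M := fun h => hx (H.L_sub hb h)
  refine ⟨hb', fun e => hb' (e ▸ H.b1 hne), fun e => hb' (e ▸ H.b2 hne),
    fun e => hx (by rw [e]; exact H.p_mem hM hb), hxM, fun e => hx (e ▸ hm),
    fun e => hx (e ▸ hm'), ?_⟩
  intro e
  rw [e] at hxl
  exact hxM hxl

open scoped Classical in
theorem card_T1 : ((TT B).filter fun t => t.2.2.1 ∉ t.1 ∧
    ∃ h ∈ t.1, h ∈ bl B t.2.2.1 t.2.2.2.1).card ≤ (q - 1) * (fls B).card := by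
  refine card_le_mul _ (fls B)
    (fun c => ((bl B c.1 c.2.2.2.1).erase c.1).erase c.2.2.2.2) (q - 1)
    (fun t => (t.2.2.1, mt t.1 (bl B t.2.1 t.2.2.1) t.2.1, t.2.1,
      mt t.1 (bl B t.2.2.1 t.2.2.2.1) t.2.1, t.2.2.2.2)) (fun t => t.2.2.2.1) ?_ ?_ ?_ ?_
  · rintro ⟨M, b, m, m', x⟩ ht
    rw [mem_filter, mem_TT] at ht
    obtain ⟨⟨hM, hb, hm, hm', hne, hx, hxl⟩, hmM, hh⟩ := ht
    simp only at hmM hh
    obtain ⟨c1, c2, c3, c4, c5, c6, c7, c8⟩ := TT_b H hM hb hm hm' hne hx hxl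
    have ha := mt_spec ((H.mem_pl hb c2).1 hm) b
    have hh2 := mt_spec hh b
    set a := mt M (bl B b m) b
    set h := mt M (bl B m m') b
    have e1 : a ≠ m := fun e => hmM (e ▸ ha.1)
    have e2 : h ≠ m := fun e => hmM (e ▸ hh2.1)
    have e3 : b ∈ bl B m a := by
      rw [bl_of H c2.symm (H.b2 c2.symm) ha.2 e1.symm]
      exact H.b1 c2.symm
    have e4 : h ∉ bl B m a := by
      intro hc
      have e5 : bl B m h = bl B m a := bl_of H e1.symm (H.b1 e1.symm) hc e2.symm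
      have e6 : bl B m h = bl B m m' := bl_of H hne (H.b1 hne) hh2.2 e2.symm
      rw [← e5, e6] at e3
      exact c1 e3
    have e7 : a ≠ h := by
      intro e
      rw [← e] at e4
      exact e4 (H.b2 e1.symm)
    have e8 : bl B a h = M := H.bl_eq e7 hM ha.1 hh2.1
    show (m, a, b, h, x) ∈ fls B
    rw [mem_fls]
    refine ⟨⟨e1, c2.symm, e2, c6, fun e => hb (e ▸ ha.1), fun e => c5 (e ▸ hh2.1), e3, ?_, e4⟩,
      ?_⟩
    · rw [bl_of H hne (H.b1 hne) hh2.2 e2.symm]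
      exact hxl
    · rw [e8]
      intro w hw hw2
      exact hx ((H.mem_pl hb c4).2 ⟨w, hw, hw2⟩)
  · rintro ⟨M, b, m, m', x⟩ ht
    rw [mem_filter, mem_TT] at ht
    obtain ⟨⟨hM, hb, hm, hm', hne, hx, hxl⟩, hmM, hh⟩ := ht
    simp only at hmM hh
    obtain ⟨c1, c2, c3, c4, c5, c6, c7, c8⟩ := TT_b H hM hb hm hm' hne hx hxl
    have hh2 := mt_spec hh b
    set h := mt M (bl B m m') b
    have e2 : h ≠ m := fun e => hmM (e ▸ hh2.1)
    show m' ∈ ((bl B m h).erase m).erase x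
    rw [bl_of H hne (H.b1 hne) hh2.2 e2.symm, mem_erase, mem_erase]
    exact ⟨c7.symm, hne.symm, H.b2 hne⟩
  · rintro ⟨p, a, b, c, d⟩ hc
    rw [mem_fls] at hc
    obtain ⟨⟨h1, h2, h3, h4, h5, h6, h7, h8, h9⟩, _⟩ := hc
    show (((bl B p c).erase p).erase d).card ≤ q - 1
    rw [card_erase_of_mem (mem_erase.2 ⟨h4, h8⟩), card_erase_of_mem (H.b1 h3.symm),
      H.size _ (H.bB h3.symm)]
    omega
  · rintro ⟨M, b, m, m', x⟩ ht ⟨M1, b1, m1, m1', x1⟩ ht1 e e'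
    rw [mem_filter, mem_TT] at ht ht1
    obtain ⟨⟨hM, hb, hm, hm', hne, hx, hxl⟩, hmM, hh⟩ := ht
    obtain ⟨⟨hM1, hb1, hm1, hm1', hne1, hx1, hxl1⟩, hmM1, hh1⟩ := ht1
    simp only at hmM hh hmM1 hh1
    simp only [Prod.mk.injEq] at e e'
    obtain ⟨e1, e2, e3, e4, e5⟩ := e
    obtain ⟨c1, c2, c3, c4, c5, c6, c7, c8⟩ := TT_b H hM hb hm hm' hne hx hxl
    have ha := mt_spec ((H.mem_pl hb c2).1 hm) b
    have hh2 := mt_spec hh b
    obtain ⟨d1, d2, d3, d4, d5, d6, d7, d8⟩ := TT_b H hM1 hb1 hm1 hm1' hne1 hx1 hxl1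
    have ha1 := mt_spec ((H.mem_pl hb1 d2).1 hm1) b1
    have hh21 := mt_spec hh1 b1
    rw [← e2, ← e3] at ha1
    rw [← e4] at hh21
    set a := mt M (bl B b m) b
    set h := mt M (bl B m m') b
    have f1 : a ≠ m := fun e => hmM (e ▸ ha.1)
    have f2 : h ≠ m := fun e => hmM (e ▸ hh2.1)
    have f3 : a ≠ h := by
      intro e
      have g1 : bl B m a = bl B m m' := bl_of H hne (H.b1 hne) (e ▸ hh2.2) f1.symm
      have g2 : bl B m a = bl B b m := bl_of H c2.symm (H.b2 c2.symm) ha.2 f1.symm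
      have g3 : b ∈ bl B b m := H.b1 c2.symm
      rw [← g2, g1] at g3
      exact c1 g3
    have f4 : M = M1 := H.un f3 hM hM1 ha.1 hh2.1 ha1.1 hh21.1
    rw [f4, e1, e3, e', e5]

open scoped Classical in
theorem card_T3 : ((TT B).filter fun t => ¬ ∃ h ∈ t.1, h ∈ bl B t.2.2.1 t.2.2.2.1).card ≤
    (q - 1) * (fls B).card := by
  have key : ∀ {M : Finset V} {b m m' x : V}, M ∈ B → b ∉ M → m ∈ pl B b M → m' ∈ pl B b M →
      m ≠ m' → x ∉ pl B b M → x ∈ bl B m m' → (¬ ∃ h ∈ M, h ∈ bl B m m') →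
      ∀ a a' : V, a ∈ M → a ∈ bl B b m → a' ∈ M → a' ∈ bl B b m' →
      a ≠ a' ∧ Bd B b a m a' m' := by
    intro M b m m' x hM hb hm hm' hne hx hxl hno a a' h1 h2 h3 h4
    obtain ⟨c1, c2, c3, c4, c5, c6, c7, c8⟩ := TT_b H hM hb hm hm' hne hx hxl
    have hab : a ≠ b := fun e => hb (e ▸ h1)
    have hab' : a' ≠ b := fun e => hb (e ▸ h3)
    have e1 : bl B b a = bl B b m := bl_of H c2.symm (H.b1 c2.symm) h2 hab.symm
    have e2 : bl B b a' = bl B b m' := bl_of H c3.symm (H.b1 c3.symm) h4 hab'.symm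
    have e3 : bl B b m ≠ bl B b m' := by
      intro e
      have : m' ∈ bl B b m := e ▸ H.b2 c3.symm
      have e4 := bl_of H c2.symm (H.b2 c2.symm) this hne
      exact c1 (e4 ▸ H.b1 c2.symm)
    have e5 : a ≠ a' := by
      intro e
      apply e3
      rw [← e1, ← e2, e]
    have e6 : bl B a a' = M := H.bl_eq e5 hM h1 h3
    refine ⟨e5, ⟨hab, c2, hab', c3, ?_, ?_, ?_, ?_, ?_⟩, ?_⟩
    · rintro rfl
      exact hno ⟨a, h1, H.b1 hne⟩
    · rintro rfl
      exact hno ⟨a', h3, H.b2 hne⟩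
    · rw [e1]; exact H.b2 c2.symm
    · rw [e2]; exact H.b2 c3.symm
    · intro h5
      apply hb
      rw [← e6, bl_of H hab.symm (H.b2 hab.symm) h5 e5]
      exact H.b1 hab.symm
    · rw [e6]
      intro w hw hw2
      exact hno ⟨w, hw, hw2⟩
  refine card_le_mul _ (fls B)
    (fun c => ((bl B c.2.2.1 c.2.2.2.2).erase c.2.2.1).erase c.2.2.2.2) (q - 1)
    (fun t => (t.2.1, mt t.1 (bl B t.2.1 t.2.2.1) t.2.1, t.2.2.1,
      mt t.1 (bl B t.2.1 t.2.2.2.1) t.2.1, t.2.2.2.1)) (fun t => t.2.2.2.2) ?_ ?_ ?_ ?_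
  · rintro ⟨M, b, m, m', x⟩ ht
    rw [mem_filter, mem_TT] at ht
    obtain ⟨⟨hM, hb, hm, hm', hne, hx, hxl⟩, hno⟩ := ht
    obtain ⟨c1, c2, c3, c4, c5, c6, c7, c8⟩ := TT_b H hM hb hm hm' hne hx hxl
    have ha := mt_spec ((H.mem_pl hb c2).1 hm) b
    have ha' := mt_spec ((H.mem_pl hb c3).1 hm') b
    exact mem_fls.2 (key hM hb hm hm' hne hx hxl hno _ _ ha.1 ha.2 ha'.1 ha'.2).2
  · rintro ⟨M, b, m, m', x⟩ ht
    rw [mem_filter, mem_TT] at ht
    obtain ⟨⟨hM, hb, hm, hm', hne, hx, hxl⟩, hno⟩ := ht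
    obtain ⟨c1, c2, c3, c4, c5, c6, c7, c8⟩ := TT_b H hM hb hm hm' hne hx hxl
    show x ∈ ((bl B m m').erase m).erase m'
    rw [mem_erase, mem_erase]
    exact ⟨c7, c6, hxl⟩
  · rintro ⟨p, a, b, c, d⟩ hc
    rw [mem_fls] at hc
    obtain ⟨⟨h1, h2, h3, h4, h5, h6, h7, h8, h9⟩, _⟩ := hc
    show (((bl B b d).erase b).erase d).card ≤ q - 1
    have hbd : b ≠ d := by
      rintro rfl
      apply h9
      have g1 := bl_of H h1.symm (H.b1 h1.symm) h7 h2.symm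
      have g2 := bl_of H h3.symm (H.b1 h3.symm) h8 h4.symm
      rw [← g1, g2]
      exact H.b2 h3.symm
    rw [card_erase_of_mem (mem_erase.2 ⟨hbd.symm, H.b2 hbd⟩), card_erase_of_mem (H.b1 hbd),
      H.size _ (H.bB hbd)]
    omega
  · rintro ⟨M, b, m, m', x⟩ ht ⟨M1, b1, m1, m1', x1⟩ ht1 e e'
    rw [mem_filter, mem_TT] at ht ht1
    obtain ⟨⟨hM, hb, hm, hm', hne, hx, hxl⟩, hno⟩ := ht
    obtain ⟨⟨hM1, hb1, hm1, hm1', hne1, hx1, hxl1⟩, hno1⟩ := ht1
    simp only [Prod.mk.injEq] at e e'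
    obtain ⟨e1, e2, e3, e4, e5⟩ := e
    obtain ⟨c1, c2, c3, c4, c5, c6, c7, c8⟩ := TT_b H hM hb hm hm' hne hx hxl
    have ha := mt_spec ((H.mem_pl hb c2).1 hm) b
    have ha' := mt_spec ((H.mem_pl hb c3).1 hm') b
    obtain ⟨d1, d2, d3, d4, d5, d6, d7, d8⟩ := TT_b H hM1 hb1 hm1 hm1' hne1 hx1 hxl1
    have ga := mt_spec ((H.mem_pl hb1 d2).1 hm1) b1
    have ga' := mt_spec ((H.mem_pl hb1 d3).1 hm1') b1
    have f3 := (key hM hb hm hm' hne hx hxl hno _ _ ha.1 ha.2 ha'.1 ha'.2).1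
    have f4 : M = M1 := H.un f3 hM hM1 ha.1 ha'.1 (by rw [e2]; exact ga.1)
      (by rw [e4]; exact ga'.1)
    rw [f4, e1, e3, e', e5]

open scoped Classical in
theorem card_TT : (TT B).card ≤ 3 * ((q - 1) * (fls B).card) := by
  have h1 := card_T1 H
  have h3 := card_T3 H
  have h2 : ((TT B).filter fun t => t.2.2.2.1 ∉ t.1 ∧
      ∃ h ∈ t.1, h ∈ bl B t.2.2.1 t.2.2.2.1).card ≤ (q - 1) * (fls B).card := by
    refine le_trans ?_ h1
    refine card_le_card_of_injOn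
      (fun t : Finset V × V × V × V × V => (t.1, t.2.1, t.2.2.2.1, t.2.2.1, t.2.2.2.2)) ?_ ?_
    · rintro ⟨M, b, m, m', x⟩ ht
      rw [mem_coe, mem_filter, mem_TT] at ht
      obtain ⟨⟨hM, hb, hm, hm', hne, hx, hxl⟩, hmM, hh⟩ := ht
      simp only at hmM hh
      rw [mem_coe, mem_filter]
      rw [bl_comm H hne] at hh hxl
      exact ⟨mem_TT.2 ⟨hM, hb, hm', hm, hne.symm, hx, hxl⟩, hmM, hh⟩
    · rintro ⟨M, b, m, m', x⟩ _ ⟨M1, b1, m1, m1', x1⟩ _ e
      simp only [Prod.mk.injEq] at e ⊢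
      exact ⟨e.1, e.2.1, e.2.2.2.1, e.2.2.1, e.2.2.2.2⟩
  have hsub : TT B ⊆ (((TT B).filter fun t => t.2.2.1 ∉ t.1 ∧
      ∃ h ∈ t.1, h ∈ bl B t.2.2.1 t.2.2.2.1) ∪ ((TT B).filter fun t => t.2.2.2.1 ∉ t.1 ∧
      ∃ h ∈ t.1, h ∈ bl B t.2.2.1 t.2.2.2.1)) ∪
      ((TT B).filter fun t => ¬ ∃ h ∈ t.1, h ∈ bl B t.2.2.1 t.2.2.2.1) := by
    rintro ⟨M, b, m, m', x⟩ ht
    rw [mem_union, mem_union, mem_filter, mem_filter, mem_filter]
    by_cases hno : ∃ h ∈ M, h ∈ bl B m m'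
    · left
      by_cases hm : m ∈ M
      · right
        refine ⟨ht, ?_, hno⟩
        intro hm'
        rw [mem_TT] at ht
        obtain ⟨hM, hb, hm1, hm1', hne, hx, hxl⟩ := ht
        obtain ⟨c1, c2, c3, c4, c5, c6, c7, c8⟩ := TT_b H hM hb hm1 hm1' hne hx hxl
        exact c8 (H.bl_eq hne hM hm hm')
      · left
        exact ⟨ht, hm, hno⟩
    · right
      exact ⟨ht, hno⟩
  have h4 := (card_le_card hsub).trans (card_union_le _ _)
  have h5 := card_union_le ((TT B).filter fun t => t.2.2.1 ∉ t.1 ∧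
      ∃ h ∈ t.1, h ∈ bl B t.2.2.1 t.2.2.2.1) ((TT B).filter fun t => t.2.2.2.1 ∉ t.1 ∧
      ∃ h ∈ t.1, h ∈ bl B t.2.2.1 t.2.2.2.1)
  omega

/-- pairs of points of a set collinear with a point outside it -/
theorem card_pairs {r : ℕ} (hr : ∀ p, (thr B p).card = r) (P : Finset V) {x : V} (hx : x ∉ P) :
    P.card ^ 2 ≤ r * ((P.offDiag.filter fun t => x ∈ bl B t.1 t.2).card + P.card) := by
  classical
  have h1 : ∑ l ∈ thr B x, (P ∩ l).card = P.card := by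
    have e : P = (thr B x).biUnion fun l => P ∩ l := by
      ext y
      rw [mem_biUnion]
      constructor
      · intro hy
        have hxy : x ≠ y := fun e => hx (e ▸ hy)
        exact ⟨bl B x y, mem_thr.2 ⟨H.bB hxy, H.b1 hxy⟩, mem_inter.2 ⟨hy, H.b2 hxy⟩⟩
      · rintro ⟨l, _, hy⟩
        exact (mem_inter.1 hy).1
    conv_rhs => rw [e]
    rw [card_biUnion]
    intro l hl l' hl' hne
    rw [Function.onFun, disjoint_left]
    intro y hy hy'
    rw [mem_inter] at hy hy'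
    rw [mem_coe, mem_thr] at hl hl'
    have hxy : x ≠ y := fun e => hx (e ▸ hy.1)
    exact hne (H.un hxy hl.1 hl'.1 hl.2 hy.2 hl'.2 hy'.2)
  have h2 : ∑ l ∈ thr B x, (P ∩ l).offDiag.card ≤
      1 * (P.offDiag.filter fun t => x ∈ bl B t.1 t.2).card := by
    refine sum_card_le (thr B x) (fun l => (P ∩ l).offDiag) _ (fun _ => {()}) 1
      (fun _ t => t) (fun _ _ => ()) ?_ ?_ ?_ ?_
    · rintro l hl ⟨y, z⟩ ht
      rw [mem_offDiag, mem_inter, mem_inter] at ht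
      rw [mem_thr] at hl
      rw [mem_filter, mem_offDiag]
      refine ⟨⟨ht.1.1, ht.2.1.1, ht.2.2⟩, ?_⟩
      show x ∈ bl B y z
      rw [H.bl_eq ht.2.2 hl.1 ht.1.2 ht.2.1.2]
      exact hl.2
    · intro _ _ _ _
      exact mem_singleton_self _
    · intro _ _
      simp
    · rintro l hl ⟨y, z⟩ ht l' hl' ⟨y', z'⟩ ht' e _
      simp only [Prod.mk.injEq] at e
      obtain ⟨rfl, rfl⟩ := e
      rw [mem_offDiag, mem_inter, mem_inter] at ht ht'
      rw [mem_thr] at hl hl'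
      exact ⟨H.un ht.2.2 hl.1 hl'.1 ht.1.2 ht.2.1.2 ht'.1.2 ht'.2.1.2, rfl⟩
  have h3 := sq_sum_le_card_mul_sum_sq (s := thr B x) (f := fun l => (P ∩ l).card)
  rw [h1, hr] at h3
  refine h3.trans (Nat.mul_le_mul_left _ ?_)
  have h4 : ∑ l ∈ thr B x, (P ∩ l).card ^ 2 =
      ∑ l ∈ thr B x, ((P ∩ l).offDiag.card + (P ∩ l).card) := by
    refine sum_congr rfl fun l _ => ?_
    rw [offDiag_card, sq, Nat.sub_add_cancel (Nat.le_mul_self _)]
  rw [h4, sum_add_distrib, h1]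
  omega

/-- pairs of a block and a point outside it -/
noncomputable def PB (B : Finset (Finset V)) : Finset (Finset V × V) :=
  (B ×ˢ univ).filter fun t => t.2 ∉ t.1

theorem card_PB {r : ℕ} (hr : ∀ p, (thr B p).card = r) :
    Fintype.card V * (r * (r * q - q)) ≤ (q + 1) * (PB B).card := by
  classical
  have h1 : ((univ : Finset V).sigma fun y => (thr B y) ×ˢ (univ : Finset V)).card =
      ((univ : Finset V).sigma fun y => (thr B y) ×ˢ (univ : Finset V)).card := rfl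
  have h2 : ((univ : Finset V).sigma fun y =>
      ((thr B y) ×ˢ (univ : Finset V)).filter fun t => t.2 ∉ t.1).card =
      Fintype.card V * (r * (r * q - q)) := by
    rw [card_sigma, ← card_univ, ← smul_eq_mul, ← sum_const]
    refine sum_congr rfl fun y _ => ?_
    have h3 : (((thr B y) ×ˢ (univ : Finset V)).filter fun t => t.2 ∉ t.1).card =
        ∑ l ∈ thr B y, (univ.filter fun b => b ∉ l).card := by
      simp only [card_filter]
      rw [sum_product]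
    rw [h3, sum_congr rfl (fun l hl => by
      rw [show (univ.filter fun b => b ∉ l) = univ \ l by ext b; simp, card_sdiff_of_subset
        (subset_univ _), card_univ, H.size l (mem_thr.1 hl).1, ← card_thr H y, hr,
        Nat.add_sub_add_right]), sum_const, hr, smul_eq_mul]
  rw [← h2]
  refine card_le_mul _ (PB B) (fun t => t.1) (q + 1) (fun t => t.2) (fun t => t.1) ?_ ?_ ?_ ?_
  · rintro ⟨y, l, b⟩ ht
    rw [mem_sigma, mem_filter, mem_product] at ht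
    unfold PB
    rw [mem_filter, mem_product]
    exact ⟨⟨(mem_thr.1 ht.2.1.1).1, mem_univ _⟩, ht.2.2⟩
  · rintro ⟨y, l, b⟩ ht
    rw [mem_sigma, mem_filter, mem_product] at ht
    exact (mem_thr.1 ht.2.1.1).2
  · rintro ⟨l, b⟩ ht
    unfold PB at ht
    rw [mem_filter, mem_product] at ht
    exact (H.size l ht.1.1).le
  · rintro ⟨y, l, b⟩ _ ⟨y', l', b'⟩ _ e1 e2
    simp only [Prod.mk.injEq] at e1 e2
    simp only [Sigma.mk.injEq, Prod.mk.injEq, heq_eq_eq]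
    exact ⟨e2, e1.1, e1.2⟩

theorem TT_inj : ∑ t ∈ (PB B).sigma (fun t => univ \ pl B t.2 t.1),
      ((pl B t.1.2 t.1.1).offDiag.filter fun u => t.2 ∈ bl B u.1 u.2).card ≤ (TT B).card := by
  classical
  rw [← one_mul (TT B).card]
  refine sum_card_le _ _ (TT B) (fun _ => ({()} : Finset Unit)) 1
    (fun t u => (t.1.1, t.1.2, u.1, u.2, t.2)) (fun _ _ => ()) ?_ ?_ ?_ ?_
  · rintro ⟨⟨M, b⟩, x⟩ ht ⟨m, m'⟩ hu
    rw [mem_sigma] at ht
    unfold PB at ht
    rw [mem_filter, mem_product, mem_sdiff] at ht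
    rw [mem_filter, mem_offDiag] at hu
    rw [mem_TT]
    exact ⟨ht.1.1.1, ht.1.2, hu.1.1, hu.1.2.1, hu.1.2.2, ht.2.2, hu.2⟩
  · intro _ _ _ _
    exact mem_singleton_self _
  · intro _ _
    exact (card_singleton ()).le
  · rintro ⟨⟨M, b⟩, x⟩ _ ⟨m, m'⟩ _ ⟨⟨M1, b1⟩, x1⟩ _ ⟨m1, m1'⟩ _ e _
    rw [Prod.mk.injEq, Prod.mk.injEq, Prod.mk.injEq, Prod.mk.injEq] at e
    obtain ⟨e1, e2, e3, e4, e5⟩ := e
    simp only at e1 e2 e3 e4 e5
    rw [e1, e2, e3, e4, e5]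
    exact ⟨rfl, rfl⟩

theorem TT_lower {r : ℕ} (hr : ∀ p, (thr B p).card = r) :
    (PB B).card * ((Fintype.card V - ((q + 1) * q + 1)) * ((q + 1) * q + 1) ^ 2) ≤
      r * ((TT B).card + (PB B).card * ((Fintype.card V - ((q + 1) * q + 1)) *
        ((q + 1) * q + 1))) := by
  classical
  set v := (q + 1) * q + 1 with hv
  set n := Fintype.card V with hn
  have h1 := TT_inj H
  have h2 : ∀ t ∈ (PB B).sigma (fun t => univ \ pl B t.2 t.1), v ^ 2 ≤
      r * (((pl B t.1.2 t.1.1).offDiag.filter fun u => t.2 ∈ bl B u.1 u.2).card + v) := by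
    rintro ⟨⟨M, b⟩, x⟩ ht
    rw [mem_sigma] at ht
    unfold PB at ht
    rw [mem_filter, mem_product, mem_sdiff] at ht
    have h3 := card_pairs H hr (pl B b M) ht.2.2
    have h4 : (pl B b M).card = v := H.card_pl ht.1.1.1 ht.1.2
    rw [h4] at h3
    exact h3
  have h3 := sum_le_sum h2
  rw [sum_const, smul_eq_mul, ← mul_sum, sum_add_distrib, sum_const, smul_eq_mul] at h3
  have h5 : ((PB B).sigma (fun t => univ \ pl B t.2 t.1)).card = (PB B).card * (n - v) := by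
    rw [card_sigma, ← smul_eq_mul, ← sum_const]
    refine sum_congr rfl ?_
    rintro ⟨M, b⟩ ht
    unfold PB at ht
    rw [mem_filter, mem_product] at ht
    rw [card_sdiff_of_subset (subset_univ _), card_univ, ← hn]
    have h4 : (pl B b M).card = v := H.card_pl ht.1.1 ht.2
    rw [h4]
  rw [h5] at h3
  rw [← mul_assoc, ← mul_assoc]
  refine h3.trans (Nat.mul_le_mul_left _ ?_)
  omega

omit H [DecidableEq V] [Fintype V] in
theorem ab_aux {k : ℤ} (hk : 0 ≤ k) :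
    3 * (k + 2) ^ 2 * (k + 1) ^ 3 < 25 * (k + 2) ^ 3 * ((k + 2 + 1) * (k + 2) + 1) := by
  have e : 25 * (k + 2) ^ 3 * ((k + 2 + 1) * (k + 2) + 1) - 3 * (k + 2) ^ 2 * (k + 1) ^ 3 =
      (k + 2) ^ 2 * (22 * k ^ 3 + 166 * k ^ 2 + 416 * k + 347) := by ring
  have h0 : 0 < (k + 2) ^ 2 * (22 * k ^ 3 + 166 * k ^ 2 + 416 * k + 347) := by positivity
  linarith

/-- every point is on at least `q ^ 2` blocks -/
theorem AB {r : ℕ} (hr : ∀ p, (thr B p).card = r) (hn : r * q + 1 = Fintype.card V)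
    (hq : q + 2 ≤ r) (hF : 100 * q * (fls B).card ≤ (cfs B).card) : q ^ 2 ≤ r := by
  by_contra hc
  push Not at hc
  have hq2 := H.hq
  have h1 := TT_lower H hr
  have h2 := card_TT H
  have h3 := card_PB H hr
  have h4 := card_cfs H hr
  rw [← hn] at h1 h3 h4
  generalize (TT B).card = T at *
  generalize (PB B).card = P at *
  generalize (fls B).card = F at *
  generalize (cfs B).card = N at *
  obtain ⟨s, rfl⟩ : ∃ s, r = q + 2 + s := ⟨r - (q + 2), by omega⟩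
  have e1 : (q + 2 + s) * q + 1 - ((q + 1) * q + 1) = q * (s + 1) := by
    have : (q + 2 + s) * q + 1 = q * (s + 1) + ((q + 1) * q + 1) := by ring
    omega
  have e2 : (q + 2 + s) * q - q = (q + 1 + s) * q := by
    have : (q + 2 + s) * q = (q + 1 + s) * q + q := by ring
    omega
  have e3 : q + 2 + s - 1 = q + 1 + s := by omega
  rw [e1] at h1
  rw [e2] at h3
  rw [e3] at h4
  obtain ⟨k, rfl⟩ : ∃ k, q = k + 2 := ⟨q - 2, by omega⟩
  have e4 : k + 2 - 1 = k + 1 := by omega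
  rw [e4] at h2 h4
  zify at h1 h2 h3 h4 hF hc
  set Q : ℤ := (k : ℤ) + 2 with hQ
  set R : ℤ := Q + 2 + s with hR
  have hk0 : (0 : ℤ) ≤ k := by positivity
  have hs0 : (0 : ℤ) ≤ s := by positivity
  have hQ2 : 2 ≤ Q := by omega
  have hRQ : Q + 2 ≤ R := by omega
  have hRc : R ≤ Q ^ 2 - 1 := by omega
  set v : ℤ := (Q + 1) * Q + 1 with hv
  have hvR : 0 < v - R := by nlinarith
  have hv0 : 0 < v := by nlinarith
  set a : ℤ := Q * (s + 1) with ha
  have ha0 : 0 < a := by positivity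
  have g1 : (P : ℤ) * (a * v * (v - R)) ≤ R * T := by linarith
  set n : ℤ := R * Q + 1 with hn'
  have hR0 : 0 < R := by omega
  have hn0 : 0 < n := by positivity
  have g2 : n * (R * ((R - 1) * Q)) * (a * v * (v - R)) ≤ (Q + 1) * P * (a * v * (v - R)) := by
    refine mul_le_mul_of_nonneg_right ?_ (by positivity)
    have : R - 1 = Q + 1 + s := by omega
    rw [this]
    exact h3
  have g3 : (Q + 1) * P * (a * v * (v - R)) ≤ (Q + 1) * (R * (3 * ((k + 1) * F))) := by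
    have : (Q + 1) * P * (a * v * (v - R)) = (Q + 1) * (P * (a * v * (v - R))) := by ring
    rw [this]
    refine mul_le_mul_of_nonneg_left (g1.trans ?_) (by omega)
    exact mul_le_mul_of_nonneg_left h2 hR0.le
  have g4 : (100 * Q * F : ℤ) ≤ (Q * (k + 1)) ^ 2 * (n * (R * (R - 1))) := by
    have : R - 1 = Q + 1 + s := by omega
    rw [this]
    exact hF.trans h4
  have g5 : n * (R * (R - 1)) * (100 * Q * (Q * (a * v * (v - R)))) ≤
      n * (R * (R - 1)) * (3 * (Q + 1) * R * (k + 1) * (Q * (k + 1)) ^ 2) := by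
    calc n * (R * (R - 1)) * (100 * Q * (Q * (a * v * (v - R))))
        = 100 * Q * (n * (R * ((R - 1) * Q)) * (a * v * (v - R))) := by ring
      _ ≤ 100 * Q * ((Q + 1) * (R * (3 * ((k + 1) * F)))) :=
          mul_le_mul_of_nonneg_left (g2.trans g3) (by omega)
      _ = (3 * (Q + 1) * R * (k + 1)) * (100 * Q * F) := by ring
      _ ≤ (3 * (Q + 1) * R * (k + 1)) * ((Q * (k + 1)) ^ 2 * (n * (R * (R - 1)))) :=
          mul_le_mul_of_nonneg_left g4 (by positivity)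
      _ = n * (R * (R - 1)) * (3 * (Q + 1) * R * (k + 1) * (Q * (k + 1)) ^ 2) := by ring
  have hP0 : 0 < n * (R * (R - 1)) := mul_pos hn0 (mul_pos hR0 (by omega))
  have g6 := le_of_mul_le_mul_left g5 hP0
  have g7 : (Q + 1) * (R - 3) ≤ (s + 1) * (v - R) := by
    have e5 : (s : ℤ) = R - Q - 2 := by omega
    rw [e5, hv]
    have := mul_nonneg (show 0 ≤ R - (Q + 2) by omega) (show 0 ≤ Q ^ 2 - 1 - R by omega)
    linarith
  have g8 : R ≤ 4 * (R - 3) := by omega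
  have g9 : (Q + 1) * R ≤ 4 * ((s + 1) * (v - R)) := by
    have := mul_le_mul_of_nonneg_left g8 (show 0 ≤ Q + 1 by omega)
    linarith
  have g10 : 25 * Q ^ 3 * v * ((Q + 1) * R) ≤ 100 * Q * (Q * (a * v * (v - R))) := by
    have : 100 * Q * (Q * (a * v * (v - R))) = 25 * Q ^ 3 * v * (4 * ((s + 1) * (v - R))) := by
      rw [ha]; ring
    rw [this]
    exact mul_le_mul_of_nonneg_left g9 (by positivity)
  have g11 : 3 * (Q + 1) * R * (k + 1) * (Q * (k + 1)) ^ 2 =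
      3 * Q ^ 2 * (k + 1) ^ 3 * ((Q + 1) * R) := by ring
  rw [g11] at g6
  have g12 := g10.trans g6
  have g13 := le_of_mul_le_mul_right g12 (by positivity : (0 : ℤ) < (Q + 1) * R)
  have g14 : 3 * Q ^ 2 * ((k : ℤ) + 1) ^ 3 < 25 * Q ^ 3 * v := by
    rw [hv, hQ]
    exact ab_aux hk0
  omega

end

end Pool.Agent.Helper19.VS
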