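import Mathlib
import Pool.Graph.R_pool_sql_team_seeded_843ab51a.V11100.VB.Sharp

set_option autoImplicit false

/-!
# A finite set of permutations that is nearly closed under composition, with any two members
agreeing in at most one point, forces a sharply two-transitive group
-/

namespace Pool.Agent.Helper19.VS

open Finset

section near

variable {G : Type} [Group G] [DecidableEq G]

/-- number of `s` in `S` with `g s` in `S` -/
def lA (S : Finset G) (g : G) : ℕ := (S.filter fun s => g * s ∈ S).card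

/-- number of `t` in `S` with `t g` in `S` -/
def rA (S : Finset G) (g : G) : ℕ := (S.filter fun t => t * g ∈ S).card

/-- number of `t` in `S` with `t s` in `U` -/
def cc (S U : Finset G) (s : G) : ℕ := (S.filter fun t => t * s ∈ U).card

/-- number of `s` in `S` with `t s` in `U` -/
def dd (S U : Finset G) (t : G) : ℕ := (S.filter fun s => t * s ∈ U).card

theorem cc_le {S U : Finset G} {m : ℕ} (hU : U.card ≤ m) (g s : G) :
    cc S U (g * s) + cc S U s ≤ m + rA S g := by
  classical
  unfold cc rA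
  have e1 : (S.filter fun t => t * (g * s) ∈ U).card =
      (U.filter fun u => u * (g * s)⁻¹ ∈ S).card := by
    refine card_bij (fun t _ => t * (g * s)) ?_ ?_ ?_
    · intro t ht
      rw [mem_filter] at ht ⊢
      refine ⟨ht.2, ?_⟩
      rw [mul_inv_cancel_right]; exact ht.1
    · intro t _ t' _ e
      exact mul_right_cancel e
    · intro u hu
      rw [mem_filter] at hu
      refine ⟨u * (g * s)⁻¹, mem_filter.2 ⟨hu.2, ?_⟩, ?_⟩
      · rw [inv_mul_cancel_right]; exact hu.1
      · rw [inv_mul_cancel_right]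
  have e2 : (S.filter fun t => t * s ∈ U).card =
      (U.filter fun u => u * s⁻¹ ∈ S).card := by
    refine card_bij (fun t _ => t * s) ?_ ?_ ?_
    · intro t ht
      rw [mem_filter] at ht ⊢
      refine ⟨ht.2, ?_⟩
      rw [mul_inv_cancel_right]; exact ht.1
    · intro t _ t' _ e
      exact mul_right_cancel e
    · intro u hu
      rw [mem_filter] at hu
      refine ⟨u * s⁻¹, mem_filter.2 ⟨hu.2, ?_⟩, ?_⟩
      · rw [inv_mul_cancel_right]; exact hu.1
      · rw [inv_mul_cancel_right]
  rw [e1, e2, ← card_union_add_card_inter]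
  refine Nat.add_le_add ((card_le_card (union_subset (filter_subset _ _)
    (filter_subset _ _))).trans hU) ?_
  refine card_le_card_of_injOn (fun u => u * (g * s)⁻¹) ?_ ?_
  · intro u hu
    rw [mem_coe, mem_inter, mem_filter, mem_filter] at hu
    rw [mem_coe, mem_filter]
    refine ⟨hu.1.2, ?_⟩
    have : u * (g * s)⁻¹ * g = u * s⁻¹ := by group
    rw [this]
    exact hu.2.2
  · intro u _ u' _ e
    exact mul_right_cancel e

theorem dd_le {S U : Finset G} {m : ℕ} (hU : U.card ≤ m) (t g : G) :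
    dd S U (t * g) + dd S U t ≤ m + lA S g := by
  classical
  unfold dd lA
  have e1 : (S.filter fun s => (t * g) * s ∈ U).card =
      (U.filter fun u => (t * g)⁻¹ * u ∈ S).card := by
    refine card_bij (fun s _ => (t * g) * s) ?_ ?_ ?_
    · intro s hs
      rw [mem_filter] at hs ⊢
      refine ⟨hs.2, ?_⟩
      rw [inv_mul_cancel_left]; exact hs.1
    · intro s _ s' _ e
      exact mul_left_cancel e
    · intro u hu
      rw [mem_filter] at hu
      refine ⟨(t * g)⁻¹ * u, mem_filter.2 ⟨hu.2, ?_⟩, ?_⟩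
      · rw [mul_inv_cancel_left]; exact hu.1
      · rw [mul_inv_cancel_left]
  have e2 : (S.filter fun s => t * s ∈ U).card =
      (U.filter fun u => t⁻¹ * u ∈ S).card := by
    refine card_bij (fun s _ => t * s) ?_ ?_ ?_
    · intro s hs
      rw [mem_filter] at hs ⊢
      refine ⟨hs.2, ?_⟩
      rw [inv_mul_cancel_left]; exact hs.1
    · intro s _ s' _ e
      exact mul_left_cancel e
    · intro u hu
      rw [mem_filter] at hu
      refine ⟨t⁻¹ * u, mem_filter.2 ⟨hu.2, ?_⟩, ?_⟩
      · rw [mul_inv_cancel_left]; exact hu.1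
      · rw [mul_inv_cancel_left]
  rw [e1, e2, ← card_union_add_card_inter]
  refine Nat.add_le_add ((card_le_card (union_subset (filter_subset _ _)
    (filter_subset _ _))).trans hU) ?_
  refine card_le_card_of_injOn (fun u => (t * g)⁻¹ * u) ?_ ?_
  · intro u hu
    rw [mem_coe, mem_inter, mem_filter, mem_filter] at hu
    rw [mem_coe, mem_filter]
    refine ⟨hu.1.2, ?_⟩
    have : g * ((t * g)⁻¹ * u) = t⁻¹ * u := by group
    rw [this]
    exact hu.2.2
  · intro u _ u' _ e
    exact mul_left_cancel e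

theorem cc_le_m {S U : Finset G} {m : ℕ} (hS : S.card ≤ m) (s : G) : cc S U s ≤ m :=
  (card_le_card (filter_subset _ _)).trans hS

theorem dd_le_m {S U : Finset G} {m : ℕ} (hS : S.card ≤ m) (s : G) : dd S U s ≤ m :=
  (card_le_card (filter_subset _ _)).trans hS

theorem lA_le {S : Finset G} (g : G) : lA S g ≤ S.card := card_le_card (filter_subset _ _)

theorem lA_inv (S : Finset G) (g : G) : lA S g⁻¹ = lA S g := by
  unfold lA
  refine card_bij (fun s _ => g⁻¹ * s) ?_ ?_ ?_
  · intro s hs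
    rw [mem_filter] at hs ⊢
    refine ⟨hs.2, ?_⟩
    rw [mul_inv_cancel_left]; exact hs.1
  · intro s _ s' _ e
    exact mul_left_cancel e
  · intro s hs
    rw [mem_filter] at hs
    refine ⟨g * s, mem_filter.2 ⟨hs.2, ?_⟩, ?_⟩
    · rw [inv_mul_cancel_left]; exact hs.1
    · rw [inv_mul_cancel_left]

theorem lA_one (S : Finset G) : lA S 1 = S.card := by
  unfold lA
  rw [filter_true_of_mem]
  intro s hs
  rwa [one_mul]

theorem lA_mul (S : Finset G) (g h : G) : lA S g + lA S h ≤ S.card + lA S (g * h) := by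
  classical
  unfold lA
  have e : (S.filter fun s => h * s ∈ S).card = (S.filter fun t => h⁻¹ * t ∈ S).card := by
    refine card_bij (fun s _ => h * s) ?_ ?_ ?_
    · intro s hs
      rw [mem_filter] at hs ⊢
      refine ⟨hs.2, ?_⟩
      rw [inv_mul_cancel_left]; exact hs.1
    · intro s _ s' _ e
      exact mul_left_cancel e
    · intro s hs
      rw [mem_filter] at hs
      refine ⟨h⁻¹ * s, mem_filter.2 ⟨hs.2, ?_⟩, ?_⟩
      · rw [mul_inv_cancel_left]; exact hs.1
      · rw [mul_inv_cancel_left]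
  rw [e, ← card_union_add_card_inter]
  refine Nat.add_le_add (card_le_card (union_subset (filter_subset _ _)
    (filter_subset _ _))) ?_
  refine card_le_card_of_injOn (fun u => h⁻¹ * u) ?_ ?_
  · intro u hu
    rw [mem_coe, mem_inter, mem_filter, mem_filter] at hu
    rw [mem_coe, mem_filter]
    refine ⟨hu.2.2, ?_⟩
    have : g * h * (h⁻¹ * u) = g * u := by group
    rw [this]
    exact hu.1.2
  · intro u _ u' _ e
    exact mul_left_cancel e

/-- number of pairs whose product is in the third set -/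
def nP (S2 S1 S3 : Finset G) : ℕ := ((S2 ×ˢ S1).filter fun t => t.1 * t.2 ∈ S3).card

theorem nP_cc (S2 S1 S3 : Finset G) : nP S2 S1 S3 = ∑ s ∈ S1, cc S2 S3 s := by
  unfold nP cc
  simp only [card_filter]
  rw [sum_product_right]

theorem nP_dd (S2 S1 S3 : Finset G) : nP S2 S1 S3 = ∑ t ∈ S2, dd S1 S3 t := by
  unfold nP dd
  simp only [card_filter]
  rw [sum_product]

/-- (I) -/
theorem ineq1 {S1 S2 S3 : Finset G} {m : ℕ} (h2 : S2.card ≤ m)
    (h3 : S3.card ≤ m) (g : G) :
    2 * lA S1 g * m + 2 * nP S2 S1 S3 ≤ lA S1 g * (m + rA S2 g) + 2 * (m * S1.card) := by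
  classical
  set A := S1.filter fun s => g * s ∈ S1 with hA
  -- sum of `c` over A
  have key : ∀ T : Finset G, T ⊆ S1 → T.card * m + nP S2 S1 S3 ≤
      ∑ s ∈ T, cc S2 S3 s + m * S1.card := by
    intro T hT
    rw [nP_cc, ← sum_sdiff hT]
    have h5 : ∑ s ∈ S1 \ T, cc S2 S3 s ≤ (S1 \ T).card * m := by
      rw [← smul_eq_mul]
      exact sum_le_card_nsmul _ _ _ fun s _ => cc_le_m h2 s
    have h6 : S1.card = (S1 \ T).card + T.card := (card_sdiff_add_card_eq_card hT).symm
    rw [h6, mul_add, mul_comm m, mul_comm m]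
    omega
  have k1 := key A (filter_subset _ _)
  have k2 := key (A.image fun s => g * s) (by
    intro t ht
    rw [mem_image] at ht
    obtain ⟨s, hs, rfl⟩ := ht
    rw [hA, mem_filter] at hs
    exact hs.2)
  have hinj : Set.InjOn (fun s => g * s) (A : Set G) := fun s _ s' _ e => mul_left_cancel e
  rw [card_image_of_injOn hinj, sum_image hinj] at k2
  have k3 : ∑ s ∈ A, (cc S2 S3 (g * s) + cc S2 S3 s) ≤ A.card * (m + rA S2 g) := by
    rw [← smul_eq_mul]
    exact sum_le_card_nsmul _ _ _ fun s _ => cc_le h3 g s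
  rw [sum_add_distrib] at k3
  have hAc : lA S1 g = A.card := rfl
  rw [hAc, mul_assoc, two_mul, two_mul, two_mul]
  omega

/-- (II) -/
theorem ineq2 {S1 S2 S3 : Finset G} {m : ℕ} (h1 : S1.card ≤ m)
    (h3 : S3.card ≤ m) (g : G) :
    2 * rA S2 g * m + 2 * nP S2 S1 S3 ≤ rA S2 g * (m + lA S1 g) + 2 * (m * S2.card) := by
  classical
  set A := S2.filter fun s => s * g ∈ S2 with hA
  have key : ∀ T : Finset G, T ⊆ S2 → T.card * m + nP S2 S1 S3 ≤
      ∑ s ∈ T, dd S1 S3 s + m * S2.card := by
    intro T hT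
    rw [nP_dd, ← sum_sdiff hT]
    have h5 : ∑ s ∈ S2 \ T, dd S1 S3 s ≤ (S2 \ T).card * m := by
      rw [← smul_eq_mul]
      exact sum_le_card_nsmul _ _ _ fun s _ => dd_le_m h1 s
    have h6 : S2.card = (S2 \ T).card + T.card := (card_sdiff_add_card_eq_card hT).symm
    rw [h6, mul_add, mul_comm m, mul_comm m]
    omega
  have k1 := key A (filter_subset _ _)
  have k2 := key (A.image fun s => s * g) (by
    intro t ht
    rw [mem_image] at ht
    obtain ⟨s, hs, rfl⟩ := ht
    rw [hA, mem_filter] at hs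
    exact hs.2)
  have hinj : Set.InjOn (fun s => s * g) (A : Set G) := fun s _ s' _ e => mul_right_cancel e
  rw [card_image_of_injOn hinj, sum_image hinj] at k2
  have k3 : ∑ s ∈ A, (dd S1 S3 (s * g) + dd S1 S3 s) ≤ A.card * (m + lA S1 g) := by
    rw [← smul_eq_mul]
    exact sum_le_card_nsmul _ _ _ fun s _ => dd_le h3 s g
  rw [sum_add_distrib] at k3
  have hAc : rA S2 g = A.card := rfl
  rw [hAc, mul_assoc, two_mul, two_mul, two_mul]
  omega

theorem near_group {S1 S2 S3 : Finset G} {m : ℕ} (hm : 0 < m) (h1 : S1.card ≤ m)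
    (h2 : S2.card ≤ m) (h3 : S3.card ≤ m) (hN : 11 * m ^ 2 ≤ 12 * nP S2 S1 S3) :
    ∃ H : Subgroup G, (∀ g ∈ H, ∃ s ∈ S1, g * s ∈ S1) ∧
      ∃ T : Finset G, (∀ g ∈ T, g ∈ H) ∧ m < 2 * T.card := by
  classical
  have hm' : (0 : ℤ) < m := by exact_mod_cast hm
  have h1' : (S1.card : ℤ) ≤ m := by exact_mod_cast h1
  have h2' : (S2.card : ℤ) ≤ m := by exact_mod_cast h2
  have hN' : 11 * (m : ℤ) ^ 2 ≤ 12 * nP S2 S1 S3 := by exact_mod_cast hN
  have i1 : ∀ g, 6 * (lA S1 g : ℤ) * (m - rA S2 g) ≤ m ^ 2 := by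
    intro g
    have h := ineq1 (S1 := S1) h2 h3 g
    have h' : 2 * (lA S1 g : ℤ) * m + 2 * nP S2 S1 S3 ≤ lA S1 g * (m + rA S2 g) +
      2 * (m * S1.card) := by exact_mod_cast h
    nlinarith
  have i2 : ∀ g, 6 * (rA S2 g : ℤ) * (m - lA S1 g) ≤ m ^ 2 := by
    intro g
    have h := ineq2 (S2 := S2) h1 h3 g
    have h' : 2 * (rA S2 g : ℤ) * m + 2 * nP S2 S1 S3 ≤ rA S2 g * (m + lA S1 g) +
      2 * (m * S2.card) := by exact_mod_cast h
    nlinarith
  have gap : ∀ g, m ≤ 2 * lA S1 g → 3 * m ≤ 4 * lA S1 g := by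
    intro g hg
    have hg' : (m : ℤ) ≤ 2 * lA S1 g := by exact_mod_cast hg
    have a1 := i1 g
    have a2 := i2 g
    have b1 : (2 : ℤ) * m ≤ 3 * rA S2 g := by
      by_contra hc
      push Not at hc
      have : (m : ℤ) ^ 2 < 6 * (lA S1 g : ℤ) * (m - rA S2 g) := by nlinarith
      omega
    have b2 : (3 : ℤ) * m ≤ 4 * lA S1 g := by
      by_contra hc
      push Not at hc
      have : (m : ℤ) ^ 2 < 6 * (rA S2 g : ℤ) * (m - lA S1 g) := by nlinarith
      omega
    exact_mod_cast b2
  have n1 : 11 * m ≤ 12 * S1.card := by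
    have : nP S2 S1 S3 ≤ S1.card * m := by
      rw [nP_cc, ← smul_eq_mul]
      exact sum_le_card_nsmul _ _ _ fun s _ => cc_le_m h2 s
    nlinarith
  let H : Subgroup G :=
    { carrier := {g | m ≤ 2 * lA S1 g}
      mul_mem' := by
        intro a b ha hb
        have e1 := gap a ha
        have e2 := gap b hb
        have e3 := lA_mul S1 a b
        show m ≤ 2 * lA S1 (a * b)
        omega
      one_mem' := by
        show m ≤ 2 * lA S1 1
        rw [lA_one]
        omega
      inv_mem' := by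
        intro a ha
        show m ≤ 2 * lA S1 a⁻¹
        rw [lA_inv]
        exact ha }
  refine ⟨H, ?_, ?_⟩
  · intro g hg
    have hg' : m ≤ 2 * lA S1 g := hg
    have : 0 < lA S1 g := by omega
    unfold lA at this
    rw [card_pos] at this
    obtain ⟨s, hs⟩ := this
    rw [mem_filter] at hs
    exact ⟨s, hs.1, hs.2⟩
  · obtain ⟨s0, hs0, hc0⟩ : ∃ s0 ∈ S1, 11 * m ≤ 12 * cc S2 S3 s0 := by
      by_contra hc
      push Not at hc
      have hne : S1.Nonempty := by
        rw [← card_pos]
        omega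
      have h4 : ∑ s ∈ S1, 12 * cc S2 S3 s < ∑ s ∈ S1, 11 * m :=
        sum_lt_sum_of_nonempty hne fun s hs => hc s hs
      rw [← mul_sum, ← nP_cc, sum_const, smul_eq_mul] at h4
      nlinarith
    set T0 := S1.filter fun s => 5 * m ≤ 12 * cc S2 S3 s with hT0
    have hT : 6 * m ≤ 7 * T0.card := by
      have h4 := nP_cc S2 S1 S3
      rw [← sum_filter_add_sum_filter_not S1 (fun s => 5 * m ≤ 12 * cc S2 S3 s)] at h4
      have h5 : ∑ s ∈ S1 with 5 * m ≤ 12 * cc S2 S3 s, cc S2 S3 s ≤ T0.card * m := by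
        rw [← smul_eq_mul]
        exact sum_le_card_nsmul _ _ _ fun s _ => cc_le_m h2 s
      have h6 : ∑ s ∈ S1 with ¬ 5 * m ≤ 12 * cc S2 S3 s, 12 * cc S2 S3 s ≤
          (S1.filter fun s => ¬ 5 * m ≤ 12 * cc S2 S3 s).card * (5 * m) := by
        rw [← smul_eq_mul]
        refine sum_le_card_nsmul _ _ _ fun s hs => ?_
        rw [mem_filter] at hs
        omega
      rw [← mul_sum] at h6
      have h7 : T0.card + (S1.filter fun s => ¬ 5 * m ≤ 12 * cc S2 S3 s).card = S1.card :=
        card_filter_add_card_filter_not _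
      by_contra hc
      push Not at hc
      have h8 : (S1.filter fun s => ¬ 5 * m ≤ 12 * cc S2 S3 s).card = S1.card - T0.card := by
        omega
      have h9 : T0.card ≤ S1.card := by omega
      set u := T0.card
      set w := (S1.filter fun s => ¬ 5 * m ≤ 12 * cc S2 S3 s).card
      nlinarith
    refine ⟨T0.image fun s => s0 * s⁻¹, ?_, ?_⟩
    · intro g hg
      rw [mem_image] at hg
      obtain ⟨s, hs, rfl⟩ := hg
      rw [hT0, mem_filter] at hs
      have h4 := cc_le (S := S2) h3 (s0 * s⁻¹) s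
      rw [inv_mul_cancel_right] at h4
      have h5 : m ≤ 3 * rA S2 (s0 * s⁻¹) := by omega
      have h5' : (m : ℤ) ≤ 3 * rA S2 (s0 * s⁻¹) := by exact_mod_cast h5
      have h6 := i2 (s0 * s⁻¹)
      show m ≤ 2 * lA S1 (s0 * s⁻¹)
      by_contra hc
      push Not at hc
      have hc' : 2 * (lA S1 (s0 * s⁻¹) : ℤ) < m := by exact_mod_cast hc
      have : (m : ℤ) ^ 2 < 6 * (rA S2 (s0 * s⁻¹) : ℤ) * (m - lA S1 (s0 * s⁻¹)) := by nlinarith
      omega
    · rw [card_image_of_injective _ (fun s s' e => inv_injective (mul_left_cancel e))]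
      omega

end near

theorem perm_ai {X : Type} (f : Equiv.Perm X) (x : X) : f (f⁻¹ x) = x := f.apply_symm_apply x

theorem perm_ia {X : Type} (f : Equiv.Perm X) (x : X) : f⁻¹ (f x) = x := f.symm_apply_apply x

/-- distinct members agree in at most one point -/
def Spread {X Y : Type} (S : Finset (X ≃ Y)) : Prop :=
  ∀ g ∈ S, ∀ h ∈ S, ∀ x y : X, x ≠ y → g x = h x → g y = h y → g = h

theorem spread_card {X : Type} [Fintype X] [DecidableEq X] {S : Finset (Equiv.Perm X)}
    (hS : Spread S) (h2 : 2 ≤ Fintype.card X) :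
    S.card ≤ Fintype.card X * (Fintype.card X - 1) := by
  classical
  obtain ⟨a0, a1, h01⟩ := Fintype.exists_pair_of_one_lt_card (show 1 < Fintype.card X by omega)
  have : (univ : Finset X).offDiag.card = Fintype.card X * (Fintype.card X - 1) := by
    rw [offDiag_card, card_univ, Nat.mul_sub, mul_one]
  rw [← this]
  refine card_le_card_of_injOn (fun g => (g a0, g a1)) ?_ ?_
  · intro g _
    rw [mem_coe, mem_offDiag]
    exact ⟨mem_univ _, mem_univ _, fun e => h01 (g.injective e)⟩
  · intro g hg k hk e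
    have e' : (g a0, g a1) = (k a0, k a1) := e
    rw [Prod.mk.injEq] at e'
    exact hS g hg k hk a0 a1 h01 e'.1 e'.2

theorem lemmaG_perm {X : Type} [Fintype X] [DecidableEq X] {S1 S2 S3 : Finset (Equiv.Perm X)}
    (h2 : 2 ≤ Fintype.card X) (s1 : Spread S1) (s2 : Spread S2) (s3 : Spread S3)
    (hN : 11 * (Fintype.card X * (Fintype.card X - 1)) ^ 2 ≤ 12 * nP S2 S1 S3) :
    IsPrimePow (Fintype.card X) := by
  classical
  set n := Fintype.card X with hn
  set m := n * (n - 1) with hm
  have hm0 : 0 < m := Nat.mul_pos (by omega) (by omega)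
  obtain ⟨H, hH, T, hT, hTc⟩ := near_group hm0 (spread_card s1 h2) (spread_card s2 h2)
    (spread_card s3 h2) hN
  have fix1 : ∀ g ∈ H, ∀ x y : X, x ≠ y → g x = x → g y = y → g = 1 := by
    intro g hg x y hxy hx hy
    obtain ⟨s, hs, hgs⟩ := hH g hg
    have h4 := s1 (g * s) hgs s hs (s⁻¹ x) (s⁻¹ y) (fun e => hxy (s⁻¹.injective e)) (by
      rw [Equiv.Perm.mul_apply, perm_ai, hx]) (by
      rw [Equiv.Perm.mul_apply, perm_ai, hy])
    exact mul_eq_right.1 h4
  refine Pool.Agent.V11100.VB.sharp_two H h2 ?_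
  have hoff : (univ : Finset X).offDiag.card = m := by
    rw [offDiag_card, card_univ, hm, Nat.mul_sub, mul_one]
  have orb : ∀ a a' : X, a ≠ a' → m < 2 * (T.image fun g => (g a, g a')).card ∧
      (T.image fun g => (g a, g a')) ⊆ (univ : Finset X).offDiag := by
    intro a a' haa
    constructor
    · rw [card_image_of_injOn]
      · exact hTc
      · intro g hg k hk e
        have e' : (g a, g a') = (k a, k a') := e
        rw [Prod.mk.injEq] at e'
        have h5 := fix1 (k⁻¹ * g) (H.mul_mem (H.inv_mem (hT k hk)) (hT g hg)) a a' haa (by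
          rw [Equiv.Perm.mul_apply, e'.1, perm_ia]) (by
          rw [Equiv.Perm.mul_apply, e'.2, perm_ia])
        exact (inv_mul_eq_one.1 h5).symm
    · intro p hp
      rw [mem_image] at hp
      obtain ⟨g, _, rfl⟩ := hp
      rw [mem_offDiag]
      exact ⟨mem_univ _, mem_univ _, fun e => haa (g.injective e)⟩
  intro a a' b b' ha hb
  obtain ⟨p, hp1, hp2⟩ : ∃ p, p ∈ (T.image fun g => (g a, g a')) ∧
      p ∈ (T.image fun g => (g b, g b')) := by
    by_contra hc
    push Not at hc
    have hd : Disjoint (T.image fun g => (g a, g a')) (T.image fun g => (g b, g b')) := by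
      rw [disjoint_left]
      exact hc
    have h6 := card_le_card (union_subset (orb a a' ha).2 (orb b b' hb).2)
    rw [card_union_of_disjoint hd, hoff] at h6
    have := (orb a a' ha).1
    have := (orb b b' hb).1
    omega
  rw [mem_image] at hp1 hp2
  obtain ⟨g, hg, hg2⟩ := hp1
  obtain ⟨k, hk, hk2⟩ := hp2
  have e : (g a, g a') = (k b, k b') := hg2.trans hk2.symm
  rw [Prod.mk.injEq] at e
  refine ⟨k⁻¹ * g, ⟨H.mul_mem (H.inv_mem (hT k hk)) (hT g hg), ?_, ?_⟩, ?_⟩
  · rw [Equiv.Perm.mul_apply, e.1, perm_ia]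
  · rw [Equiv.Perm.mul_apply, e.2, perm_ia]
  · rintro f ⟨hf, hf1, hf2⟩
    have h7 := fix1 ((k⁻¹ * g)⁻¹ * f)
      (H.mul_mem (H.inv_mem (H.mul_mem (H.inv_mem (hT k hk)) (hT g hg))) hf) a a' ha (by
        rw [Equiv.Perm.mul_apply, hf1, Equiv.Perm.inv_eq_iff_eq, Equiv.Perm.mul_apply, e.1,
          perm_ia]) (by
        rw [Equiv.Perm.mul_apply, hf2, Equiv.Perm.inv_eq_iff_eq, Equiv.Perm.mul_apply, e.2,
          perm_ia])
    exact (inv_mul_eq_one.1 h7).symm

/-- the lemma for bijections between three different sets -/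
theorem lemmaG {X Y Z : Type} [Fintype X] [DecidableEq X] [DecidableEq Y]
    [DecidableEq Z] {S12 : Finset (X ≃ Y)} {S23 : Finset (Y ≃ Z)} {S13 : Finset (X ≃ Z)}
    (h2 : 2 ≤ Fintype.card X) (s12 : Spread S12) (s23 : Spread S23) (s13 : Spread S13)
    (e : X ≃ Y) (f : X ≃ Z) (M : Finset ((Y ≃ Z) × (X ≃ Y)))
    (hM : ∀ t ∈ M, t.1 ∈ S23 ∧ t.2 ∈ S12 ∧ t.2.trans t.1 ∈ S13)
    (hN : 11 * (Fintype.card X * (Fintype.card X - 1)) ^ 2 ≤ 12 * M.card) :
    IsPrimePow (Fintype.card X) := by
  classical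
  have i12 : Function.Injective (fun g : X ≃ Y => (g.trans e.symm : Equiv.Perm X)) := by
    intro g h hgh
    ext x
    have := Equiv.congr_fun hgh x
    simpa using this
  have i23 : Function.Injective (fun g : Y ≃ Z => ((e.trans g).trans f.symm : Equiv.Perm X)) := by
    intro g h hgh
    ext x
    have := Equiv.congr_fun hgh (e.symm x)
    simpa using this
  have i13 : Function.Injective (fun g : X ≃ Z => (g.trans f.symm : Equiv.Perm X)) := by
    intro g h hgh
    ext x
    have := Equiv.congr_fun hgh x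
    simpa using this
  refine lemmaG_perm (S1 := S12.image fun g => (g.trans e.symm : Equiv.Perm X))
    (S2 := S23.image fun g => ((e.trans g).trans f.symm : Equiv.Perm X))
    (S3 := S13.image fun g => (g.trans f.symm : Equiv.Perm X)) h2 ?_ ?_ ?_ ?_
  · intro g hg h hh x y hxy h4 h5
    rw [mem_image] at hg hh
    obtain ⟨g, hg, rfl⟩ := hg
    obtain ⟨h, hh, rfl⟩ := hh
    rw [s12 g hg h hh x y hxy (by simpa using h4) (by simpa using h5)]
  · intro g hg h hh x y hxy h4 h5
    rw [mem_image] at hg hh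
    obtain ⟨g, hg, rfl⟩ := hg
    obtain ⟨h, hh, rfl⟩ := hh
    rw [s23 g hg h hh (e x) (e y) (fun c => hxy (e.injective c)) (by simpa using h4)
      (by simpa using h5)]
  · intro g hg h hh x y hxy h4 h5
    rw [mem_image] at hg hh
    obtain ⟨g, hg, rfl⟩ := hg
    obtain ⟨h, hh, rfl⟩ := hh
    rw [s13 g hg h hh x y hxy (by simpa using h4) (by simpa using h5)]
  · refine hN.trans (Nat.mul_le_mul_left _ ?_)
    unfold nP
    refine card_le_card_of_injOn (fun t => (((e.trans t.1).trans f.symm : Equiv.Perm X),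
      (t.2.trans e.symm : Equiv.Perm X))) ?_ ?_
    · intro t ht
      have ht' := hM t ht
      rw [mem_coe, mem_filter, mem_product]
      refine ⟨⟨mem_image_of_mem _ ht'.1, mem_image_of_mem _ ht'.2.1⟩, ?_⟩
      rw [mem_image]
      refine ⟨_, ht'.2.2, ?_⟩
      ext x
      simp
    · intro t _ t' _ h4
      rw [Prod.mk.injEq] at h4
      exact Prod.ext (i23 h4.1) (i12 h4.2)

end Pool.Agent.Helper19.VS
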