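import Mathlib
import Pool.Agent.Helper19.VS.Basic

set_option autoImplicit false

/-!
# Three blocks through a point: the sets that are counted
-/

namespace Pool.Agent.Helper19.VS

open Finset Pool.Agent.V11100.VB

variable {V : Type} [DecidableEq V] {B : Finset (Finset V)} {q : ℕ}

/-- three different blocks through a point -/
structure Qu (B : Finset (Finset V)) (p : V) (L1 L2 L3 : Finset V) : Prop where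
  b1 : L1 ∈ B
  b2 : L2 ∈ B
  b3 : L3 ∈ B
  p1 : p ∈ L1
  p2 : p ∈ L2
  p3 : p ∈ L3
  n12 : L1 ≠ L2
  n13 : L1 ≠ L3
  n23 : L2 ≠ L3

/-- `z` projects the block `L` onto the block `L'` -/
def Gd (B : Finset (Finset V)) (p : V) (L L' : Finset V) (z : V) : Prop :=
  z ∉ L ∧ z ∉ L' ∧ ∀ x ∈ L, x ≠ p → ∃ y ∈ L', y ∈ bl B z x

/-- `y` is the image of `x` under `z` and `w` is the image of `y` under `z'` -/
structure Ch (B : Finset (Finset V)) (p : V) (L1 L2 L3 : Finset V) (z z' x y w : V) : Prop where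
  x1 : x ∈ L1
  xp : x ≠ p
  y2 : y ∈ L2
  yp : y ≠ p
  w3 : w ∈ L3
  wp : w ≠ p
  hz : z ∈ bl B x y
  hz' : z' ∈ bl B y w

/-- no block meets the three blocks in three points -/
def NoTr (B : Finset (Finset V)) (p : V) (L1 L2 L3 : Finset V) : Prop :=
  ∀ x ∈ L1, x ≠ p → ∀ y ∈ L2, y ≠ p → ∀ w ∈ L3, w ∉ bl B x y

section sets

variable [Fintype V] (B) (p : V) (L1 L2 L3 : Finset V)

open scoped Classical in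
noncomputable def Qd : Finset (V × Finset V × Finset V × Finset V) :=
  univ.filter fun t => Qu B t.1 t.2.1 t.2.2.1 t.2.2.2

open scoped Classical in
noncomputable def KS : Finset (V × V) :=
  univ.filter fun t => t.1 ∈ L1 ∧ t.1 ≠ p ∧ t.2 ∈ L2 ∧ t.2 ≠ p ∧ ∃ w ∈ L3, w ∈ bl B t.1 t.2

open scoped Classical in
noncomputable def D1 : Finset (V × V × V) :=
  univ.filter fun t => t.1 ∈ L1 ∧ t.1 ≠ p ∧ t.2.1 ∈ L2 ∧ t.2.1 ≠ p ∧ t.2.2 ∈ L1 ∧ t.2.2 ≠ p ∧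
    (∃ w ∈ L3, w ∈ bl B t.1 t.2.1) ∧ ¬ ∃ w ∈ L3, w ∈ bl B t.2.2 t.2.1

open scoped Classical in
noncomputable def D2 : Finset (V × V × V) :=
  univ.filter fun t => t.1 ∈ L1 ∧ t.1 ≠ p ∧ t.2.1 ∈ L2 ∧ t.2.1 ≠ p ∧ t.2.2 ∈ L2 ∧ t.2.2 ≠ p ∧
    (∃ w ∈ L3, w ∈ bl B t.1 t.2.1) ∧ ¬ ∃ w ∈ L3, w ∈ bl B t.1 t.2.2

open scoped Classical in
/-- `x`, `x0` on the first block, `y` on the second, `z` on `xy`, but `x0 z` misses the second -/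
noncomputable def DF : Finset (V × V × V × V) :=
  univ.filter fun t => t.1 ∈ L1 ∧ t.1 ≠ p ∧ t.2.1 ∈ L1 ∧ t.2.1 ≠ p ∧ t.1 ≠ t.2.1 ∧
    t.2.2.1 ∈ L2 ∧ t.2.2.1 ≠ p ∧ t.2.2.2 ∈ bl B t.1 t.2.2.1 ∧ t.2.2.2 ≠ t.1 ∧
    t.2.2.2 ≠ t.2.2.1 ∧ ∀ w ∈ L2, w ∉ bl B t.2.1 t.2.2.2

open scoped Classical in
noncomputable def GS : Finset V := univ.filter fun z => Gd B p L1 L2 z

open scoped Classical in
/-- (z, z', x, y, w) -/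
noncomputable def ES : Finset (V × V × V × V × V) :=
  univ.filter fun t => Gd B p L1 L2 t.1 ∧ Gd B p L2 L3 t.2.1 ∧
    Ch B p L1 L2 L3 t.1 t.2.1 t.2.2.1 t.2.2.2.1 t.2.2.2.2 ∧
    ∀ u, u ∈ bl B t.2.2.1 t.2.2.2.2 → u ∉ bl B t.1 t.2.1

open scoped Classical in
/-- (z, z', x, y, w, u) -/
noncomputable def AS : Finset (V × V × V × V × V × V) :=
  univ.filter fun t => Gd B p L1 L2 t.1 ∧ Gd B p L2 L3 t.2.1 ∧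
    Ch B p L1 L2 L3 t.1 t.2.1 t.2.2.1 t.2.2.2.1 t.2.2.2.2.1 ∧
    t.2.2.2.2.2 ∈ bl B t.2.2.1 t.2.2.2.2.1 ∧ t.2.2.2.2.2 ∈ bl B t.1 t.2.1 ∧
    ¬ Gd B p L1 L3 t.2.2.2.2.2

end sets

/-- the common part of the last two sets: two chains whose centres differ, the first is good -/
structure Two (B : Finset (Finset V)) (p : V) (L1 L2 L3 : Finset V)
    (z z' x1 y1 w1 u1 x2 y2 w2 u2 : V) : Prop where
  g : Gd B p L1 L2 z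
  g' : Gd B p L2 L3 z'
  c1 : Ch B p L1 L2 L3 z z' x1 y1 w1
  c2 : Ch B p L1 L2 L3 z z' x2 y2 w2
  a1 : u1 ∈ bl B x1 w1
  a2 : u1 ∈ bl B z z'
  b1 : u2 ∈ bl B x2 w2
  b2 : u2 ∈ bl B z z'
  gu : Gd B p L1 L3 u1
  ne : u1 ≠ u2

section sets

variable [Fintype V] (B) (p : V) (L1 L2 L3 : Finset V)

open scoped Classical in
/-- (z, z', x1, y1, w1, u1, x2, y2, w2, u2) -/
noncomputable def BS : Finset (V × V × V × V × V × V × V × V × V × V) :=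
  univ.filter fun t => Two B p L1 L2 L3 t.1 t.2.1 t.2.2.1 t.2.2.2.1 t.2.2.2.2.1 t.2.2.2.2.2.1
    t.2.2.2.2.2.2.1 t.2.2.2.2.2.2.2.1 t.2.2.2.2.2.2.2.2.1 t.2.2.2.2.2.2.2.2.2 ∧
    ∀ s ∈ bl B t.2.1 t.2.2.2.2.2.2.2.1, s ∉ bl B t.2.2.2.2.2.1 t.2.2.2.2.2.2.1

open scoped Classical in
/-- (z, z', x1, y1, w1, u1, x2, y2, w2, u2, s, v) -/
noncomputable def CS : Finset ((V × V × V × V × V × V × V × V × V × V) × V × V) :=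
  univ.filter fun t => Two B p L1 L2 L3 t.1.1 t.1.2.1 t.1.2.2.1 t.1.2.2.2.1 t.1.2.2.2.2.1
    t.1.2.2.2.2.2.1 t.1.2.2.2.2.2.2.1 t.1.2.2.2.2.2.2.2.1 t.1.2.2.2.2.2.2.2.2.1
    t.1.2.2.2.2.2.2.2.2.2 ∧ t.2.1 ∈ bl B t.1.2.1 t.1.2.2.2.2.2.2.2.1 ∧
    t.2.1 ∈ bl B t.1.2.2.2.2.2.1 t.1.2.2.2.2.2.2.1 ∧ t.2.2 ∈ L3 ∧ t.2.2 ≠ p ∧
    t.2.2 ∈ bl B t.1.2.2.2.2.2.1 t.1.2.2.2.2.2.2.1

end sets

section mem

variable [Fintype V] {p : V} {L1 L2 L3 : Finset V}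

theorem mem_Qd : (p, L1, L2, L3) ∈ Qd B ↔ Qu B p L1 L2 L3 := by
  classical
  unfold Qd
  rw [mem_filter]
  simp

theorem mem_KS {x y : V} : (x, y) ∈ KS B p L1 L2 L3 ↔ x ∈ L1 ∧ x ≠ p ∧ y ∈ L2 ∧ y ≠ p ∧
    ∃ w ∈ L3, w ∈ bl B x y := by
  classical
  unfold KS
  rw [mem_filter]
  simp

theorem mem_D1 {x y x' : V} : (x, y, x') ∈ D1 B p L1 L2 L3 ↔ x ∈ L1 ∧ x ≠ p ∧ y ∈ L2 ∧ y ≠ p ∧
    x' ∈ L1 ∧ x' ≠ p ∧ (∃ w ∈ L3, w ∈ bl B x y) ∧ ¬ ∃ w ∈ L3, w ∈ bl B x' y := by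
  classical
  unfold D1
  rw [mem_filter]
  simp

theorem mem_D2 {x y y' : V} : (x, y, y') ∈ D2 B p L1 L2 L3 ↔ x ∈ L1 ∧ x ≠ p ∧ y ∈ L2 ∧ y ≠ p ∧
    y' ∈ L2 ∧ y' ≠ p ∧ (∃ w ∈ L3, w ∈ bl B x y) ∧ ¬ ∃ w ∈ L3, w ∈ bl B x y' := by
  classical
  unfold D2
  rw [mem_filter]
  simp

theorem mem_DF {x x0 y z : V} : (x, x0, y, z) ∈ DF B p L1 L2 ↔ x ∈ L1 ∧ x ≠ p ∧ x0 ∈ L1 ∧
    x0 ≠ p ∧ x ≠ x0 ∧ y ∈ L2 ∧ y ≠ p ∧ z ∈ bl B x y ∧ z ≠ x ∧ z ≠ y ∧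
    ∀ w ∈ L2, w ∉ bl B x0 z := by
  classical
  unfold DF
  rw [mem_filter]
  simp

theorem mem_GS {z : V} : z ∈ GS B p L1 L2 ↔ Gd B p L1 L2 z := by
  classical
  unfold GS
  rw [mem_filter]
  simp

theorem mem_ES {z z' x y w : V} : (z, z', x, y, w) ∈ ES B p L1 L2 L3 ↔ Gd B p L1 L2 z ∧
    Gd B p L2 L3 z' ∧ Ch B p L1 L2 L3 z z' x y w ∧ ∀ u, u ∈ bl B x w → u ∉ bl B z z' := by
  classical
  unfold ES
  rw [mem_filter]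
  simp

theorem mem_AS {z z' x y w u : V} : (z, z', x, y, w, u) ∈ AS B p L1 L2 L3 ↔ Gd B p L1 L2 z ∧
    Gd B p L2 L3 z' ∧ Ch B p L1 L2 L3 z z' x y w ∧ u ∈ bl B x w ∧ u ∈ bl B z z' ∧
    ¬ Gd B p L1 L3 u := by
  classical
  unfold AS
  rw [mem_filter]
  simp

theorem mem_BS {z z' x1 y1 w1 u1 x2 y2 w2 u2 : V} :
    (z, z', x1, y1, w1, u1, x2, y2, w2, u2) ∈ BS B p L1 L2 L3 ↔
    Two B p L1 L2 L3 z z' x1 y1 w1 u1 x2 y2 w2 u2 ∧ ∀ s ∈ bl B z' y2, s ∉ bl B u1 x2 := by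
  classical
  unfold BS
  rw [mem_filter]
  simp

theorem mem_CS {z z' x1 y1 w1 u1 x2 y2 w2 u2 s v : V} :
    ((z, z', x1, y1, w1, u1, x2, y2, w2, u2), s, v) ∈ CS B p L1 L2 L3 ↔
    Two B p L1 L2 L3 z z' x1 y1 w1 u1 x2 y2 w2 u2 ∧ s ∈ bl B z' y2 ∧ s ∈ bl B u1 x2 ∧
    v ∈ L3 ∧ v ≠ p ∧ v ∈ bl B u1 x2 := by
  classical
  unfold CS
  rw [mem_filter]
  simp

end mem

end Pool.Agent.Helper19.VS
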