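import Mathlib
import Pool.Agent.Helper19.VS.Quad

set_option autoImplicit false

/-!
# Elementary geometry of chains
-/

namespace Pool.Agent.Helper19.VS

open Finset Pool.Agent.V11100.VB

variable {V : Type} [DecidableEq V] {B : Finset (Finset V)} {q : ℕ}
  {p : V} {L1 L2 L3 : Finset V}

theorem Qu.off (H : LS B q) {L L' : Finset V} {x : V} (hL : L ∈ B) (hL' : L' ∈ B)
    (hn : L ≠ L') (hp : p ∈ L) (hp' : p ∈ L') (hx : x ∈ L) (hxp : x ≠ p) : x ∉ L' :=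
  fun h => hxp (H.pt hL hL' hn hx h hp hp')

/-- what a chain looks like -/
structure ChF (B : Finset (Finset V)) (z z' x y w : V) : Prop where
  xy : x ≠ y
  yw : y ≠ w
  xw : x ≠ w
  zx : z ≠ x
  zy : z ≠ y
  zy' : z' ≠ y
  zw' : z' ≠ w
  zz : z ≠ z'
  w_xy : w ∉ bl B x y
  x_yw : x ∉ bl B y w
  y_xw : y ∉ bl B x w
  y_zz : y ∉ bl B z z'
  x_zz : x ∉ bl B z z'
  w_zz : w ∉ bl B z z'
  z_xw : z ∉ bl B x w
  z'_xw : z' ∉ bl B x w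

theorem Ch.fac (H : LS B q) (Q : Qu B p L1 L2 L3) (hN : NoTr B p L1 L2 L3) {z z' x y w : V}
    (hz1 : z ∉ L1) (hz2 : z ∉ L2) (hz2' : z' ∉ L2) (hz3' : z' ∉ L3)
    (h : Ch B p L1 L2 L3 z z' x y w) : ChF B z z' x y w := by
  have x2 : x ∉ L2 := Qu.off H Q.b1 Q.b2 Q.n12 Q.p1 Q.p2 h.x1 h.xp
  have x3 : x ∉ L3 := Qu.off H Q.b1 Q.b3 Q.n13 Q.p1 Q.p3 h.x1 h.xp
  have y3 : y ∉ L3 := Qu.off H Q.b2 Q.b3 Q.n23 Q.p2 Q.p3 h.y2 h.yp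
  have xy : x ≠ y := fun e => x2 (e ▸ h.y2)
  have xw : x ≠ w := fun e => x3 (e ▸ h.w3)
  have yw : y ≠ w := fun e => y3 (e ▸ h.w3)
  have zx : z ≠ x := fun e => hz1 (e ▸ h.x1)
  have zy : z ≠ y := fun e => hz2 (e ▸ h.y2)
  have zy' : z' ≠ y := fun e => hz2' (e ▸ h.y2)
  have zw' : z' ≠ w := fun e => hz3' (e ▸ h.w3)
  have w_xy : w ∉ bl B x y := hN x h.x1 h.xp y h.y2 h.yp w h.w3
  have c6 : bl B y w ≠ bl B x y := fun e => w_xy (e ▸ H.b2 yw)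
  have x_yw : x ∉ bl B y w := fun hc =>
    c6 (bl_of H yw hc (H.b1 yw) xy).symm
  have y_xw : y ∉ bl B x w := fun hc => w_xy (by
    rw [bl_of H xw (H.b1 xw) hc xy]; exact H.b2 xw)
  have zz : z ≠ z' := by
    intro e
    have h1 := bl_of H xy h.hz (H.b2 xy) zy
    have h2 : z ∈ bl B y w := e ▸ h.hz'
    have h3 := bl_of H yw h2 (H.b1 yw) zy
    exact c6 (h3.symm.trans h1)
  have y_zz : y ∉ bl B z z' := by
    intro hc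
    have h1 := bl_of H xy h.hz (H.b2 xy) zy
    have h2 := bl_of H zz (H.b1 zz) hc zy
    have h3 := bl_of H yw h.hz' (H.b1 yw) zy'
    have h4 := bl_of H zz (H.b2 zz) hc zy'
    exact c6 ((h3.symm.trans h4).trans (h2.symm.trans h1))
  have x_zz : x ∉ bl B z z' := by
    intro hc
    have h1 := bl_of H xy h.hz (H.b1 xy) zx
    have h2 := bl_of H zz (H.b1 zz) hc zx
    apply y_zz
    rw [← h2, h1]
    exact H.b2 xy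
  have w_zz : w ∉ bl B z z' := by
    intro hc
    have h1 := bl_of H yw h.hz' (H.b2 yw) zw'
    have h2 := bl_of H zz (H.b2 zz) hc zw'
    apply y_zz
    rw [← h2, h1]
    exact H.b1 yw
  have z_xw : z ∉ bl B x w := by
    intro hc
    have h1 := bl_of H xy h.hz (H.b1 xy) zx
    have h2 := bl_of H xw hc (H.b1 xw) zx
    apply y_xw
    rw [← h2, h1]
    exact H.b2 xy
  have z'_xw : z' ∉ bl B x w := by
    intro hc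
    have h1 := bl_of H yw h.hz' (H.b2 yw) zw'
    have h2 := bl_of H xw hc (H.b2 xw) zw'
    apply y_xw
    rw [← h2, h1]
    exact H.b1 yw
  exact ⟨xy, yw, xw, zx, zy, zy', zw', zz, w_xy, x_yw, y_xw, y_zz, x_zz, w_zz, z_xw, z'_xw⟩

/-- and the third centre -/
structure CeF (B : Finset (Finset V)) (L1 L3 : Finset V) (z z' x y w u : V) : Prop where
  ux : u ≠ x
  uw : u ≠ w
  uz : u ≠ z
  uz' : u ≠ z'
  uy : u ≠ y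
  u1 : u ∉ L1
  u3 : u ∉ L3
  e_uz : bl B z u = bl B z z'
  e_ux : bl B x u = bl B x w

theorem ChF.cen (H : LS B q) (Q : Qu B p L1 L2 L3) {z z' x y w u : V}
    (h : Ch B p L1 L2 L3 z z' x y w) (f : ChF B z z' x y w) (hu : u ∈ bl B x w)
    (hu' : u ∈ bl B z z') : CeF B L1 L3 z z' x y w u := by
  have x3 : x ∉ L3 := Qu.off H Q.b1 Q.b3 Q.n13 Q.p1 Q.p3 h.x1 h.xp
  have w1 : w ∉ L1 := Qu.off H Q.b3 Q.b1 Q.n13.symm Q.p3 Q.p1 h.w3 h.wp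
  have ux : u ≠ x := fun e => f.x_zz (e ▸ hu')
  have uw : u ≠ w := fun e => f.w_zz (e ▸ hu')
  have uz : u ≠ z := fun e => f.z_xw (e ▸ hu)
  have uz' : u ≠ z' := fun e => f.z'_xw (e ▸ hu)
  have uy : u ≠ y := fun e => f.y_xw (e ▸ hu)
  refine ⟨ux, uw, uz, uz', uy, ?_, ?_, bl_of H f.zz (H.b1 f.zz) hu' uz.symm,
    bl_of H f.xw (H.b1 f.xw) hu ux.symm⟩
  · intro hc
    have h1 := bl_of H f.xw (H.b1 f.xw) hu ux.symm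
    have h2 := H.bl_eq ux.symm Q.b1 h.x1 hc
    apply w1
    rw [← h2, h1]
    exact H.b2 f.xw
  · intro hc
    have h1 := bl_of H f.xw (H.b2 f.xw) hu uw.symm
    have h2 := H.bl_eq uw.symm Q.b3 h.w3 hc
    apply x3
    rw [← h2, h1]
    exact H.b1 f.xw

/-- a chain with no centre is a failing configuration -/
theorem ES_bad (H : LS B q) (Q : Qu B p L1 L2 L3) (hN : NoTr B p L1 L2 L3) {z z' x y w : V}
    (hz : Gd B p L1 L2 z) (hz' : Gd B p L2 L3 z')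
    (h : Ch B p L1 L2 L3 z z' x y w) (hu : ∀ u, u ∈ bl B x w → u ∉ bl B z z') :
    Bd B y x z w z' := by
  have f := h.fac H Q hN hz.1 hz.2.1 hz'.1 hz'.2.1
  refine ⟨⟨f.xy, f.zy, f.yw.symm, f.zy', f.zx.symm, f.zw'.symm, ?_, h.hz', ?_⟩, hu⟩
  · rw [bl_comm H f.xy.symm]
    exact h.hz
  · rw [bl_comm H f.xy.symm]
    exact f.w_xy

/-- first kind of failure for two chains -/
theorem BS_bad (H : LS B q) (Q : Qu B p L1 L2 L3) (hN : NoTr B p L1 L2 L3)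
    {z z' x1 y1 w1 u1 x2 y2 w2 u2 : V} (T : Two B p L1 L2 L3 z z' x1 y1 w1 u1 x2 y2 w2 u2)
    (hs : ∀ s ∈ bl B z' y2, s ∉ bl B u1 x2) : Bd B z z' u1 y2 x2 := by
  have f1 := T.c1.fac H Q hN T.g.1 T.g.2.1 T.g'.1 T.g'.2.1
  have f2 := T.c2.fac H Q hN T.g.1 T.g.2.1 T.g'.1 T.g'.2.1
  have k1 := f1.cen H Q T.c1 T.a1 T.a2
  refine ⟨⟨f1.zz.symm, k1.uz, f2.zy.symm, f2.zx.symm, k1.uz'.symm, f2.xy.symm, T.a2, ?_,
    f2.y_zz⟩, hs⟩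
  rw [bl_of H f2.xy T.c2.hz (H.b2 f2.xy) f2.zy]
  exact H.b1 f2.xy

/-- second kind of failure for two chains -/
theorem CS_bad (H : LS B q) (Q : Qu B p L1 L2 L3) (hN : NoTr B p L1 L2 L3)
    {z z' x1 y1 w1 u1 x2 y2 w2 u2 s v : V} (T : Two B p L1 L2 L3 z z' x1 y1 w1 u1 x2 y2 w2 u2)
    (hs : s ∈ bl B z' y2) (hs' : s ∈ bl B u1 x2) (hv : v ∈ L3) (hvp : v ≠ p)
    (hv' : v ∈ bl B u1 x2) : Bd B s w2 y2 v x2 ∧ w2 ≠ v := by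
  have f1 := T.c1.fac H Q hN T.g.1 T.g.2.1 T.g'.1 T.g'.2.1
  have f2 := T.c2.fac H Q hN T.g.1 T.g.2.1 T.g'.1 T.g'.2.1
  have k1 := f1.cen H Q T.c1 T.a1 T.a2
  have k2 := f2.cen H Q T.c2 T.b1 T.b2
  have x23 : x2 ∉ L3 := Qu.off H Q.b1 Q.b3 Q.n13 Q.p1 Q.p3 T.c2.x1 T.c2.xp
  have y23 : y2 ∉ L3 := Qu.off H Q.b2 Q.b3 Q.n23 Q.p2 Q.p3 T.c2.y2 T.c2.yp
  have u1x2 : u1 ≠ x2 := fun e => k1.u1 (e ▸ T.c2.x1)
  have e1 : bl B z' y2 = bl B y2 w2 := bl_of H f2.yw T.c2.hz' (H.b1 f2.yw) f2.zy'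
  rw [e1] at hs
  have vx2 : v ≠ x2 := fun e => x23 (e ▸ hv)
  have e2 : bl B u1 x2 = bl B x2 v := (bl_of H u1x2 (H.b2 u1x2) hv' vx2.symm).symm
  have wv : w2 ≠ v := by
    intro e
    have h1 : bl B x2 w2 = bl B u1 x2 := by rw [e2, e]
    have h2 : u1 ∈ bl B x2 w2 := by rw [h1]; exact H.b1 u1x2
    apply T.ne
    refine H.pt (H.bB f2.xw) (H.bB f2.zz) ?_ h2 T.a2 T.b1 T.b2
    intro e3
    exact f2.x_zz (e3 ▸ H.b1 f2.xw)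
  rw [e2] at hs'
  have hw3 : bl B w2 v = L3 := H.bl_eq wv Q.b3 T.c2.w3 hv
  have s_w2 : s ≠ w2 := by
    intro e
    rw [e] at hs'
    have h3 : bl B w2 v = bl B x2 v := bl_of H vx2.symm hs' (H.b2 vx2.symm) wv
    apply x23
    rw [← hw3, h3]
    exact H.b1 vx2.symm
  have y2v : y2 ≠ v := fun e => y23 (e ▸ hv)
  have hN2 : v ∉ bl B x2 y2 := hN x2 T.c2.x1 T.c2.xp y2 T.c2.y2 T.c2.yp v hv
  have s_y2 : s ≠ y2 := by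
    intro e
    rw [e] at hs'
    apply hN2
    rw [bl_of H vx2.symm (H.b1 vx2.symm) hs' f2.xy]
    exact H.b2 vx2.symm
  have s_v : s ≠ v := by
    intro e
    rw [e] at hs
    have h3 : bl B w2 v = bl B y2 w2 := bl_of H f2.yw (H.b2 f2.yw) hs wv
    apply y23
    rw [← hw3, h3]
    exact H.b1 f2.yw
  have s_x2 : s ≠ x2 := fun e => f2.x_yw (e ▸ hs)
  have e4 : bl B s w2 = bl B y2 w2 := bl_of H f2.yw hs (H.b2 f2.yw) s_w2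
  have e5 : bl B s v = bl B x2 v := bl_of H vx2.symm hs' (H.b2 vx2.symm) s_v
  refine ⟨⟨⟨s_w2.symm, s_y2.symm, s_v.symm, s_x2.symm, f2.yw.symm, vx2, ?_, ?_, ?_⟩, ?_⟩, wv⟩
  · rw [e4]; exact H.b1 f2.yw
  · rw [e5]; exact H.b1 vx2.symm
  · rw [e4]
    intro h4
    have h3 : bl B w2 v = bl B y2 w2 := bl_of H f2.yw (H.b2 f2.yw) h4 wv
    apply y23
    rw [← hw3, h3]
    exact H.b1 f2.yw
  · rw [hw3, bl_comm H f2.xy.symm]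
    intro t ht ht'
    exact hN x2 T.c2.x1 T.c2.xp y2 T.c2.y2 T.c2.yp t ht ht'

/-- a member of `DF` is a failing configuration -/
theorem DF_bad (H : LS B q) {L L' : Finset V} (hL : L ∈ B) (hL' : L' ∈ B) (hn : L ≠ L')
    (hp : p ∈ L) (hp' : p ∈ L') {x x0 y z : V} (h : x ∈ L ∧ x ≠ p ∧ x0 ∈ L ∧
    x0 ≠ p ∧ x ≠ x0 ∧ y ∈ L' ∧ y ≠ p ∧ z ∈ bl B x y ∧ z ≠ x ∧ z ≠ y ∧
    ∀ w ∈ L', w ∉ bl B x0 z) : Bd B x p x0 y z ∧ bl B x p = L ∧ bl B p y = L' := by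
  obtain ⟨h1, h2, h3, h4, h5, h6, h7, h8, h9, h10, h11⟩ := h
  have x2 : x ∉ L' := Qu.off H hL hL' hn hp hp' h1 h2
  have y1 : y ∉ L := Qu.off H hL' hL hn.symm hp' hp h6 h7
  have e1 : bl B x p = L := H.bl_eq h2 hL h1 hp
  have e2 : bl B p y = L' := H.bl_eq h7.symm hL' hp' h6
  refine ⟨⟨⟨h2.symm, h5.symm, fun e => x2 (e ▸ h6), h9, h4.symm, h10.symm, ?_, h8, ?_⟩, ?_⟩,
    e1, e2⟩
  · rw [e1]; exact h3
  · rw [e1]; exact y1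
  · rw [e2]; exact h11

theorem D1_bad (H : LS B q) (Q : Qu B p L1 L2 L3) {x y x' w : V} (h : x ∈ L1 ∧ x ≠ p ∧ y ∈ L2 ∧
    y ≠ p ∧ x' ∈ L1 ∧ x' ≠ p ∧ (∃ w ∈ L3, w ∈ bl B x y) ∧ ¬ ∃ w ∈ L3, w ∈ bl B x' y)
    (hw : w ∈ L3) (hw' : w ∈ bl B x y) :
    Bd B x p x' w y ∧ bl B x p = L1 ∧ bl B p y = L2 ∧ bl B p w = L3 := by
  obtain ⟨h1, h2, h3, h4, h5, h6, _, h8⟩ := h
  have x2 : x ∉ L2 := Qu.off H Q.b1 Q.b2 Q.n12 Q.p1 Q.p2 h1 h2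
  have x3 : x ∉ L3 := Qu.off H Q.b1 Q.b3 Q.n13 Q.p1 Q.p3 h1 h2
  have y3 : y ∉ L3 := Qu.off H Q.b2 Q.b3 Q.n23 Q.p2 Q.p3 h3 h4
  have y1 : y ∉ L1 := Qu.off H Q.b2 Q.b1 Q.n12.symm Q.p2 Q.p1 h3 h4
  have xy : x ≠ y := fun e => x2 (e ▸ h3)
  have wx : w ≠ x := fun e => x3 (e ▸ hw)
  have wy : w ≠ y := fun e => y3 (e ▸ hw)
  have e1 : bl B x p = L1 := H.bl_eq h2 Q.b1 h1 Q.p1
  have e2 : bl B p y = L2 := H.bl_eq h4.symm Q.b2 Q.p2 h3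
  have e4 : bl B x w = bl B x y := bl_of H xy (H.b1 xy) hw' wx.symm
  have w1 : w ∉ L1 := by
    intro hc
    have : bl B x w = L1 := H.bl_eq wx.symm Q.b1 h1 hc
    apply y1
    rw [← this, e4]
    exact H.b2 xy
  have wp : w ≠ p := fun e => w1 (by rw [e]; exact Q.p1)
  have e3 : bl B p w = L3 := H.bl_eq wp.symm Q.b3 Q.p3 hw
  have xx : x ≠ x' := by
    rintro rfl
    exact h8 ⟨w, hw, hw'⟩
  refine ⟨⟨⟨h2.symm, xx.symm, wx, xy.symm, h6.symm, wy, ?_, ?_, ?_⟩, ?_⟩, e1, e2, e3⟩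
  · rw [e1]; exact h5
  · rw [e4]; exact H.b2 xy
  · rw [e1]; exact w1
  · rw [e3]
    intro t ht ht'
    exact h8 ⟨t, ht, ht'⟩

theorem D2_bad (H : LS B q) (Q : Qu B p L1 L2 L3) {x y y' w : V} (h : x ∈ L1 ∧ x ≠ p ∧ y ∈ L2 ∧
    y ≠ p ∧ y' ∈ L2 ∧ y' ≠ p ∧ (∃ w ∈ L3, w ∈ bl B x y) ∧ ¬ ∃ w ∈ L3, w ∈ bl B x y')
    (hw : w ∈ L3) (hw' : w ∈ bl B x y) :
    Bd B y p y' w x ∧ bl B p x = L1 ∧ bl B y p = L2 ∧ bl B p w = L3 := by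
  obtain ⟨h1, h2, h3, h4, h5, h6, _, h8⟩ := h
  have x2 : x ∉ L2 := Qu.off H Q.b1 Q.b2 Q.n12 Q.p1 Q.p2 h1 h2
  have xy : x ≠ y := fun e => x2 (e ▸ h3)
  have xy' : x ≠ y' := fun e => x2 (e ▸ h5)
  have Q' : Qu B p L2 L1 L3 := ⟨Q.b2, Q.b1, Q.b3, Q.p2, Q.p1, Q.p3, Q.n12.symm, Q.n23, Q.n13⟩
  have := D1_bad H Q' (x := y) (y := x) (x' := y') (w := w)
    ⟨h3, h4, h1, h2, h5, h6, ⟨w, hw, by rw [bl_comm H xy.symm]; exact hw'⟩,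
      by rw [bl_comm H xy'.symm]; exact h8⟩ hw (by rw [bl_comm H xy.symm]; exact hw')
  exact ⟨this.1, this.2.2.1, this.2.1, this.2.2.2⟩

end Pool.Agent.Helper19.VS
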