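import Mathlib
import Pool.Agent.Helper19.VS.Geo

set_option autoImplicit false

/-!
# Sums over all triples of blocks through a point
-/

namespace Pool.Agent.Helper19.VS

open Finset Pool.Agent.V11100.VB

variable {V : Type} [DecidableEq V] {B : Finset (Finset V)} {q : ℕ}

theorem card_bl_le (H : LS B q) (x y : V) : (bl B x y).card ≤ q + 1 := by
  classical
  unfold bl
  split_ifs with h
  · exact (H.size _ h.choose_spec.1).le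
  · rw [card_empty]; omega

variable [Fintype V]

section
variable (H : LS B q)
include H

theorem card_Qd {r : ℕ} (hr : ∀ p, (thr B p).card = r) :
    Fintype.card V * (r * (r - 1) * (r - 2)) ≤ (Qd B).card := by
  classical
  have h1 : (univ.sigma fun p : V => (thr B p).offDiag.sigma fun t =>
      ((thr B p).erase t.1).erase t.2).card = Fintype.card V * (r * (r - 1) * (r - 2)) := by
    rw [card_sigma, ← card_univ, ← smul_eq_mul, ← sum_const]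
    refine sum_congr rfl fun p _ => ?_
    rw [card_sigma, sum_congr rfl (g := fun _ => r - 2) ?_, sum_const, card_od, hr, smul_eq_mul]
    rintro ⟨l, l'⟩ ht
    rw [mem_offDiag] at ht
    rw [card_erase_of_mem (mem_erase.2 ⟨ht.2.2.symm, ht.2.1⟩), card_erase_of_mem ht.1, hr]
    omega
  rw [← h1]
  refine card_le_card_of_injOn (fun t => (t.1, t.2.1.1, t.2.1.2, t.2.2)) ?_ ?_
  · rintro ⟨p, ⟨l, l'⟩, l3⟩ ht
    rw [mem_coe, mem_sigma, mem_sigma, mem_offDiag] at ht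
    obtain ⟨_, ⟨h2, h3, h4⟩, h5⟩ := ht
    rw [mem_erase, mem_erase] at h5
    rw [mem_coe, mem_Qd]
    obtain ⟨h5, h6, h7⟩ := h5
    rw [mem_thr] at h2 h3 h7
    exact ⟨h2.1, h3.1, h7.1, h2.2, h3.2, h7.2, h4, h6.symm, h5.symm⟩
  · rintro ⟨p, ⟨l, l'⟩, l3⟩ _ ⟨p1, ⟨l1, l1'⟩, l31⟩ _ e
    simp only [Prod.mk.injEq] at e
    obtain ⟨rfl, rfl, rfl, rfl⟩ := e
    rfl

theorem sum_KS {r : ℕ} (hr : ∀ p, (thr B p).card = r) :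
    ∑ t ∈ Qd B, (KS B t.1 t.2.1 t.2.2.1 t.2.2.2).card ≤
      q ^ 2 * (q - 1) * (Fintype.card V * (r * (r - 1))) := by
  classical
  have hu : (univ.sigma fun p : V => (thr B p).offDiag).card =
      Fintype.card V * (r * (r - 1)) := by
    rw [card_sigma, sum_congr rfl (fun p _ => by rw [card_od, hr p]), sum_const, card_univ,
      smul_eq_mul]
  rw [← hu]
  refine sum_card_le (Qd B) _ (univ.sigma fun p : V => (thr B p).offDiag)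
    (fun c => ((c.2.1.erase c.1) ×ˢ (c.2.2.erase c.1)).sigma fun t =>
      ((bl B t.1 t.2).erase t.1).erase t.2) _
    (fun t _ => ⟨t.1, t.2.1, t.2.2.1⟩)
    (fun t u => ⟨u, mt t.2.2.2 (bl B u.1 u.2) t.1⟩) ?_ ?_ ?_ ?_
  · rintro ⟨p, L1, L2, L3⟩ hQ _ _
    rw [mem_Qd] at hQ
    rw [mem_sigma]
    exact ⟨mem_univ _, mem_offDiag.2 ⟨mem_thr.2 ⟨hQ.b1, hQ.p1⟩, mem_thr.2 ⟨hQ.b2, hQ.p2⟩,
      hQ.n12⟩⟩
  · rintro ⟨p, L1, L2, L3⟩ hQ ⟨x, y⟩ ht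
    rw [mem_Qd] at hQ
    have ht' := mem_KS.1 ht
    obtain ⟨h1, h2, h3, h4, h5⟩ := ht'
    have hw := mt_spec h5 p
    rw [mem_sigma, mem_product, mem_erase, mem_erase, mem_erase, mem_erase]
    refine ⟨⟨⟨h2, h1⟩, h4, h3⟩, ?_, ?_, hw.2⟩
    · intro e
      have e' : mt L3 (bl B x y) p = y := e
      exact Qu.off H hQ.b2 hQ.b3 hQ.n23 hQ.p2 hQ.p3 h3 h4 (e' ▸ hw.1)
    · intro e
      have e' : mt L3 (bl B x y) p = x := e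
      exact Qu.off H hQ.b1 hQ.b3 hQ.n13 hQ.p1 hQ.p3 h1 h2 (e' ▸ hw.1)
  · rintro ⟨p, l, l'⟩ h
    rw [mem_sigma] at h
    obtain ⟨_, h⟩ := h
    have h' := mem_offDiag.1 h
    simp only [mem_thr] at h'
    obtain ⟨⟨h1, h2⟩, ⟨h3, h4⟩, h5⟩ := h'
    have e1 : (l.erase p).card = q := by rw [card_erase_of_mem h2, H.size l h1]; rfl
    have e2 : (l'.erase p).card = q := by rw [card_erase_of_mem h4, H.size l' h3]; rfl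
    rw [card_sigma, sum_congr rfl (g := fun _ => q - 1) ?_, sum_const, card_product]
    · simp only
      rw [e1, e2, smul_eq_mul, sq]
    · rintro ⟨x, y⟩ ht
      rw [mem_product, mem_erase, mem_erase] at ht
      have hxy : x ≠ y := by
        intro e
        exact Qu.off H h1 h3 h5 h2 h4 ht.1.2 ht.1.1 (e ▸ ht.2.2)
      simp only
      rw [card_erase_of_mem (mem_erase.2 ⟨hxy.symm, H.b2 hxy⟩), card_erase_of_mem (H.b1 hxy),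
        H.size _ (H.bB hxy)]
      omega
  · rintro ⟨p, L1, L2, L3⟩ hQ ⟨x, y⟩ ht ⟨p', L1', L2', L3'⟩ hQ' ⟨x', y'⟩ ht' e e'
    rw [mem_Qd] at hQ hQ'
    have ht1 := mem_KS.1 ht
    obtain ⟨h1, h2, h3, h4, h5⟩ := ht1
    have ht2 := mem_KS.1 ht'
    obtain ⟨h1', h2', h3', h4', h5'⟩ := ht2
    have hw := mt_spec h5 p
    have hw' := mt_spec h5' p'
    simp only [Sigma.mk.injEq, Prod.mk.injEq, heq_eq_eq] at e e'
    obtain ⟨rfl, rfl, rfl⟩ := e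
    obtain ⟨⟨rfl, rfl⟩, e3⟩ := e'
    have e4 : L3 = L3' := by
      have hwp : mt L3 (bl B x y) p ≠ p := by
        intro e
        have hxy : x ≠ y := by
          intro e
          exact Qu.off H hQ.b1 hQ.b2 hQ.n12 hQ.p1 hQ.p2 h1 h2 (e ▸ h3)
        have h6 : p ∈ bl B x y := e ▸ hw.2
        have h7 := bl_of H hxy (H.b1 hxy) h6 h2
        have h8 := H.bl_eq h2 hQ.b1 h1 hQ.p1
        apply Qu.off H hQ.b2 hQ.b1 hQ.n12.symm hQ.p2 hQ.p1 h3 h4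
        rw [← h8, h7]
        exact H.b2 hxy
      exact H.un hwp hQ.b3 hQ'.b3 hw.1 hQ.p3 (e3 ▸ hw'.1) hQ'.p3
    subst e4
    exact ⟨rfl, rfl⟩

theorem sum_D1 : ∑ t ∈ Qd B, (D1 B t.1 t.2.1 t.2.2.1 t.2.2.2).card ≤ 1 * (fls B).card := by
  classical
  refine sum_card_le (Qd B) _ (fls B) (fun _ => ({()} : Finset Unit)) 1
    (fun t u => (u.1, t.1, u.2.2, mt t.2.2.2 (bl B u.1 u.2.1) t.1, u.2.1)) (fun _ _ => ())
    ?_ ?_ ?_ ?_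
  · rintro ⟨p, L1, L2, L3⟩ hQ ⟨x, y, x'⟩ ht
    rw [mem_Qd] at hQ
    have ht' := mem_D1.1 ht
    have hw := mt_spec ht'.2.2.2.2.2.2.1 p
    exact mem_fls.2 (D1_bad H hQ ht' hw.1 hw.2).1
  · intro _ _ _ _
    exact mem_singleton_self _
  · intro _ _
    exact (card_singleton ()).le
  · rintro ⟨p, L1, L2, L3⟩ hQ ⟨x, y, x'⟩ ht ⟨p1, L11, L21, L31⟩ hQ1 ⟨x1, y1, x1'⟩ ht1 e _
    rw [mem_Qd] at hQ hQ1
    have ht' := mem_D1.1 ht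
    have hw := mt_spec ht'.2.2.2.2.2.2.1 p
    have b := D1_bad H hQ ht' hw.1 hw.2
    have ht1' := mem_D1.1 ht1
    have hw1 := mt_spec ht1'.2.2.2.2.2.2.1 p1
    have b1 := D1_bad H hQ1 ht1' hw1.1 hw1.2
    simp only [Prod.mk.injEq] at e
    obtain ⟨rfl, rfl, rfl, e4, rfl⟩ := e
    rw [← e4] at b1
    have e5 : L1 = L11 := b.2.1.symm.trans b1.2.1
    have e6 : L2 = L21 := b.2.2.1.symm.trans b1.2.2.1
    have e7 : L3 = L31 := b.2.2.2.symm.trans b1.2.2.2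
    subst e5 e6 e7
    exact ⟨rfl, rfl⟩

theorem sum_D2 : ∑ t ∈ Qd B, (D2 B t.1 t.2.1 t.2.2.1 t.2.2.2).card ≤ 1 * (fls B).card := by
  classical
  refine sum_card_le (Qd B) _ (fls B) (fun _ => ({()} : Finset Unit)) 1
    (fun t u => (u.2.1, t.1, u.2.2, mt t.2.2.2 (bl B u.1 u.2.1) t.1, u.1)) (fun _ _ => ())
    ?_ ?_ ?_ ?_
  · rintro ⟨p, L1, L2, L3⟩ hQ ⟨x, y, x'⟩ ht
    rw [mem_Qd] at hQ
    have ht' := mem_D2.1 ht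
    have hw := mt_spec ht'.2.2.2.2.2.2.1 p
    exact mem_fls.2 (D2_bad H hQ ht' hw.1 hw.2).1
  · intro _ _ _ _
    exact mem_singleton_self _
  · intro _ _
    exact (card_singleton ()).le
  · rintro ⟨p, L1, L2, L3⟩ hQ ⟨x, y, x'⟩ ht ⟨p1, L11, L21, L31⟩ hQ1 ⟨x1, y1, x1'⟩ ht1 e _
    rw [mem_Qd] at hQ hQ1
    have ht' := mem_D2.1 ht
    have hw := mt_spec ht'.2.2.2.2.2.2.1 p
    have b := D2_bad H hQ ht' hw.1 hw.2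
    have ht1' := mem_D2.1 ht1
    have hw1 := mt_spec ht1'.2.2.2.2.2.2.1 p1
    have b1 := D2_bad H hQ1 ht1' hw1.1 hw1.2
    simp only [Prod.mk.injEq] at e
    obtain ⟨rfl, rfl, rfl, e4, rfl⟩ := e
    rw [← e4] at b1
    have e5 : L1 = L11 := b.2.1.symm.trans b1.2.1
    have e6 : L2 = L21 := b.2.2.1.symm.trans b1.2.2.1
    have e7 : L3 = L31 := b.2.2.2.symm.trans b1.2.2.2
    subst e5 e6 e7
    exact ⟨rfl, rfl⟩

theorem sum_DF12 {r : ℕ} (hr : ∀ p, (thr B p).card = r) :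
    ∑ t ∈ Qd B, (DF B t.1 t.2.1 t.2.2.1).card ≤ r * (fls B).card := by
  classical
  refine sum_card_le (Qd B) _ (fls B) (fun c => thr B c.2.1) r
    (fun t u => (u.1, t.1, u.2.1, u.2.2.1, u.2.2.2)) (fun t _ => t.2.2.2)
    ?_ ?_ ?_ ?_
  · rintro ⟨p, L1, L2, L3⟩ hQ ⟨x, x0, y, z⟩ ht
    rw [mem_Qd] at hQ
    exact mem_fls.2 (DF_bad H hQ.b1 hQ.b2 hQ.n12 hQ.p1 hQ.p2 (mem_DF.1 ht)).1
  · rintro ⟨p, L1, L2, L3⟩ hQ ⟨x, x0, y, z⟩ ht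
    rw [mem_Qd] at hQ
    exact mem_thr.2 ⟨hQ.b3, hQ.p3⟩
  · intro _ _
    exact (hr _).le
  · rintro ⟨p, L1, L2, L3⟩ hQ ⟨x, x0, y, z⟩ ht ⟨p1, L11, L21, L31⟩ hQ1 ⟨x1, x01, y1, z1⟩ ht1 e e'
    rw [mem_Qd] at hQ hQ1
    have b := DF_bad H hQ.b1 hQ.b2 hQ.n12 hQ.p1 hQ.p2 (mem_DF.1 ht)
    have b1 := DF_bad H hQ1.b1 hQ1.b2 hQ1.n12 hQ1.p1 hQ1.p2 (mem_DF.1 ht1)
    simp only [Prod.mk.injEq] at e
    obtain ⟨rfl, rfl, rfl, rfl, rfl⟩ := e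
    have e5 : L1 = L11 := b.2.1.symm.trans b1.2.1
    have e6 : L2 = L21 := b.2.2.symm.trans b1.2.2
    have e7 : L3 = L31 := e'
    subst e5 e6 e7
    exact ⟨rfl, rfl⟩

theorem sum_DF23 {r : ℕ} (hr : ∀ p, (thr B p).card = r) :
    ∑ t ∈ Qd B, (DF B t.1 t.2.2.1 t.2.2.2).card ≤ r * (fls B).card := by
  classical
  refine sum_card_le (Qd B) _ (fls B) (fun c => thr B c.2.1) r
    (fun t u => (u.1, t.1, u.2.1, u.2.2.1, u.2.2.2)) (fun t _ => t.2.1)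
    ?_ ?_ ?_ ?_
  · rintro ⟨p, L1, L2, L3⟩ hQ ⟨x, x0, y, z⟩ ht
    rw [mem_Qd] at hQ
    exact mem_fls.2 (DF_bad H hQ.b2 hQ.b3 hQ.n23 hQ.p2 hQ.p3 (mem_DF.1 ht)).1
  · rintro ⟨p, L1, L2, L3⟩ hQ ⟨x, x0, y, z⟩ ht
    rw [mem_Qd] at hQ
    exact mem_thr.2 ⟨hQ.b1, hQ.p1⟩
  · intro _ _
    exact (hr _).le
  · rintro ⟨p, L1, L2, L3⟩ hQ ⟨x, x0, y, z⟩ ht ⟨p1, L11, L21, L31⟩ hQ1 ⟨x1, x01, y1, z1⟩ ht1 e e'
    rw [mem_Qd] at hQ hQ1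
    have b := DF_bad H hQ.b2 hQ.b3 hQ.n23 hQ.p2 hQ.p3 (mem_DF.1 ht)
    have b1 := DF_bad H hQ1.b2 hQ1.b3 hQ1.n23 hQ1.p2 hQ1.p3 (mem_DF.1 ht1)
    simp only [Prod.mk.injEq] at e
    obtain ⟨rfl, rfl, rfl, rfl, rfl⟩ := e
    have e5 : L2 = L21 := b.2.1.symm.trans b1.2.1
    have e6 : L3 = L31 := b.2.2.symm.trans b1.2.2
    have e7 : L1 = L11 := e'
    subst e5 e6 e7
    exact ⟨rfl, rfl⟩

theorem sum_DF13 {r : ℕ} (hr : ∀ p, (thr B p).card = r) :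
    ∑ t ∈ Qd B, (DF B t.1 t.2.1 t.2.2.2).card ≤ r * (fls B).card := by
  classical
  refine sum_card_le (Qd B) _ (fls B) (fun c => thr B c.2.1) r
    (fun t u => (u.1, t.1, u.2.1, u.2.2.1, u.2.2.2)) (fun t _ => t.2.2.1)
    ?_ ?_ ?_ ?_
  · rintro ⟨p, L1, L2, L3⟩ hQ ⟨x, x0, y, z⟩ ht
    rw [mem_Qd] at hQ
    exact mem_fls.2 (DF_bad H hQ.b1 hQ.b3 hQ.n13 hQ.p1 hQ.p3 (mem_DF.1 ht)).1
  · rintro ⟨p, L1, L2, L3⟩ hQ ⟨x, x0, y, z⟩ ht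
    rw [mem_Qd] at hQ
    exact mem_thr.2 ⟨hQ.b2, hQ.p2⟩
  · intro _ _
    exact (hr _).le
  · rintro ⟨p, L1, L2, L3⟩ hQ ⟨x, x0, y, z⟩ ht ⟨p1, L11, L21, L31⟩ hQ1 ⟨x1, x01, y1, z1⟩ ht1 e e'
    rw [mem_Qd] at hQ hQ1
    have b := DF_bad H hQ.b1 hQ.b3 hQ.n13 hQ.p1 hQ.p3 (mem_DF.1 ht)
    have b1 := DF_bad H hQ1.b1 hQ1.b3 hQ1.n13 hQ1.p1 hQ1.p3 (mem_DF.1 ht1)
    simp only [Prod.mk.injEq] at e
    obtain ⟨rfl, rfl, rfl, rfl, rfl⟩ := e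
    have e5 : L1 = L11 := b.2.1.symm.trans b1.2.1
    have e6 : L3 = L31 := b.2.2.symm.trans b1.2.2
    have e7 : L2 = L21 := e'
    subst e5 e6 e7
    exact ⟨rfl, rfl⟩

end

open scoped Classical in
/-- the triples of blocks without a common transversal -/
noncomputable def QN (B : Finset (Finset V)) : Finset (V × Finset V × Finset V × Finset V) :=
  (Qd B).filter fun t => NoTr B t.1 t.2.1 t.2.2.1 t.2.2.2

theorem mem_QN {p : V} {L1 L2 L3 : Finset V} :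
    (p, L1, L2, L3) ∈ QN B ↔ Qu B p L1 L2 L3 ∧ NoTr B p L1 L2 L3 := by
  classical
  unfold QN
  rw [mem_filter, mem_Qd]

section
variable (H : LS B q)
include H

theorem sum_ES : ∑ t ∈ QN B, (ES B t.1 t.2.1 t.2.2.1 t.2.2.2).card ≤
    Fintype.card V * (fls B).card := by
  classical
  refine sum_card_le (QN B) _ (fls B) (fun _ => (univ : Finset V)) _
    (fun t u => (u.2.2.2.1, u.2.2.1, u.1, u.2.2.2.2, u.2.1)) (fun t _ => t.1) ?_ ?_ ?_ ?_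
  · rintro ⟨p, L1, L2, L3⟩ hQ ⟨z, z', x, y, w⟩ ht
    rw [mem_QN] at hQ
    obtain ⟨h1, h2, h3, h4⟩ := mem_ES.1 ht
    exact mem_fls.2 (ES_bad H hQ.1 hQ.2 h1 h2 h3 h4)
  · intro _ _ _ _
    exact mem_univ _
  · intro _ _
    exact card_univ.le
  · rintro ⟨p, L1, L2, L3⟩ hQ ⟨z, z', x, y, w⟩ ht ⟨p1, L11, L21, L31⟩ hQ1 ⟨z1, z1', x1, y1, w1⟩ ht1
      e e'
    rw [mem_QN] at hQ hQ1
    obtain ⟨_, _, h3, _⟩ := mem_ES.1 ht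
    obtain ⟨_, _, k3, _⟩ := mem_ES.1 ht1
    simp only [Prod.mk.injEq] at e e'
    obtain ⟨rfl, rfl, rfl, rfl, rfl⟩ := e
    subst e'
    have e5 : L1 = L11 := H.un h3.xp hQ.1.b1 hQ1.1.b1 h3.x1 hQ.1.p1 k3.x1 hQ1.1.p1
    have e6 : L2 = L21 := H.un h3.yp hQ.1.b2 hQ1.1.b2 h3.y2 hQ.1.p2 k3.y2 hQ1.1.p2
    have e7 : L3 = L31 := H.un h3.wp hQ.1.b3 hQ1.1.b3 h3.w3 hQ.1.p3 k3.w3 hQ1.1.p3
    subst e5 e6 e7
    exact ⟨rfl, rfl⟩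

/-- in a chain, the first point and the centres determine the others -/
theorem Ch.det {p : V} {L1 L2 L3 : Finset V} (Q : Qu B p L1 L2 L3) (hN : NoTr B p L1 L2 L3)
    {z z' x y w y1 w1 : V} (hz : Gd B p L1 L2 z) (hz' : Gd B p L2 L3 z')
    (h : Ch B p L1 L2 L3 z z' x y w) (h1 : Ch B p L1 L2 L3 z z' x y1 w1) : y = y1 ∧ w = w1 := by
  have f := h.fac H Q hN hz.1 hz.2.1 hz'.1 hz'.2.1
  have f1 := h1.fac H Q hN hz.1 hz.2.1 hz'.1 hz'.2.1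
  have e1 : bl B x y = bl B z x := (bl_of H f.xy h.hz (H.b1 f.xy) f.zx).symm
  have e2 : bl B x y1 = bl B z x := (bl_of H f1.xy h1.hz (H.b1 f1.xy) f1.zx).symm
  have ey : y = y1 := by
    refine H.pt (H.bB f.zx) Q.b2 ?_ (by rw [← e1]; exact H.b2 f.xy) h.y2
      (by rw [← e2]; exact H.b2 f1.xy) h1.y2
    intro e
    exact hz.2.1 (e ▸ H.b1 f.zx)
  subst ey
  refine ⟨rfl, ?_⟩
  have e3 : bl B y w = bl B z' y := (bl_of H f.yw h.hz' (H.b1 f.yw) f.zy').symm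
  have e4 : bl B y w1 = bl B z' y := (bl_of H f1.yw h1.hz' (H.b1 f1.yw) f1.zy').symm
  refine H.pt (H.bB f.zy') Q.b3 ?_ (by rw [← e3]; exact H.b2 f.yw) h.w3
      (by rw [← e4]; exact H.b2 f1.yw) h1.w3
  intro e
  exact hz'.2.1 (e ▸ H.b1 f.zy')

/-- the third centre is determined by the chain -/
theorem Ch.det_u {z z' x y w u u1 : V} (f : ChF B z z' x y w) (hu : u ∈ bl B x w)
    (hu' : u ∈ bl B z z') (hu1 : u1 ∈ bl B x w) (hu1' : u1 ∈ bl B z z') : u = u1 := by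
  refine H.pt (H.bB f.xw) (H.bB f.zz) ?_ hu hu' hu1 hu1'
  intro e
  exact f.z_xw (e ▸ H.b1 f.zz)

theorem sum_BS : ∑ t ∈ QN B, (BS B t.1 t.2.1 t.2.2.1 t.2.2.2).card ≤
    (Fintype.card V * (q + 1)) * (fls B).card := by
  classical
  refine sum_card_le (QN B) _ (fls B)
    (fun c => (univ : Finset V).sigma fun p => bl B p c.2.2.2.2) _
    (fun t u => (u.1, u.2.1, u.2.2.2.2.2.1, u.2.2.2.2.2.2.2.1, u.2.2.2.2.2.2.1))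
    (fun t u => ⟨t.1, u.2.2.1⟩) ?_ ?_ ?_ ?_
  · rintro ⟨p, L1, L2, L3⟩ hQ ⟨z, z', x1, y1, w1, u1, x2, y2, w2, u2⟩ ht
    rw [mem_QN] at hQ
    obtain ⟨h1, h2⟩ := mem_BS.1 ht
    exact mem_fls.2 (BS_bad H hQ.1 hQ.2 h1 h2)
  · rintro ⟨p, L1, L2, L3⟩ hQ ⟨z, z', x1, y1, w1, u1, x2, y2, w2, u2⟩ ht
    rw [mem_QN] at hQ
    obtain ⟨h1, h2⟩ := mem_BS.1 ht
    rw [mem_sigma]
    refine ⟨mem_univ _, ?_⟩
    show x1 ∈ bl B p x2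
    rw [H.bl_eq h1.c2.xp.symm hQ.1.b1 hQ.1.p1 h1.c2.x1]
    exact h1.c1.x1
  · intro c _
    rw [card_sigma, ← card_univ, ← smul_eq_mul]
    exact sum_le_card_nsmul _ _ _ fun p _ => card_bl_le H _ _
  · rintro ⟨p, L1, L2, L3⟩ hQ ⟨z, z', x1, y1, w1, u1, x2, y2, w2, u2⟩ ht
      ⟨p', L1', L2', L3'⟩ hQ' ⟨k, k', x1', y1', w1', u1', x2', y2', w2', u2'⟩ ht' e e'
    rw [mem_QN] at hQ hQ'
    obtain ⟨h1, h2⟩ := mem_BS.1 ht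
    obtain ⟨h1', h2'⟩ := mem_BS.1 ht'
    simp only [Prod.mk.injEq] at e
    obtain ⟨rfl, rfl, rfl, rfl, rfl⟩ := e
    simp only [Sigma.mk.injEq, heq_eq_eq] at e'
    obtain ⟨rfl, rfl⟩ := e'
    have e5 : L1 = L1' := H.un h1.c2.xp hQ.1.b1 hQ'.1.b1 h1.c2.x1 hQ.1.p1 h1'.c2.x1 hQ'.1.p1
    have e6 : L2 = L2' := H.un h1.c2.yp hQ.1.b2 hQ'.1.b2 h1.c2.y2 hQ.1.p2 h1'.c2.y2 hQ'.1.p2
    subst e5 e6
    have f1 := h1.c1.fac H hQ.1 hQ.2 h1.g.1 h1.g.2.1 h1.g'.1 h1.g'.2.1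
    have f1' := h1'.c1.fac H hQ'.1 hQ'.2 h1'.g.1 h1'.g.2.1 h1'.g'.1 h1'.g'.2.1
    have k1 := f1.cen H hQ.1 h1.c1 h1.a1 h1.a2
    have k1' := f1'.cen H hQ'.1 h1'.c1 h1'.a1 h1'.a2
    -- `y1`
    have g1 : bl B x1 y1 = bl B z x1 := (bl_of H f1.xy h1.c1.hz (H.b1 f1.xy) f1.zx).symm
    have g2 : bl B x1 y1' = bl B z x1 := (bl_of H f1'.xy h1'.c1.hz (H.b1 f1'.xy) f1'.zx).symm
    have ey : y1 = y1' := by
      refine H.pt (H.bB f1.zx) hQ.1.b2 ?_ (by rw [← g1]; exact H.b2 f1.xy) h1.c1.y2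
        (by rw [← g2]; exact H.b2 f1'.xy) h1'.c1.y2
      intro e
      exact h1.g.2.1 (e ▸ H.b1 f1.zx)
    subst ey
    -- `w1`
    have ew : w1 = w1' := by
      have g3 : bl B y1 w1 = bl B z' y1 := (bl_of H f1.yw h1.c1.hz' (H.b1 f1.yw) f1.zy').symm
      have g4 : bl B y1 w1' = bl B z' y1 :=
        (bl_of H f1'.yw h1'.c1.hz' (H.b1 f1'.yw) f1'.zy').symm
      have g5 := k1.e_ux
      have g6 := k1'.e_ux
      refine H.pt (H.bB f1.zy') (H.bB k1.ux.symm) ?_ (by rw [← g3]; exact H.b2 f1.yw)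
        (by rw [g5]; exact H.b2 f1.xw) (by rw [← g4]; exact H.b2 f1'.yw)
        (by rw [g6]; exact H.b2 f1'.xw)
      intro e
      apply f1.y_xw
      rw [← g5, ← e]
      exact H.b2 f1.zy'
    subst ew
    have e7 : L3 = L3' := H.un h1.c1.wp hQ.1.b3 hQ'.1.b3 h1.c1.w3 hQ.1.p3 h1'.c1.w3 hQ'.1.p3
    subst e7
    obtain ⟨_, ew2⟩ := Ch.det H hQ.1 hQ.2 h1.g h1.g' h1.c2 h1'.c2
    subst ew2
    have f2 := h1.c2.fac H hQ.1 hQ.2 h1.g.1 h1.g.2.1 h1.g'.1 h1.g'.2.1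
    have eu := Ch.det_u H f2 h1.b1 h1.b2 h1'.b1 h1'.b2
    subst eu
    exact ⟨rfl, rfl⟩

theorem sum_CS : ∑ t ∈ QN B, (CS B t.1 t.2.1 t.2.2.1 t.2.2.2).card ≤
    (q + 1) ^ 4 * (fls B).card := by
  classical
  refine sum_card_le (QN B) _ (fls B)
    (fun c => ((bl B c.2.1 c.2.2.2.1).sigma fun p => bl B p c.2.2.2.2) ×ˢ
      (bl B c.2.2.2.2 c.2.2.1 ×ˢ bl B c.1 c.2.2.1)) _
    (fun t u => (u.2.1, u.1.2.2.2.2.2.2.2.2.1, u.1.2.2.2.2.2.2.2.1, u.2.2, u.1.2.2.2.2.2.2.1))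
    (fun t u => (⟨t.1, u.1.2.2.1⟩, (u.1.1, u.1.2.1))) ?_ ?_ ?_ ?_
  · rintro ⟨p, L1, L2, L3⟩ hQ ⟨⟨z, z', x1, y1, w1, u1, x2, y2, w2, u2⟩, s, v⟩ ht
    rw [mem_QN] at hQ
    obtain ⟨h1, h2, h3, h4, h5, h6⟩ := mem_CS.1 ht
    exact mem_fls.2 (CS_bad H hQ.1 hQ.2 h1 h2 h3 h4 h5 h6).1
  · rintro ⟨p, L1, L2, L3⟩ hQ ⟨⟨z, z', x1, y1, w1, u1, x2, y2, w2, u2⟩, s, v⟩ ht
    rw [mem_QN] at hQ
    obtain ⟨h1, h2, h3, h4, h5, h6⟩ := mem_CS.1 ht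
    have b := CS_bad H hQ.1 hQ.2 h1 h2 h3 h4 h5 h6
    have f2 := h1.c2.fac H hQ.1 hQ.2 h1.g.1 h1.g.2.1 h1.g'.1 h1.g'.2.1
    rw [mem_product, mem_sigma, mem_product]
    refine ⟨⟨?_, ?_⟩, ?_, ?_⟩
    · show p ∈ bl B w2 v
      rw [H.bl_eq b.2 hQ.1.b3 h1.c2.w3 h4]
      exact hQ.1.p3
    · show x1 ∈ bl B p x2
      rw [H.bl_eq h1.c2.xp.symm hQ.1.b1 hQ.1.p1 h1.c2.x1]
      exact h1.c1.x1
    · show z ∈ bl B x2 y2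
      exact h1.c2.hz
    · show z' ∈ bl B s y2
      have sy : s ≠ y2 := b.1.1.2.1.symm
      rw [bl_of H f2.zy' h2 (H.b2 f2.zy') sy]
      exact H.b1 f2.zy'
  · intro c _
    rw [card_product, card_product, card_sigma]
    have h1 : ∑ a ∈ bl B c.2.1 c.2.2.2.1, (bl B a c.2.2.2.2).card ≤ (q + 1) * (q + 1) := by
      refine (sum_le_card_nsmul _ _ _ fun p _ => card_bl_le H _ _).trans ?_
      rw [smul_eq_mul]
      exact Nat.mul_le_mul_right _ (card_bl_le H _ _)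
    refine (Nat.mul_le_mul h1 (Nat.mul_le_mul (card_bl_le H _ _) (card_bl_le H _ _))).trans ?_
    apply le_of_eq
    ring
  · rintro ⟨p, L1, L2, L3⟩ hQ ⟨⟨z, z', x1, y1, w1, u1, x2, y2, w2, u2⟩, s, v⟩ ht
      ⟨p', L1', L2', L3'⟩ hQ' ⟨⟨k, k', x1', y1', w1', u1', x2', y2', w2', u2'⟩, s', v'⟩ ht' e e'
    rw [mem_QN] at hQ hQ'
    obtain ⟨h1, h2, h3, h4, h5, h6⟩ := mem_CS.1 ht
    obtain ⟨h1', h2', h3', h4', h5', h6'⟩ := mem_CS.1 ht'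
    simp only [Prod.mk.injEq] at e
    obtain ⟨rfl, rfl, rfl, rfl, rfl⟩ := e
    simp only [Prod.mk.injEq, Sigma.mk.injEq, heq_eq_eq] at e'
    obtain ⟨⟨rfl, rfl⟩, rfl, rfl⟩ := e'
    have e5 : L1 = L1' := H.un h1.c2.xp hQ.1.b1 hQ'.1.b1 h1.c2.x1 hQ.1.p1 h1'.c2.x1 hQ'.1.p1
    have e6 : L2 = L2' := H.un h1.c2.yp hQ.1.b2 hQ'.1.b2 h1.c2.y2 hQ.1.p2 h1'.c2.y2 hQ'.1.p2
    have e7 : L3 = L3' := H.un h1.c2.wp hQ.1.b3 hQ'.1.b3 h1.c2.w3 hQ.1.p3 h1'.c2.w3 hQ'.1.p3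
    subst e5 e6 e7
    obtain ⟨ey1, ew1⟩ := Ch.det H hQ.1 hQ.2 h1.g h1.g' h1.c1 h1'.c1
    subst ey1 ew1
    have f1 := h1.c1.fac H hQ.1 hQ.2 h1.g.1 h1.g.2.1 h1.g'.1 h1.g'.2.1
    have eu1 := Ch.det_u H f1 h1.a1 h1.a2 h1'.a1 h1'.a2
    subst eu1
    have f2 := h1.c2.fac H hQ.1 hQ.2 h1.g.1 h1.g.2.1 h1.g'.1 h1.g'.2.1
    have eu := Ch.det_u H f2 h1.b1 h1.b2 h1'.b1 h1'.b2
    subst eu
    exact ⟨rfl, rfl⟩

end

end Pool.Agent.Helper19.VS
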