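import Mathlib
import Pool.Agent.Helper19.VS.Sums
import Pool.Agent.Helper19.VS.Grp

set_option autoImplicit false

/-!
# Three fixed blocks through a point
-/

namespace Pool.Agent.Helper19.VS

open Finset Pool.Agent.V11100.VB

variable {V : Type} [DecidableEq V] [Fintype V] {B : Finset (Finset V)} {q : ℕ}
  {p : V} {L1 L2 L3 : Finset V}

theorem card_lift {α β : Type} [DecidableEq α] (T : Finset α) (S : Finset β) (f : β → α)
    (h : ∀ t ∈ T, ∃ s ∈ S, f s = t) : T.card ≤ S.card := by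
  have : T ⊆ S.image f := by
    intro t ht
    obtain ⟨s, hs, e⟩ := h t ht
    exact mem_image.2 ⟨s, hs, e⟩
  exact (card_le_card this).trans card_image_le

theorem er_card (H : LS B q) {L : Finset V} (hL : L ∈ B) (hp : p ∈ L) : (L.erase p).card = q := by
  rw [card_erase_of_mem hp, H.size L hL]; rfl

theorem er2_card (H : LS B q) {x y : V} (h : x ≠ y) :
    (((bl B x y).erase x).erase y).card = q - 1 := by
  rw [card_erase_of_mem (mem_erase.2 ⟨h.symm, H.b2 h⟩), card_erase_of_mem (H.b1 h),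
    H.size _ (H.bB h)]
  omega

/-- most points of the blocks joining the two lines are good centres -/
theorem G_le (H : LS B q) {L L' : Finset V} (hL : L ∈ B) (hL' : L' ∈ B) (hn : L ≠ L')
    (hp : p ∈ L) (hp' : p ∈ L') :
    q * q * (q - 1) ≤ q * (GS B p L L').card + (DF B p L L').card := by
  classical
  set X := ((L.erase p) ×ˢ (L'.erase p)).sigma fun t => ((bl B t.1 t.2).erase t.1).erase t.2
    with hX
  have nxy : ∀ {x y : V}, x ∈ L → x ≠ p → y ∈ L' → y ≠ p → x ≠ y := by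
    intro x y h1 h2 h3 h4 e
    exact Qu.off H hL hL' hn hp hp' h1 h2 (e ▸ h3)
  have cX : X.card = q * q * (q - 1) := by
    rw [hX, card_sigma, sum_congr rfl (g := fun _ => q - 1) ?_, sum_const, card_product,
      er_card H hL hp, er_card H hL' hp', smul_eq_mul]
    rintro ⟨x, y⟩ ht
    rw [mem_product, mem_erase, mem_erase] at ht
    exact er2_card H (nxy ht.1.2 ht.1.1 ht.2.2 ht.2.1)
  have hsub : X ⊆ (X.filter fun t => Gd B p L L' t.2) ∪ (X.filter fun t => ¬ Gd B p L L' t.2) := by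
    rw [filter_union_filter_not_eq]
  have h1 : (X.filter fun t => Gd B p L L' t.2).card ≤ q * (GS B p L L').card := by
    refine card_le_mul _ (GS B p L L') (fun _ => L.erase p) q (fun t => t.2) (fun t => t.1.1)
      ?_ ?_ ?_ ?_
    · rintro ⟨⟨x, y⟩, z⟩ ht
      rw [mem_filter] at ht
      exact mem_GS.2 ht.2
    · rintro ⟨⟨x, y⟩, z⟩ ht
      rw [mem_filter, hX, mem_sigma, mem_product] at ht
      exact ht.1.1.1
    · intro _ _
      exact (er_card H hL hp).le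
    · rintro ⟨⟨x, y⟩, z⟩ ht ⟨⟨x', y'⟩, z'⟩ ht' e e'
      rw [mem_filter, hX, mem_sigma, mem_product, mem_erase, mem_erase, mem_erase, mem_erase] at ht
      rw [mem_filter, hX, mem_sigma, mem_product, mem_erase, mem_erase, mem_erase,
        mem_erase] at ht'
      obtain ⟨⟨⟨⟨h1, h2⟩, h3, h4⟩, h5, h6, h7⟩, h8⟩ := ht
      obtain ⟨⟨⟨⟨k1, k2⟩, k3, k4⟩, k5, k6, k7⟩, k8⟩ := ht'
      have e1 : z = z' := e
      have e2 : x = x' := e'
      subst e1 e2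
      have ey : y = y' := by
        have xy := nxy h2 h1 h4 h3
        have xy' := nxy k2 k1 k4 k3
        have g1 : bl B x z = bl B x y := bl_of H xy (H.b1 xy) h7 h6.symm
        have g2 : bl B x z = bl B x y' := bl_of H xy' (H.b1 xy') k7 k6.symm
        refine H.pt (H.bB (Ne.symm h6)) hL' ?_ (by rw [g1]; exact H.b2 xy) h4
          (by rw [g2]; exact H.b2 xy') k4
        intro e
        exact h8.2.1 (e ▸ H.b2 (Ne.symm h6))
      subst ey
      rfl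
  have h2 : (X.filter fun t => ¬ Gd B p L L' t.2).card ≤ (DF B p L L').card := by
    refine card_lift _ _ (fun u => (⟨(u.1, u.2.2.1), u.2.2.2⟩ : (_ : V × V) × V)) ?_
    rintro ⟨⟨x, y⟩, z⟩ ht
    rw [mem_filter, hX, mem_sigma, mem_product, mem_erase, mem_erase, mem_erase, mem_erase] at ht
    obtain ⟨⟨⟨⟨h1, h2⟩, h3, h4⟩, h5, h6, h7⟩, h8⟩ := ht
    simp only at h1 h2 h3 h4 h5 h6 h7 h8
    have xy := nxy h2 h1 h4 h3
    have x2 : x ∉ L' := Qu.off H hL hL' hn hp hp' h2 h1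
    have y1 : y ∉ L := Qu.off H hL' hL hn.symm hp' hp h4 h3
    have g1 : bl B x z = bl B x y := bl_of H xy (H.b1 xy) h7 (Ne.symm h6)
    have g2 : bl B y z = bl B x y := bl_of H xy (H.b2 xy) h7 (Ne.symm h5)
    have z1 : z ∉ L := by
      intro hc
      apply y1
      rw [← H.bl_eq (Ne.symm h6) hL h2 hc, g1]
      exact H.b2 xy
    have z2 : z ∉ L' := by
      intro hc
      apply x2
      rw [← H.bl_eq (Ne.symm h5) hL' h4 hc, g2]
      exact H.b1 xy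
    have h9 : ∃ x0 ∈ L, x0 ≠ p ∧ ∀ w ∈ L', w ∉ bl B z x0 := by
      by_contra hc
      push Not at hc
      exact h8 ⟨z1, z2, hc⟩
    obtain ⟨x0, k1, k2, k3⟩ := h9
    have zx0 : z ≠ x0 := fun e => z1 (e ▸ k1)
    have xx0 : x ≠ x0 := by
      rintro rfl
      apply k3 y h4
      rw [bl_comm H zx0, g1]
      exact H.b2 xy
    refine ⟨(x, x0, y, z), mem_DF.2 ⟨h2, h1, k1, k2, xx0, h4, h3, h7, h6, h5, ?_⟩, rfl⟩
    rw [bl_comm H zx0.symm]
    exact k3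
  have h3 := (card_le_card hsub).trans (card_union_le _ _)
  rw [cX] at h3
  omega

/-- chains with a bad third centre -/
theorem AS_le (H : LS B q) (Q : Qu B p L1 L2 L3) (hN : NoTr B p L1 L2 L3) :
    (AS B p L1 L2 L3).card ≤ (q * (q - 1)) * (DF B p L1 L3).card := by
  classical
  have : Nonempty V := ⟨p⟩
  have key : ∀ t ∈ AS B p L1 L2 L3, ∃ x0, (t.2.2.1, x0, t.2.2.2.2.1, t.2.2.2.2.2) ∈
      DF B p L1 L3 := by
    rintro ⟨z, z', x, y, w, u⟩ ht
    obtain ⟨h1, h2, h3, h4, h5, h6⟩ := mem_AS.1 ht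
    have f := h3.fac H Q hN h1.1 h1.2.1 h2.1 h2.2.1
    have k := f.cen H Q h3 h4 h5
    have h9 : ∃ x0 ∈ L1, x0 ≠ p ∧ ∀ w ∈ L3, w ∉ bl B u x0 := by
      by_contra hc
      push Not at hc
      exact h6 ⟨k.u1, k.u3, hc⟩
    obtain ⟨x0, k1, k2, k3⟩ := h9
    have ux0 : u ≠ x0 := fun e => k.u1 (e ▸ k1)
    have xx0 : x ≠ x0 := by
      rintro rfl
      apply k3 w h3.w3
      rw [bl_comm H ux0, k.e_ux]
      exact H.b2 f.xw
    refine ⟨x0, mem_DF.2 ⟨h3.x1, h3.xp, k1, k2, xx0, h3.w3, h3.wp, h4, k.ux, k.uw, ?_⟩⟩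
    rw [bl_comm H ux0.symm]
    exact k3
  choose! x0 hx0 using key
  refine card_le_mul _ (DF B p L1 L3)
    (fun c => (L2.erase p).sigma fun y => ((bl B c.1 y).erase c.1).erase y) _
    (fun t => (t.2.2.1, x0 t, t.2.2.2.2.1, t.2.2.2.2.2)) (fun t => ⟨t.2.2.2.1, t.1⟩) ?_ ?_ ?_ ?_
  · exact hx0
  · rintro ⟨z, z', x, y, w, u⟩ ht
    obtain ⟨h1, h2, h3, h4, h5, h6⟩ := mem_AS.1 ht
    have f := h3.fac H Q hN h1.1 h1.2.1 h2.1 h2.2.1
    rw [mem_sigma, mem_erase, mem_erase, mem_erase]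
    exact ⟨⟨h3.yp, h3.y2⟩, f.zy, f.zx, h3.hz⟩
  · rintro ⟨x, x0, w, u⟩ hc
    have hc' := mem_DF.1 hc
    rw [card_sigma, sum_congr rfl (g := fun _ => q - 1) ?_, sum_const, er_card H Q.b2 Q.p2,
      smul_eq_mul]
    intro y hy
    rw [mem_erase] at hy
    refine er2_card H ?_
    intro e
    have e' : x = y := e
    exact Qu.off H Q.b1 Q.b2 Q.n12 Q.p1 Q.p2 hc'.1 hc'.2.1 (e' ▸ hy.2)
  · rintro ⟨z, z', x, y, w, u⟩ ht ⟨z1, z1', x1, y1, w1, u1⟩ ht' e e'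
    obtain ⟨h1, h2, h3, h4, h5, h6⟩ := mem_AS.1 ht
    obtain ⟨g1, g2, g3, g4, g5, g6⟩ := mem_AS.1 ht'
    simp only [Prod.mk.injEq] at e
    obtain ⟨rfl, _, rfl, rfl⟩ := e
    simp only [Sigma.mk.injEq, heq_eq_eq] at e'
    obtain ⟨rfl, rfl⟩ := e'
    have f := h3.fac H Q hN h1.1 h1.2.1 h2.1 h2.2.1
    have f1 := g3.fac H Q hN g1.1 g1.2.1 g2.1 g2.2.1
    have k := f.cen H Q h3 h4 h5
    have k1 := f1.cen H Q g3 g4 g5
    have ez : z' = z1' := by
      refine H.pt (H.bB f.yw) (H.bB k.uz.symm) ?_ h3.hz' (by rw [k.e_uz]; exact H.b2 f.zz)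
        g3.hz' (by rw [k1.e_uz]; exact H.b2 f1.zz)
      intro e
      apply f.y_zz
      rw [← k.e_uz, ← e]
      exact H.b1 f.yw
    subst ez
    rfl

open scoped Classical in
/-- pairs of centres whose composition is not a projection -/
noncomputable def ZS (B : Finset (Finset V)) (p : V) (L1 L2 L3 : Finset V) : Finset (V × V) :=
  (GS B p L1 L2 ×ˢ GS B p L2 L3).filter fun t =>
    ¬ ∃ u, Gd B p L1 L3 u ∧ ∀ x y w, Ch B p L1 L2 L3 t.1 t.2 x y w → u ∈ bl B x w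

theorem mem_ZS {z z' : V} : (z, z') ∈ ZS B p L1 L2 L3 ↔ (Gd B p L1 L2 z ∧ Gd B p L2 L3 z') ∧
    ¬ ∃ u, Gd B p L1 L3 u ∧ ∀ x y w, Ch B p L1 L2 L3 z z' x y w → u ∈ bl B x w := by
  classical
  unfold ZS
  rw [mem_filter, mem_product, mem_GS, mem_GS]

/-- every point of the first block starts a chain -/
theorem ex_Ch (H : LS B q) (Q : Qu B p L1 L2 L3) {z z' x : V} (hz : Gd B p L1 L2 z)
    (hz' : Gd B p L2 L3 z') (hx : x ∈ L1) (hxp : x ≠ p) :
    ∃ y w, Ch B p L1 L2 L3 z z' x y w := by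
  have step : ∀ {L L' : Finset V} {z x : V}, L ∈ B → L' ∈ B → L ≠ L' → p ∈ L → p ∈ L' →
      Gd B p L L' z → x ∈ L → x ≠ p → ∃ y ∈ L', y ≠ p ∧ z ∈ bl B x y := by
    intro L L' z x hL hL' hn hp hp' hz hx hxp
    obtain ⟨y, hy, hy2⟩ := hz.2.2 x hx hxp
    have zx : z ≠ x := fun e => hz.1 (e ▸ hx)
    have zy : z ≠ y := fun e => hz.2.1 (e ▸ hy)
    have xy : x ≠ y := by
      rintro rfl
      exact Qu.off H hL hL' hn hp hp' hx hxp hy
    refine ⟨y, hy, ?_, ?_⟩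
    · rintro rfl
      apply hz.1
      rw [← H.bl_eq hxp hL hx hp, bl_of H zx (H.b2 zx) hy2 xy]
      exact H.b1 zx
    · rw [bl_of H zx (H.b2 zx) hy2 xy]
      exact H.b1 zx
  obtain ⟨y, hy, hyp, h1⟩ := step Q.b1 Q.b2 Q.n12 Q.p1 Q.p2 hz hx hxp
  obtain ⟨w, hw, hwp, h2⟩ := step Q.b2 Q.b3 Q.n23 Q.p2 Q.p3 hz' hy hyp
  exact ⟨y, w, hx, hxp, hy, hyp, hw, hwp, h1, h2⟩

theorem Z_le (H : LS B q) (Q : Qu B p L1 L2 L3) (hN : NoTr B p L1 L2 L3) :
    q * (ZS B p L1 L2 L3).card ≤ q * (ES B p L1 L2 L3).card + (AS B p L1 L2 L3).card +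
      (BS B p L1 L2 L3).card + (CS B p L1 L2 L3).card := by
  classical
  set T := (ZS B p L1 L2 L3) ×ˢ (L1.erase p) with hT
  have cT : T.card = q * (ZS B p L1 L2 L3).card := by
    rw [hT, card_product, er_card H Q.b1 Q.p1, mul_comm]
  rw [← cT]
  set Te := T.filter fun t => ∃ s ∈ ES B p L1 L2 L3, s.1 = t.1.1 ∧ s.2.1 = t.1.2
  set Ta := T.filter fun t => ∃ s ∈ AS B p L1 L2 L3, s.1 = t.1.1 ∧ s.2.1 = t.1.2 ∧
    s.2.2.1 = t.2
  set Tb := T.filter fun t => ∃ s ∈ BS B p L1 L2 L3, s.1 = t.1.1 ∧ s.2.1 = t.1.2 ∧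
    s.2.2.1 = t.2
  set Tc := T.filter fun t => ∃ s ∈ CS B p L1 L2 L3, s.1.1 = t.1.1 ∧ s.1.2.1 = t.1.2 ∧
    s.1.2.2.1 = t.2
  have hsub : T ⊆ ((Te ∪ Ta) ∪ Tb) ∪ Tc := by
    rintro ⟨⟨z, z'⟩, x⟩ ht
    rw [mem_union, mem_union, mem_union, mem_filter, mem_filter, mem_filter, mem_filter]
    have ht' := ht
    rw [hT, mem_product, mem_ZS, mem_erase] at ht'
    obtain ⟨⟨⟨hz, hz'⟩, hno⟩, hxp, hx⟩ := ht'
    simp only at hxp hx
    by_cases hE : ∃ s ∈ ES B p L1 L2 L3, s.1 = z ∧ s.2.1 = z'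
    · left; left; left
      exact ⟨ht, hE⟩
    have hcen : ∀ x y w, Ch B p L1 L2 L3 z z' x y w → ∃ u, u ∈ bl B x w ∧ u ∈ bl B z z' := by
      intro x y w hc
      by_contra hcon
      push Not at hcon
      exact hE ⟨(z, z', x, y, w), mem_ES.2 ⟨hz, hz', hc, hcon⟩, rfl, rfl⟩
    obtain ⟨y, w, hc⟩ := ex_Ch H Q hz hz' hx hxp
    obtain ⟨u, hu, hu'⟩ := hcen x y w hc
    by_cases hg : Gd B p L1 L3 u
    · have h1 : ∃ x2 y2 w2, Ch B p L1 L2 L3 z z' x2 y2 w2 ∧ u ∉ bl B x2 w2 := by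
        by_contra hcon
        push Not at hcon
        exact hno ⟨u, hg, hcon⟩
      obtain ⟨x2, y2, w2, hc2, hu2⟩ := h1
      obtain ⟨u2, k1, k2⟩ := hcen x2 y2 w2 hc2
      have hne : u ≠ u2 := fun e => hu2 (e ▸ k1)
      have T2 : Two B p L1 L2 L3 z z' x y w u x2 y2 w2 u2 :=
        ⟨hz, hz', hc, hc2, hu, hu', k1, k2, hg, hne⟩
      by_cases hs : ∃ s ∈ bl B z' y2, s ∈ bl B u x2
      · right
        obtain ⟨s, hs1, hs2⟩ := hs
        obtain ⟨v, hv, hv2⟩ := hg.2.2 x2 hc2.x1 hc2.xp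
        have ux2 : u ≠ x2 := fun e => hg.1 (e ▸ hc2.x1)
        have hvp : v ≠ p := by
          rintro rfl
          apply hg.1
          rw [← H.bl_eq hc2.xp Q.b1 hc2.x1 Q.p1, bl_of H ux2 (H.b2 ux2) hv2 hc2.xp]
          exact H.b1 ux2
        exact ⟨ht, ((z, z', x, y, w, u, x2, y2, w2, u2), s, v),
          mem_CS.2 ⟨T2, hs1, hs2, hv, hvp, hv2⟩, rfl, rfl, rfl⟩
      · left; right
        push Not at hs
        exact ⟨ht, (z, z', x, y, w, u, x2, y2, w2, u2), mem_BS.2 ⟨T2, hs⟩, rfl, rfl, rfl⟩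
    · left; left; right
      exact ⟨ht, (z, z', x, y, w, u), mem_AS.2 ⟨hz, hz', hc, hu, hu', hg⟩, rfl, rfl, rfl⟩
  have he : Te.card ≤ q * (ES B p L1 L2 L3).card := by
    have : Te.card ≤ ((ES B p L1 L2 L3) ×ˢ (L1.erase p)).card := by
      refine card_lift _ _ (fun s => ((s.1.1, s.1.2.1), s.2)) ?_
      rintro ⟨⟨z, z'⟩, x⟩ ht
      rw [mem_filter, hT, mem_product] at ht
      obtain ⟨⟨_, hx⟩, s, hs, e1, e2⟩ := ht
      refine ⟨(s, x), mem_product.2 ⟨hs, hx⟩, ?_⟩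
      rw [e1, e2]
    rw [card_product, er_card H Q.b1 Q.p1] at this
    rw [mul_comm]
    exact this
  have ha : Ta.card ≤ (AS B p L1 L2 L3).card := by
    refine card_lift _ _ (fun s => ((s.1, s.2.1), s.2.2.1)) ?_
    rintro ⟨⟨z, z'⟩, x⟩ ht
    rw [mem_filter] at ht
    obtain ⟨_, s, hs, e1, e2, e3⟩ := ht
    refine ⟨s, hs, ?_⟩
    rw [e1, e2, e3]
  have hb : Tb.card ≤ (BS B p L1 L2 L3).card := by
    refine card_lift _ _ (fun s => ((s.1, s.2.1), s.2.2.1)) ?_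
    rintro ⟨⟨z, z'⟩, x⟩ ht
    rw [mem_filter] at ht
    obtain ⟨_, s, hs, e1, e2, e3⟩ := ht
    refine ⟨s, hs, ?_⟩
    rw [e1, e2, e3]
  have hc : Tc.card ≤ (CS B p L1 L2 L3).card := by
    refine card_lift _ _ (fun s => ((s.1.1, s.1.2.1), s.1.2.2.1)) ?_
    rintro ⟨⟨z, z'⟩, x⟩ ht
    rw [mem_filter] at ht
    obtain ⟨_, s, hs, e1, e2, e3⟩ := ht
    refine ⟨s, hs, ?_⟩
    rw [e1, e2, e3]
  have h1 := (card_le_card hsub).trans (card_union_le _ _)
  have h2 := card_union_le (Te ∪ Ta) Tb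
  have h3 := card_union_le Te Ta
  omega

/-- the case of a triple with a transversal -/
theorem K_le (H : LS B q) (Q : Qu B p L1 L2 L3) (hK : ¬ NoTr B p L1 L2 L3) :
    q * q ≤ (KS B p L1 L2 L3).card + (D1 B p L1 L2 L3).card + q * (D2 B p L1 L2 L3).card := by
  classical
  unfold NoTr at hK
  push Not at hK
  obtain ⟨x0, hx0, hx0p, y0, hy0, hy0p, w0, hw0, hw0'⟩ := hK
  set T := (L1.erase p) ×ˢ (L2.erase p) with hT
  have cT : T.card = q * q := by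
    rw [hT, card_product, er_card H Q.b1 Q.p1, er_card H Q.b2 Q.p2]
  rw [← cT]
  set Ta := T.filter fun t => (x0, t.2, t.1) ∈ D1 B p L1 L2 L3
  set Tb := T.filter fun t => (x0, y0, t.2) ∈ D2 B p L1 L2 L3
  have hsub : T ⊆ (KS B p L1 L2 L3 ∪ Ta) ∪ Tb := by
    rintro ⟨x, y⟩ ht
    rw [mem_union, mem_union, mem_KS, mem_filter, mem_filter]
    have ht' := ht
    rw [hT, mem_product, mem_erase, mem_erase] at ht'
    obtain ⟨⟨h1, h2⟩, h3, h4⟩ := ht'
    simp only at h1 h2 h3 h4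
    by_cases h5 : ∃ w ∈ L3, w ∈ bl B x y
    · left; left
      exact ⟨h2, h1, h4, h3, h5⟩
    · by_cases h6 : ∃ w ∈ L3, w ∈ bl B x0 y
      · left; right
        exact ⟨ht, mem_D1.2 ⟨hx0, hx0p, h4, h3, h2, h1, h6, h5⟩⟩
      · right
        exact ⟨ht, mem_D2.2 ⟨hx0, hx0p, hy0, hy0p, h4, h3, ⟨w0, hw0, hw0'⟩, h6⟩⟩
  have ha : Ta.card ≤ (D1 B p L1 L2 L3).card := by
    refine card_lift _ _ (fun s => (s.2.2, s.2.1)) ?_
    rintro ⟨x, y⟩ ht
    rw [mem_filter] at ht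
    exact ⟨_, ht.2, rfl⟩
  have hb : Tb.card ≤ q * (D2 B p L1 L2 L3).card := by
    have : Tb.card ≤ ((L1.erase p) ×ˢ (D2 B p L1 L2 L3)).card := by
      refine card_lift _ _ (fun s => (s.1, s.2.2.2)) ?_
      rintro ⟨x, y⟩ ht
      rw [mem_filter, hT, mem_product] at ht
      exact ⟨(x, (x0, y0, y)), mem_product.2 ⟨ht.1.1, ht.2⟩, rfl⟩
    rw [card_product, er_card H Q.b1 Q.p1] at this
    exact this
  have h1 := (card_le_card hsub).trans (card_union_le _ _)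
  have h2 := card_union_le (KS B p L1 L2 L3) Ta
  omega

/-- the points of a set other than `p` -/
abbrev Pt (p : V) (L : Finset V) : Type := {x : V // x ∈ L.erase p}

/-- a good centre projects -/
theorem exE (H : LS B q) {L L' : Finset V} (hL : L ∈ B) (hL' : L' ∈ B) (hn : L ≠ L')
    (hp : p ∈ L) (hp' : p ∈ L') {z : V} (hz : Gd B p L L' z) :
    ∃ e : Pt p L ≃ Pt p L', ∀ x : Pt p L, (e x : V) ∈ bl B z x := by
  classical
  have step : ∀ x : Pt p L, ∃ y : Pt p L', (y : V) ∈ bl B z x := by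
    rintro ⟨x, hx⟩
    rw [mem_erase] at hx
    obtain ⟨y, hy, hy2⟩ := hz.2.2 x hx.2 hx.1
    have zx : z ≠ x := fun e => hz.1 (e ▸ hx.2)
    refine ⟨⟨y, mem_erase.2 ⟨?_, hy⟩⟩, hy2⟩
    rintro rfl
    apply hz.1
    rw [← H.bl_eq hx.1 hL hx.2 hp, bl_of H zx (H.b2 zx) hy2 hx.1]
    exact H.b1 zx
  choose f hf using step
  have inj : Function.Injective f := by
    rintro ⟨x, hx⟩ ⟨x', hx'⟩ e
    by_contra hne
    have hxx : x ≠ x' := fun e => hne (Subtype.ext e)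
    rw [mem_erase] at hx hx'
    have h1 := hf ⟨x, mem_erase.2 hx⟩
    have h2 := hf ⟨x', mem_erase.2 hx'⟩
    rw [← e] at h2
    set y := f ⟨x, mem_erase.2 hx⟩ with hy
    have hyL := y.2
    rw [mem_erase] at hyL
    have zx : z ≠ x := fun e => hz.1 (e ▸ hx.2)
    have zx' : z ≠ x' := fun e => hz.1 (e ▸ hx'.2)
    have zy : z ≠ y := fun e => hz.2.1 (e ▸ hyL.2)
    have e1 : bl B z y = bl B z x := bl_of H zx (H.b1 zx) h1 zy
    have e2 : bl B z y = bl B z x' := bl_of H zx' (H.b1 zx') h2 zy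
    have e3 : x' ∈ bl B z x := by rw [← e1, e2]; exact H.b2 zx'
    apply hz.1
    rw [← H.bl_eq hxx hL hx.2 hx'.2, bl_of H zx (H.b2 zx) e3 hxx]
    exact H.b1 zx
  have hc : Fintype.card (Pt p L) = Fintype.card (Pt p L') := by
    rw [Fintype.card_coe, Fintype.card_coe, er_card H hL hp, er_card H hL' hp']
  exact ⟨Equiv.ofBijective f ((Fintype.bijective_iff_injective_and_card f).2 ⟨inj, hc⟩), hf⟩

open scoped Classical in
/-- the projection, as a bijection -/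
noncomputable def ph (B : Finset (Finset V)) (p : V) (L L' : Finset V)
    (d : Pt p L ≃ Pt p L') (z : V) : Pt p L ≃ Pt p L' :=
  if h : ∃ e : Pt p L ≃ Pt p L', ∀ x : Pt p L, (e x : V) ∈ bl B z x then h.choose else d

theorem ph_spec (H : LS B q) {L L' : Finset V} (hL : L ∈ B) (hL' : L' ∈ B) (hn : L ≠ L')
    (hp : p ∈ L) (hp' : p ∈ L') {z : V} (hz : Gd B p L L' z) (d : Pt p L ≃ Pt p L')
    (x : Pt p L) : (ph B p L L' d z x : V) ∈ bl B z x := by
  unfold ph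
  rw [dif_pos (exE H hL hL' hn hp hp' hz)]
  exact (exE H hL hL' hn hp hp' hz).choose_spec x

theorem ph_agree (H : LS B q) {L L' : Finset V} (hL : L ∈ B) (hL' : L' ∈ B) (hn : L ≠ L')
    (hp : p ∈ L) (hp' : p ∈ L') {z z' : V} (hz : Gd B p L L' z) (hz' : Gd B p L L' z')
    (d : Pt p L ≃ Pt p L') {x x' : Pt p L} (hx : x ≠ x')
    (h1 : ph B p L L' d z x = ph B p L L' d z' x)
    (h2 : ph B p L L' d z x' = ph B p L L' d z' x') : z = z' := by
  by_contra hne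
  have key : ∀ x : Pt p L, ph B p L L' d z x = ph B p L L' d z' x → (x : V) ∈ bl B z z' := by
    intro x h
    have k1 := ph_spec H hL hL' hn hp hp' hz d x
    have k2 := ph_spec H hL hL' hn hp hp' hz' d x
    rw [← h] at k2
    set y := ph B p L L' d z x
    have hy := mem_erase.1 y.2
    have hx := mem_erase.1 x.2
    have xy : (x : V) ≠ y := fun e => Qu.off H hL hL' hn hp hp' hx.2 hx.1 (e ▸ hy.2)
    have zx : z ≠ x := fun e => hz.1 (e ▸ hx.2)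
    have zx' : z' ≠ x := fun e => hz'.1 (e ▸ hx.2)
    have e1 : bl B (x : V) y = bl B z x := bl_of H zx (H.b2 zx) k1 xy
    have e2 : bl B (x : V) y = bl B z' x := bl_of H zx' (H.b2 zx') k2 xy
    have e3 : z' ∈ bl B z x := by rw [← e1, e2]; exact H.b1 zx'
    rw [bl_of H zx (H.b1 zx) e3 hne]
    exact H.b2 zx
  have hxx : (x : V) ≠ x' := fun e => hx (Subtype.ext e)
  have a1 := mem_erase.1 x.2
  have a2 := mem_erase.1 x'.2
  apply hz.1
  rw [← H.bl_eq hxx hL a1.2 a2.2, bl_of H hne (key x h1) (key x' h2) hxx]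
  exact H.b1 hne

theorem fix_arith {q m g1 g2 d1 d2 : ℕ} (h1 : q * m ≤ q * g1 + d1) (h2 : q * m ≤ q * g2 + d2) :
    q * m ^ 2 ≤ q * (g1 * g2) + m * (d1 + d2) := by
  rcases le_total m g1 with h | h
  · have e1 := Nat.mul_le_mul_left (q * g2) h
    have e2 := Nat.mul_le_mul_left m h2
    nlinarith
  · rcases le_total m g2 with k | k
    · have e1 := Nat.mul_le_mul_left (q * g1) k
      have e2 := Nat.mul_le_mul_left m h1
      nlinarith
    · obtain ⟨a, rfl⟩ := Nat.exists_eq_add_of_le h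
      obtain ⟨b, hb⟩ := Nat.exists_eq_add_of_le k
      have e1 : q * a ≤ d1 := by nlinarith
      have e2 : q * b ≤ d2 := by
        have : q * (g1 + a) = q * (g2 + b) := by rw [hb]
        nlinarith
      have e3 := Nat.mul_le_mul_left (g1 + a) e1
      have e4 := Nat.mul_le_mul_left (g1 + a) e2
      have e5 : g1 * (q * b) + q * (g1 * g2) = q * (g1 * (g1 + a)) := by
        rw [hb]; ring
      nlinarith [Nat.zero_le (q * a * b)]

theorem main_fix (H : LS B q) (Q : Qu B p L1 L2 L3) (hN : NoTr B p L1 L2 L3)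
    (hq : ¬ IsPrimePow q) :
    q * (q * (q - 1)) ^ 2 < 12 * ((q * (q - 1)) * ((DF B p L1 L2).card + (DF B p L2 L3).card +
      (DF B p L1 L3).card) + q * (ES B p L1 L2 L3).card + (BS B p L1 L2 L3).card +
      (CS B p L1 L2 L3).card) := by
  classical
  have hcard : ∀ {L : Finset V}, L ∈ B → p ∈ L → Fintype.card (Pt p L) = q := by
    intro L hL hp
    rw [Fintype.card_coe, er_card H hL hp]
  have d12 : Pt p L1 ≃ Pt p L2 := Fintype.equivOfCardEq ((hcard Q.b1 Q.p1).trans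
    (hcard Q.b2 Q.p2).symm)
  have d23 : Pt p L2 ≃ Pt p L3 := Fintype.equivOfCardEq ((hcard Q.b2 Q.p2).trans
    (hcard Q.b3 Q.p3).symm)
  have d13 : Pt p L1 ≃ Pt p L3 := d12.trans d23
  set f12 := ph B p L1 L2 d12 with hf12
  set f23 := ph B p L2 L3 d23 with hf23
  set f13 := ph B p L1 L3 d13 with hf13
  set G12 := GS B p L1 L2
  set G23 := GS B p L2 L3
  set Z := ZS B p L1 L2 L3 with hZ
  set P := (G12 ×ˢ G23) \ Z with hP
  have hq2 := H.hq
  have spread : ∀ {L L' : Finset V} (hL : L ∈ B) (hL' : L' ∈ B) (hn : L ≠ L') (hp : p ∈ L)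
      (hp' : p ∈ L') (d : Pt p L ≃ Pt p L'),
      Spread ((GS B p L L').image (ph B p L L' d)) := by
    intro L L' hL hL' hn hp hp' d g hg h hh x y hxy e1 e2
    rw [mem_image] at hg hh
    obtain ⟨z, hz, rfl⟩ := hg
    obtain ⟨z', hz', rfl⟩ := hh
    rw [mem_GS] at hz hz'
    rw [ph_agree H hL hL' hn hp hp' hz hz' d hxy e1 e2]
  have two : ∀ {L : Finset V}, L ∈ B → p ∈ L → ∃ x x' : Pt p L, x ≠ x' := by
    intro L hL hp
    exact Fintype.exists_pair_of_one_lt_card (by rw [hcard hL hp]; omega)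
  -- the lemma on permutations
  set M := P.image fun t => (f23 t.2, f12 t.1) with hM
  have cM : M.card = P.card := by
    rw [hM, card_image_of_injOn]
    rintro ⟨z, z'⟩ h ⟨k, k'⟩ h' e
    have e' : (f23 z', f12 z) = (f23 k', f12 k) := e
    rw [Prod.mk.injEq] at e'
    rw [mem_coe, hP, mem_sdiff, mem_product, mem_GS, mem_GS] at h h'
    obtain ⟨x, x', hxx⟩ := two Q.b1 Q.p1
    obtain ⟨y, y', hyy⟩ := two Q.b2 Q.p2
    have g1 := ph_agree H Q.b1 Q.b2 Q.n12 Q.p1 Q.p2 h.1.1 h'.1.1 d12 hxx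
      (Equiv.congr_fun e'.2 x) (Equiv.congr_fun e'.2 x')
    have g2 := ph_agree H Q.b2 Q.b3 Q.n23 Q.p2 Q.p3 h.1.2 h'.1.2 d23 hyy
      (Equiv.congr_fun e'.1 y) (Equiv.congr_fun e'.1 y')
    exact Prod.ext g1 g2
  have hMM : ∀ t ∈ M, t.1 ∈ (GS B p L2 L3).image (ph B p L2 L3 d23) ∧
      t.2 ∈ (GS B p L1 L2).image (ph B p L1 L2 d12) ∧
      t.2.trans t.1 ∈ (GS B p L1 L3).image (ph B p L1 L3 d13) := by
    intro t ht
    rw [hM, mem_image] at ht
    obtain ⟨⟨z, z'⟩, hzz, rfl⟩ := ht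
    rw [hP, mem_sdiff, mem_product, hZ] at hzz
    obtain ⟨⟨h1, h2⟩, h3⟩ := hzz
    refine ⟨mem_image_of_mem _ h2, mem_image_of_mem _ h1, ?_⟩
    have h1' : Gd B p L1 L2 z := mem_GS.1 h1
    have h2' : Gd B p L2 L3 z' := mem_GS.1 h2
    rw [mem_ZS] at h3
    push Not at h3
    obtain ⟨u, hu, hu2⟩ := h3 ⟨h1', h2'⟩
    refine mem_image.2 ⟨u, mem_GS.2 hu, ?_⟩
    ext x
    set y := f12 z x with hy
    set w := f23 z' y with hw
    have k1 := ph_spec H Q.b1 Q.b3 Q.n13 Q.p1 Q.p3 hu d13 x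
    have k2 : (y : V) ∈ bl B z x := ph_spec H Q.b1 Q.b2 Q.n12 Q.p1 Q.p2 h1' d12 x
    have k3 : (w : V) ∈ bl B z' y := ph_spec H Q.b2 Q.b3 Q.n23 Q.p2 Q.p3 h2' d23 y
    set u' := ph B p L1 L3 d13 u x
    have hx' := mem_erase.1 x.2
    have hy' := mem_erase.1 y.2
    have hw' := mem_erase.1 w.2
    have hu' := mem_erase.1 u'.2
    have xy : (x : V) ≠ y := fun e => Qu.off H Q.b1 Q.b2 Q.n12 Q.p1 Q.p2 hx'.2 hx'.1 (e ▸ hy'.2)
    have yw : (y : V) ≠ w := fun e => Qu.off H Q.b2 Q.b3 Q.n23 Q.p2 Q.p3 hy'.2 hy'.1 (e ▸ hw'.2)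
    have xw : (x : V) ≠ w := fun e => Qu.off H Q.b1 Q.b3 Q.n13 Q.p1 Q.p3 hx'.2 hx'.1 (e ▸ hw'.2)
    have zx : z ≠ x := fun e => h1'.1 (e ▸ hx'.2)
    have zy' : z' ≠ y := fun e => h2'.1 (e ▸ hy'.2)
    have c : Ch B p L1 L2 L3 z z' x y w := by
      refine ⟨hx'.2, hx'.1, hy'.2, hy'.1, hw'.2, hw'.1, ?_, ?_⟩
      · rw [bl_of H zx (H.b2 zx) k2 xy]
        exact H.b1 zx
      · rw [bl_of H zy' (H.b2 zy') k3 yw]
        exact H.b1 zy'
    have k4 := hu2 _ _ _ c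
    have ux : u ≠ x := fun e => hu.1 (e ▸ hx'.2)
    have k5 : (w : V) ∈ bl B u x := by
      rw [bl_of H xw k4 (H.b1 xw) ux]
      exact H.b2 xw
    show (u' : V) = w
    refine H.pt (H.bB ux) Q.b3 ?_ k1 hu'.2 k5 hw'.2
    intro e
    exact hu.2.1 (e ▸ H.b1 ux)
  have hG : ¬ (11 * (q * (q - 1)) ^ 2 ≤ 12 * M.card) := by
    intro hle
    apply hq
    have := lemmaG (X := Pt p L1) (Y := Pt p L2) (Z := Pt p L3)
      (by rw [hcard Q.b1 Q.p1]; exact hq2)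
      (spread Q.b1 Q.b2 Q.n12 Q.p1 Q.p2 d12) (spread Q.b2 Q.b3 Q.n23 Q.p2 Q.p3 d23)
      (spread Q.b1 Q.b3 Q.n13 Q.p1 Q.p3 d13) d12 d13 M hMM
      (by rw [hcard Q.b1 Q.p1]; exact hle)
    rw [hcard Q.b1 Q.p1] at this
    exact this
  rw [cM] at hG
  push Not at hG
  have h1 : G12.card * G23.card ≤ P.card + Z.card := by
    have := le_card_sdiff Z (G12 ×ˢ G23)
    rw [card_product, ← hP] at this
    omega
  have h2 := G_le H Q.b1 Q.b2 Q.n12 Q.p1 Q.p2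
  have h3 := G_le H Q.b2 Q.b3 Q.n23 Q.p2 Q.p3
  have h4 := Z_le H Q hN
  have h5 := AS_le H Q hN
  have e : q * q * (q - 1) = q * (q * (q - 1)) := by ring
  rw [e] at h2 h3
  set m := q * (q - 1)
  have h6 := fix_arith h2 h3
  have h7 : q * (12 * P.card) < q * (11 * m ^ 2) := Nat.mul_lt_mul_of_pos_left hG (by omega)
  have h8 : q * (12 * (G12.card * G23.card)) ≤ q * (12 * (P.card + Z.card)) :=
    Nat.mul_le_mul_left _ (Nat.mul_le_mul_left _ h1)
  linarith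

end Pool.Agent.Helper19.VS
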