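import Mathlib
import Pool.Agent.Helper19.VS.Fix
import Pool.Agent.Helper19.VS.AB

set_option autoImplicit false

/-!
# Few failing Veblen configurations force `q` to be a prime power
-/

namespace Pool.Agent.Helper19.VS

open Finset Pool.Agent.V11100.VB

variable {V : Type} [DecidableEq V] [Fintype V] {B : Finset (Finset V)} {q : ℕ}

theorem poly_pos {q r : ℤ} (hq : 6 ≤ q) (hr : q ^ 2 ≤ r) :
    100 * (q ^ 3 * (q - 1)) + (q * (q - 1)) ^ 2 * (1 + q) + 12 * q * (3 * (q * (q - 1)) * r +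
      q * (r * q + 1) + (r * q + 1) * (q + 1) + (q + 1) ^ 4) < 100 * ((r - 2) * q ^ 3) := by
  obtain ⟨t, rfl⟩ : ∃ t, q = t + 6 := ⟨q - 6, by ring⟩
  obtain ⟨s, rfl⟩ : ∃ s, r = (t + 6) ^ 2 + s := ⟨r - (t + 6) ^ 2, by ring⟩
  have ht : 0 ≤ t := by linarith
  have hs : 0 ≤ s := by linarith
  have e : 100 * (((t + 6) ^ 2 + s - 2) * (t + 6) ^ 3) - (100 * ((t + 6) ^ 3 * (t + 6 - 1)) +
      ((t + 6) * (t + 6 - 1)) ^ 2 * (1 + (t + 6)) +
      12 * (t + 6) * (3 * ((t + 6) * (t + 6 - 1)) * ((t + 6) ^ 2 + s) +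
      (t + 6) * (((t + 6) ^ 2 + s) * (t + 6) + 1) +
      (((t + 6) ^ 2 + s) * (t + 6) + 1) * (t + 6 + 1) + (t + 6 + 1) ^ 4)) =
      (t + 6) * (27 * t ^ 4 + 525 * t ^ 3 + 3447 * t ^ 2 + 7919 * t + 1806) +
      s * (40 * (t + 6) ^ 3 + 24 * (t + 6) ^ 2) := by ring
  have h1 : 0 < (t + 6) * (27 * t ^ 4 + 525 * t ^ 3 + 3447 * t ^ 2 + 7919 * t + 1806) := by
    positivity
  have h2 : 0 ≤ s * (40 * (t + 6) ^ 3 + 24 * (t + 6) ^ 2) := by positivity
  linarith

theorem final_arith {q r n m X F W : ℤ} (hq : 6 ≤ q) (hr : q ^ 2 ≤ r) (hn : n = r * q + 1)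
    (hm : m = q * (q - 1)) (hX : X = n * (r * (r - 1))) (hF0 : 0 ≤ F)
    (hF : 100 * q * F ≤ m ^ 2 * X) (hW : X * (r - 2) ≤ W)
    (h : W * (q ^ 2 * (q * m ^ 2)) ≤ (q * m ^ 2) * (q ^ 2 * (q - 1) * X + F + q * F) +
      12 * q ^ 2 * (m * (3 * (r * F)) + q * (n * F) + n * (q + 1) * F + (q + 1) ^ 4 * F)) :
    False := by
  have hr36 : 36 ≤ r := by nlinarith
  have hm0 : 0 < m := by rw [hm]; exact mul_pos (by linarith) (by linarith)
  have hn0 : 0 < n := by rw [hn]; nlinarith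
  have hX0 : 0 < X := by
    rw [hX]
    exact mul_pos hn0 (mul_pos (by linarith) (by linarith))
  have h1 : X * (r - 2) * (q ^ 2 * (q * m ^ 2)) ≤ (q * m ^ 2) * (q ^ 2 * (q - 1) * X + F + q * F) +
      12 * q ^ 2 * (m * (3 * (r * F)) + q * (n * F) + n * (q + 1) * F + (q + 1) ^ 4 * F) :=
    (mul_le_mul_of_nonneg_right hW (by positivity)).trans h
  set C := m ^ 2 * (1 + q) + 12 * q * (3 * m * r + q * n + n * (q + 1) + (q + 1) ^ 4) with hC
  have hC0 : 0 ≤ C := by
    rw [hC]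
    have : 0 ≤ r := by linarith
    positivity
  have h2 : C * (100 * q * F) ≤ C * (m ^ 2 * X) := mul_le_mul_of_nonneg_left hF hC0
  have h3 : (m ^ 2 * X) * (100 * ((r - 2) * q ^ 3)) ≤ (m ^ 2 * X) * (100 * (q ^ 3 * (q - 1)) + C) := by
    have e1 : (m ^ 2 * X) * (100 * ((r - 2) * q ^ 3)) =
        100 * (X * (r - 2) * (q ^ 2 * (q * m ^ 2))) := by ring
    have e2 : (m ^ 2 * X) * (100 * (q ^ 3 * (q - 1)) + C) =
        100 * ((q * m ^ 2) * (q ^ 2 * (q - 1) * X)) + C * (m ^ 2 * X) := by ring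
    have e3 : 100 * ((q * m ^ 2) * (q ^ 2 * (q - 1) * X + F + q * F) +
      12 * q ^ 2 * (m * (3 * (r * F)) + q * (n * F) + n * (q + 1) * F + (q + 1) ^ 4 * F)) =
      100 * ((q * m ^ 2) * (q ^ 2 * (q - 1) * X)) + C * (100 * q * F) := by
      rw [hC]; ring
    rw [e1, e2]
    linarith
  have h4 := le_of_mul_le_mul_left h3 (by positivity)
  have h5 := poly_pos hq hr
  rw [hC, hm, hn] at h4
  linarith

theorem core (H : LS B q) (hn : q ^ 2 + q + 1 < Fintype.card V)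
    (hF : 100 * q * (fls B).card ≤ (cfs B).card) : IsPrimePow q ∧ q ^ 3 < Fintype.card V := by
  classical
  have hq2 := H.hq
  have hne : Nonempty V := by
    rw [← Fintype.card_pos_iff]
    omega
  obtain ⟨p0⟩ := hne
  obtain ⟨r, hr0⟩ : ∃ r, r = (thr B p0).card := ⟨_, rfl⟩
  have hr : ∀ p, (thr B p).card = r := by
    intro p
    have h1 := card_thr H p
    have h2 := card_thr H p0
    rw [← h2, ← hr0] at h1
    have h3 : (thr B p).card * q = r * q := by omega
    exact Nat.eq_of_mul_eq_mul_right (by omega) h3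
  have hnr : r * q + 1 = Fintype.card V := by rw [hr0]; exact card_thr H p0
  have hqr : q + 2 ≤ r := by
    by_contra hc
    push Not at hc
    have : r * q ≤ (q + 1) * q := Nat.mul_le_mul_right _ (by omega)
    nlinarith
  have hr2 := AB H hr hnr hqr hF
  refine ⟨?_, ?_⟩
  swap
  · rw [← hnr]
    have : q ^ 2 * q ≤ r * q := Nat.mul_le_mul_right _ hr2
    have e : q ^ 3 = q ^ 2 * q := by ring
    omega
  by_contra hpp
  have hq6 : 6 ≤ q := by
    by_contra hc
    push Not at hc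
    apply hpp
    interval_cases q
    · exact Nat.prime_two.isPrimePow
    · exact Nat.prime_three.isPrimePow
    · rw [isPrimePow_nat_iff]; exact ⟨2, 2, Nat.prime_two, by norm_num, by norm_num⟩
    · exact (by norm_num : Nat.Prime 5).isPrimePow
  set m := q * (q - 1) with hm
  set fK : V × Finset V × Finset V × Finset V → ℕ := fun t =>
    (KS B t.1 t.2.1 t.2.2.1 t.2.2.2).card + (D1 B t.1 t.2.1 t.2.2.1 t.2.2.2).card +
      q * (D2 B t.1 t.2.1 t.2.2.1 t.2.2.2).card with hfK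
  set fT : V × Finset V × Finset V × Finset V → ℕ := fun t =>
    m * ((DF B t.1 t.2.1 t.2.2.1).card + (DF B t.1 t.2.2.1 t.2.2.2).card +
      (DF B t.1 t.2.1 t.2.2.2).card) + q * (ES B t.1 t.2.1 t.2.2.1 t.2.2.2).card +
      (BS B t.1 t.2.1 t.2.2.1 t.2.2.2).card + (CS B t.1 t.2.1 t.2.2.1 t.2.2.2).card with hfT
  have hpt : ∀ t ∈ Qd B, q ^ 2 * (q * m ^ 2) ≤ (q * m ^ 2) * fK t +
      (if t ∈ QN B then 12 * q ^ 2 * fT t else 0) := by
    rintro ⟨p, L1, L2, L3⟩ ht
    have hQ := mem_Qd.1 ht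
    by_cases hN : NoTr B p L1 L2 L3
    · rw [if_pos (mem_QN.2 ⟨hQ, hN⟩)]
      have h1 := main_fix H hQ hN hpp
      have h2 : q * m ^ 2 ≤ 12 * fT (p, L1, L2, L3) := h1.le
      have h3 := Nat.mul_le_mul_left (q ^ 2) h2
      have e : 12 * q ^ 2 * fT (p, L1, L2, L3) = q ^ 2 * (12 * fT (p, L1, L2, L3)) := by ring
      rw [e]
      exact h3.trans (Nat.le_add_left _ _)
    · rw [if_neg (fun h => hN (mem_QN.1 h).2), add_zero]
      have h1 := K_le H hQ hN
      have h2 : q ^ 2 ≤ fK (p, L1, L2, L3) := by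
        rw [sq]
        exact h1
      have h3 := Nat.mul_le_mul_left (q * m ^ 2) h2
      rw [mul_comm (q ^ 2)]
      exact h3
  have hsum := sum_le_sum hpt
  rw [sum_const, smul_eq_mul, sum_add_distrib, ← mul_sum, ← sum_filter] at hsum
  have hfil : (Qd B).filter (fun t => t ∈ QN B) = QN B := by
    ext t
    rw [mem_filter]
    constructor
    · exact fun h => h.2
    · intro h
      refine ⟨?_, h⟩
      unfold QN at h
      exact (mem_filter.1 h).1
  rw [hfil, ← mul_sum] at hsum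
  have hsub : QN B ⊆ Qd B := by
    rw [← hfil]
    exact filter_subset _ _
  set F := (fls B).card with hFF
  set n := Fintype.card V with hnn
  have sK : ∑ t ∈ Qd B, fK t ≤ q ^ 2 * (q - 1) * (n * (r * (r - 1))) + F + q * F := by
    rw [hfK, sum_add_distrib, sum_add_distrib, ← mul_sum]
    have h1 := sum_KS H hr
    have h2 := sum_D1 H
    have h3 := sum_D2 H
    rw [one_mul] at h2 h3
    exact Nat.add_le_add (Nat.add_le_add h1 h2) (Nat.mul_le_mul_left _ h3)
  have sT : ∑ t ∈ QN B, fT t ≤ m * (3 * (r * F)) + q * (n * F) + n * (q + 1) * F +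
      (q + 1) ^ 4 * F := by
    rw [hfT, sum_add_distrib, sum_add_distrib, sum_add_distrib, ← mul_sum, ← mul_sum,
      sum_add_distrib, sum_add_distrib]
    have h1 := (sum_le_sum_of_subset hsub).trans (sum_DF12 H hr)
    have h2 := (sum_le_sum_of_subset hsub).trans (sum_DF23 H hr)
    have h3 := (sum_le_sum_of_subset hsub).trans (sum_DF13 H hr)
    have h4 := sum_ES H
    have h5 := sum_BS H
    have h6 := sum_CS H
    refine Nat.add_le_add (Nat.add_le_add (Nat.add_le_add (Nat.mul_le_mul_left _ ?_)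
      (Nat.mul_le_mul_left _ h4)) h5) h6
    have e : 3 * (r * F) = r * F + r * F + r * F := by ring
    rw [e]
    exact Nat.add_le_add (Nat.add_le_add h1 h2) h3
  have hW := card_Qd (B := B) H hr
  have hN := (hF.trans (card_cfs H hr))
  have h7 : (Qd B).card * (q ^ 2 * (q * m ^ 2)) ≤
      (q * m ^ 2) * (q ^ 2 * (q - 1) * (n * (r * (r - 1))) + F + q * F) +
      12 * q ^ 2 * (m * (3 * (r * F)) + q * (n * F) + n * (q + 1) * F + (q + 1) ^ 4 * F) :=
    hsum.trans (Nat.add_le_add (Nat.mul_le_mul_left _ sK) (Nat.mul_le_mul_left _ sT))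
  rw [← hnn] at hW hN
  obtain ⟨q', hq'⟩ : ∃ q', q = q' + 1 := ⟨q - 1, by omega⟩
  obtain ⟨r', hr'⟩ : ∃ r', r = r' + 2 := ⟨r - 2, by omega⟩
  have e1 : q - 1 = q' := by omega
  have e2 : r - 1 = r' + 1 := by omega
  have e3 : r - 2 = r' := by omega
  rw [e1, e2] at h7
  rw [e2, e3] at hW
  rw [e2] at hN
  rw [e1] at hm
  have c1 : (q' : ℤ) = q - 1 := by rw [hq']; push_cast; ring
  have c2 : (r' : ℤ) + 1 = r - 1 := by rw [hr']; push_cast; ring
  have c3 : (r' : ℤ) = r - 2 := by rw [hr']; push_cast; ring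
  have c4 : (m : ℤ) = q * (q - 1) := by
    rw [hm, Nat.cast_mul, c1]
  have c5 : (n : ℤ) = r * q + 1 := by
    rw [← hnr, Nat.cast_add, Nat.cast_mul, Nat.cast_one]
  refine final_arith (q := q) (r := r) (n := n) (m := m) (X := n * (r * (r - 1))) (F := F)
    (W := (Qd B).card) (by exact_mod_cast hq6) (by exact_mod_cast hr2)
    c5 c4 rfl (Nat.cast_nonneg _) ?_ ?_ ?_
  · rw [← c2]
    exact_mod_cast hN
  · have : (n : ℤ) * (r * (r - 1)) * (r - 2) = n * (r * (r' + 1) * r') := by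
      rw [← c2, ← c3]; ring
    rw [this]
    exact_mod_cast hW
  · rw [← c2, ← c1]
    exact_mod_cast h7

end Pool.Agent.Helper19.VS
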